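import Mathlib

-- merged part: Pool.Agent.Work.MP_913c95_al.Zlem
section
/-!
Length systems and the central extension lemma.
-/

namespace Pool.Agent.Work.MP_913c95_al

open Filter Topology
open scoped InnerProductSpace commutatorElement

/-- An abstract notion of bounded length on a group. -/
structure LenSys (Γ : Type) [Group Γ] where
  P : ℕ → Γ → Prop
  one : P 0 1
  mul : ∀ {m n : ℕ} {g h : Γ}, P m g → P n h → P (m + n) (g * h)
  inv : ∀ {m : ℕ} {g : Γ}, P m g → P m g⁻¹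
  mono : ∀ {m n : ℕ} {g : Γ}, m ≤ n → P m g → P n g

theorem exists_len {Γ : Type} [Group Γ] {S : Set Γ} {g : Γ} (hg : g ∈ Subgroup.closure S) :
    ∃ n : ℕ, ∀ L : LenSys Γ, (∀ s ∈ S, L.P 1 s) → L.P n g := by
  induction hg using Subgroup.closure_induction with
  | mem x hx => exact ⟨1, fun L h => h x hx⟩
  | one => exact ⟨0, fun L _ => L.one⟩
  | mul x y _ _ hx hy =>
    obtain ⟨m, hm⟩ := hx
    obtain ⟨n, hn⟩ := hy
    exact ⟨m + n, fun L h => L.mul (hm L h) (hn L h)⟩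
  | inv x _ hx =>
    obtain ⟨m, hm⟩ := hx
    exact ⟨m, fun L h => L.inv (hm L h)⟩

section disp

variable {H : Type} [NormedAddCommGroup H] [InnerProductSpace ℂ H]

theorem disp_mul (f g : H ≃ₗᵢ[ℂ] H) (ξ : H) :
    ‖(f * g) ξ - ξ‖ ≤ ‖f ξ - ξ‖ + ‖g ξ - ξ‖ := by
  have : (f * g) ξ - ξ = f (g ξ - ξ) + (f ξ - ξ) := by
    simp [map_sub]
  rw [this]
  refine (norm_add_le _ _).trans ?_
  rw [f.norm_map, add_comm]

theorem disp_inv (f : H ≃ₗᵢ[ℂ] H) (ξ : H) : ‖f⁻¹ ξ - ξ‖ = ‖f ξ - ξ‖ := by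
  rw [← f.norm_map, map_sub, norm_sub_rev]
  congr 2
  exact f.apply_symm_apply ξ

/-- The length system of displacement of a vector. -/
def dispSys {Γ : Type} [Group Γ] (π : Γ →* (H ≃ₗᵢ[ℂ] H)) (ξ : H) (δ : ℝ) (hδ : 0 ≤ δ) :
    LenSys Γ where
  P n g := ‖π g ξ - ξ‖ ≤ n * δ
  one := by simp
  mul := by
    intro m n g h hg hh
    rw [map_mul]
    refine (disp_mul _ _ _).trans ?_
    push_cast
    linarith
  inv := by
    intro m g hg
    rwa [map_inv, disp_inv]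
  mono := by
    intro m n g hmn hg
    have : (m : ℝ) ≤ n := by exact_mod_cast hmn
    nlinarith

end disp

section Z

variable {Γ : Type} [Group Γ]

theorem exists_disp {S : Set Γ} (hS : Subgroup.closure S = ⊤) (g : Γ) :
    ∃ C : ℝ, 0 ≤ C ∧ ∀ (H : Type) [NormedAddCommGroup H] [InnerProductSpace ℂ H]
      (π : Γ →* (H ≃ₗᵢ[ℂ] H)) (ξ : H) (δ : ℝ), 0 ≤ δ → (∀ s ∈ S, ‖π s ξ - ξ‖ ≤ δ) →
      ‖π g ξ - ξ‖ ≤ C * δ := by
  obtain ⟨n, hn⟩ := exists_len (S := S) (g := g) (by rw [hS]; trivial)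
  refine ⟨n, Nat.cast_nonneg _, fun H _ _ π ξ δ hδ h => hn (dispSys π ξ δ hδ) ?_⟩
  intro s hs
  change ‖π s ξ - ξ‖ ≤ (1 : ℕ) * δ
  simpa using h s hs

/-- A family of quantities is uniformly of order `δ η`. -/
def Small (S : Set Γ)
    (F : ∀ (H : Type) [NormedAddCommGroup H] [InnerProductSpace ℂ H],
      (Γ →* (H ≃ₗᵢ[ℂ] H)) → H → H → ℂ) : Prop :=
  ∃ C : ℝ, 0 ≤ C ∧ ∀ (H : Type) [NormedAddCommGroup H] [InnerProductSpace ℂ H]
    (π : Γ →* (H ≃ₗᵢ[ℂ] H)) (ξ v : H) (δ η : ℝ), 0 ≤ δ → 0 ≤ η →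
    (∀ s ∈ S, ‖π s ξ - ξ‖ ≤ δ) → (∀ s ∈ S, ‖π s v - v‖ ≤ η) → ‖F H π ξ v‖ ≤ C * (δ * η)

/-- The approximate homomorphism. -/
noncomputable def ph (g : Γ) (H : Type) [NormedAddCommGroup H] [InnerProductSpace ℂ H]
    (π : Γ →* (H ≃ₗᵢ[ℂ] H)) (ξ v : H) : ℂ := ⟪v, π g ξ - ξ⟫_ℂ

theorem Small.add {S : Set Γ} {F G} (hF : Small S F) (hG : Small S G) :
    Small S (fun H _ _ π ξ v => F H π ξ v + G H π ξ v) := by
  obtain ⟨C, hC, h⟩ := hF
  obtain ⟨D, hD, h'⟩ := hG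
  refine ⟨C + D, by positivity, fun H _ _ π ξ v δ η hδ hη h1 h2 => ?_⟩
  refine (norm_add_le _ _).trans ?_
  have := h H π ξ v δ η hδ hη h1 h2
  have := h' H π ξ v δ η hδ hη h1 h2
  linarith

theorem Small.neg {S : Set Γ} {F} (hF : Small S F) :
    Small S (fun H _ _ π ξ v => - F H π ξ v) := by
  obtain ⟨C, hC, h⟩ := hF
  refine ⟨C, hC, fun H _ _ π ξ v δ η hδ hη h1 h2 => ?_⟩
  rw [norm_neg]
  exact h H π ξ v δ η hδ hη h1 h2

theorem Small.congr {S : Set Γ} {F G} (hF : Small S F)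
    (h : ∀ (H : Type) [NormedAddCommGroup H] [InnerProductSpace ℂ H]
      (π : Γ →* (H ≃ₗᵢ[ℂ] H)) (ξ v : H), F H π ξ v = G H π ξ v) : Small S G := by
  obtain ⟨C, hC, h'⟩ := hF
  refine ⟨C, hC, fun H _ _ π ξ v δ η hδ hη h1 h2 => ?_⟩
  rw [← h]
  exact h' H π ξ v δ η hδ hη h1 h2

theorem small_defect {S : Set Γ} (hS : Subgroup.closure S = ⊤) (g h : Γ) :
    Small S (fun H _ _ π ξ v => ph (g * h) H π ξ v - ph g H π ξ v - ph h H π ξ v) := by
  obtain ⟨C, hC, h1⟩ := exists_disp hS g⁻¹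
  obtain ⟨D, hD, h2⟩ := exists_disp hS h
  refine ⟨C * D, by positivity, fun H _ _ π ξ v δ η hδ hη hξ hv => ?_⟩
  have e : ph (g * h) H π ξ v - ph g H π ξ v - ph h H π ξ v =
      ⟪π g⁻¹ v - v, π h ξ - ξ⟫_ℂ := by
    have e1 : ⟪π g⁻¹ v, π h ξ - ξ⟫_ℂ = ⟪v, π g (π h ξ - ξ)⟫_ℂ := by
      rw [← (π g).inner_map_map]
      congr 1
      rw [map_inv]
      exact (π g).apply_symm_apply v
    rw [inner_sub_left, e1]
    simp only [ph, map_mul, LinearIsometryEquiv.coe_mul, Function.comp, map_sub, inner_sub_right]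
    ring
  simp only [e]
  refine (norm_inner_le_norm _ _).trans ?_
  have a1 := h1 H π v η hη hv
  have a2 := h2 H π ξ δ hδ hξ
  calc _ ≤ (C * η) * (D * δ) := mul_le_mul a1 a2 (norm_nonneg _) (by positivity)
    _ = _ := by ring

theorem small_comm {S : Set Γ} (hS : Subgroup.closure S = ⊤) {g : Γ} (hg : g ∈ commutator Γ) :
    Small S (ph g) := by
  rw [commutator_eq_closure] at hg
  induction hg using Subgroup.closure_induction with
  | mem x hx =>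
    obtain ⟨g, h, rfl⟩ := hx
    have e : ⁅g, h⁆ * (h * g) = g * h := by
      rw [commutatorElement_def]; group
    have a1 := small_defect hS ⁅g, h⁆ (h * g)
    rw [e] at a1
    refine ((a1.neg.add (small_defect hS g h)).add (small_defect hS h g).neg).congr ?_
    intro H _ _ π ξ v
    ring
  | one =>
    refine ⟨0, le_rfl, fun H _ _ π ξ v δ η _ _ _ _ => ?_⟩
    simp [ph]
  | mul x y _ _ hx hy =>
    refine ((small_defect hS x y).add (hx.add hy)).congr ?_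
    intro H _ _ π ξ v
    ring
  | inv x _ hx =>
    refine (((small_defect hS x x⁻¹).add hx).neg).congr ?_
    intro H _ _ π ξ v
    simp [ph]

theorem disp_central {H : Type} [NormedAddCommGroup H] [InnerProductSpace ℂ H]
    (π : Γ →* (H ≃ₗᵢ[ℂ] H)) {w s : Γ} (h : Commute w s) (ξ : H) :
    ‖π s (π w ξ) - π w ξ‖ = ‖π s ξ - ξ‖ := by
  have : π s (π w ξ) = π w (π s ξ) := by
    change (π s * π w) ξ = (π w * π s) ξ
    rw [← map_mul, ← map_mul, h.eq]
  rw [this, ← map_sub, (π w).norm_map]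

/-- Square root growth of the powers of a central element of the commutator subgroup. -/
theorem sqrt_growth {S : Set Γ} (hS : Subgroup.closure S = ⊤) {z : Γ}
    (hz : ∀ g, Commute z g) (hzc : z ∈ commutator Γ) :
    ∃ C : ℝ, 0 ≤ C ∧ ∀ (H : Type) [NormedAddCommGroup H] [InnerProductSpace ℂ H]
      (π : Γ →* (H ≃ₗᵢ[ℂ] H)) (ξ : H) (δ : ℝ), 0 ≤ δ → (∀ s ∈ S, ‖π s ξ - ξ‖ ≤ δ) →
      ∀ N : ℕ, ‖π (z ^ N) ξ - ξ‖ ^ 2 ≤ C * N * δ ^ 2 := by
  obtain ⟨C, hC, h⟩ := small_comm hS hzc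
  refine ⟨2 * C, by positivity, fun H _ _ π ξ δ hδ hξ N => ?_⟩
  set b := π (z ^ N) ξ - ξ with hb
  have hbS : ∀ s ∈ S, ‖π s b - b‖ ≤ 2 * δ := by
    intro s hs
    have e : π s b - b = (π s (π (z ^ N) ξ) - π (z ^ N) ξ) - (π s ξ - ξ) := by
      rw [hb, map_sub]; abel
    rw [e]
    refine (norm_sub_le _ _).trans ?_
    rw [disp_central π ((hz s).pow_left N)]
    have := hξ s hs
    linarith only [this]
  have key : ∀ k : ℕ, ‖⟪b, π (z ^ k) ξ - ξ⟫_ℂ‖ ≤ k * (2 * C * δ ^ 2) := by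
    intro k
    induction k with
    | zero => simp
    | succ k ih =>
      have a := h H π (π (z ^ k) ξ) b δ (2 * δ) hδ (by positivity)
        (fun s hs => by rw [disp_central π ((hz s).pow_left k)]; exact hξ s hs) hbS
      have e : ⟪b, π (z ^ (k + 1)) ξ - ξ⟫_ℂ =
          ph z H π (π (z ^ k) ξ) b + ⟪b, π (z ^ k) ξ - ξ⟫_ℂ := by
        simp only [ph, pow_succ', map_mul, LinearIsometryEquiv.coe_mul, Function.comp,
          inner_sub_right]
        ring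
      rw [e]
      refine (norm_add_le _ _).trans ?_
      push_cast
      linarith only [ih, a]
  have := key N
  rw [← hb, inner_self_eq_norm_sq_to_K] at this
  simp only [norm_pow, Complex.coe_algebraMap, Complex.norm_real, norm_norm] at this
  linarith

theorem centre_step {H : Type} [NormedAddCommGroup H] [InnerProductSpace ℂ H]
    (π : Γ →* (H ≃ₗᵢ[ℂ] H)) {S : Set Γ} (h1 : (1 : Γ) ∈ S) {Z : Set Γ}
    (hS2 : ∀ s ∈ S, ∀ t ∈ S, ∃ c ∈ Z, ∃ r ∈ S, t = s * (r * c)) (p : H) {δ : ℝ} (hδ : 0 < δ)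
    (hp : ∀ s ∈ S, ‖π s p - p‖ ≤ δ) (hZ : ∀ c ∈ Z, ‖π c p - p‖ ≤ δ / 32) :
    ∃ x : H, ‖x - p‖ ≤ δ ∧ ∀ s ∈ S, ‖π s x - x‖ ≤ δ / 2 := by
  set B : Set ℝ := {ρ | ∃ x : H, ∀ s ∈ S, ‖x - π s p‖ ^ 2 ≤ ρ} with hB
  have hmem : δ ^ 2 ∈ B := ⟨p, fun s hs => by
    rw [norm_sub_rev]
    exact pow_le_pow_left₀ (norm_nonneg _) (hp s hs) 2⟩
  have hbdd : BddBelow B := ⟨0, by
    rintro ρ ⟨x, hx⟩
    exact le_trans (sq_nonneg _) (hx 1 h1)⟩
  obtain ⟨ρ, ⟨hρB, hρ1⟩, hρ2⟩ : ∃ ρ, (ρ ∈ B ∧ ρ ≤ δ ^ 2) ∧ ρ ≤ sInf B + δ ^ 2 / 64 := by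
    obtain ⟨ρ, hρ, hlt⟩ := exists_lt_of_csInf_lt ⟨_, hmem⟩
      (show sInf B < sInf B + δ ^ 2 / 64 by have : 0 < δ ^ 2 / 64 := by positivity
                                            linarith only [this])
    rcases le_total ρ (δ ^ 2) with h | h
    · exact ⟨ρ, ⟨hρ, h⟩, hlt.le⟩
    · exact ⟨δ ^ 2, ⟨hmem, le_rfl⟩, h.trans hlt.le⟩
  obtain ⟨x, hx⟩ := hρB
  have hxδ : ∀ s ∈ S, ‖x - π s p‖ ≤ δ := fun s hs =>
    (pow_le_pow_iff_left₀ (norm_nonneg _) hδ.le two_ne_zero).1 ((hx s hs).trans hρ1)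
  refine ⟨x, by simpa using hxδ 1 h1, fun s hs => ?_⟩
  have hy : ∀ t ∈ S, ‖π s x - π t p‖ ^ 2 ≤ ρ + δ ^ 2 / 16 + δ ^ 2 / 1024 := by
    intro t ht
    obtain ⟨c, hc, r, hr, rfl⟩ := hS2 s hs t ht
    have e : π s x - π (s * (r * c)) p = π s ((x - π r p) - π r (π c p - p)) := by
      simp [map_sub]
    rw [e, (π s).norm_map]
    have a1 := norm_sub_le (x - π r p) (π r (π c p - p))
    rw [(π r).norm_map] at a1
    have a2 := hZ c hc
    have a3 := hx r hr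
    have a4 := hxδ r hr
    have a5 : ‖x - π r p - π r (π c p - p)‖ ≤ ‖x - π r p‖ + δ / 32 := by linarith only [a1, a2]
    have a6 := pow_le_pow_left₀ (norm_nonneg _) a5 2
    have a7 := norm_nonneg (x - π r p)
    linarith only [a3, a6, hδ, a4, mul_nonneg_of_nonpos_of_nonpos (le_of_lt (Mathlib.Tactic.Linarith.sub_neg_of_lt hδ)) (Mathlib.Tactic.Linarith.sub_nonpos_of_le a4)]
  have hm : ρ + δ ^ 2 / 32 + δ ^ 2 / 2048 - ‖π s x - x‖ ^ 2 / 4 ∈ B := by
    refine ⟨(1 / 2 : ℂ) • (x + π s x), fun t ht => ?_⟩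
    have e : (1 / 2 : ℂ) • (x + π s x) - π t p =
        (1 / 2 : ℂ) • ((π s x - π t p) + (x - π t p)) := by
      module
    have par := parallelogram_law_with_norm ℂ (π s x - π t p) (x - π t p)
    have e2 : π s x - π t p - (x - π t p) = π s x - x := by abel
    rw [e2] at par
    rw [e, norm_smul]
    have a1 := hy t ht
    have a2 := hx t ht
    have e3 : ‖(1 / 2 : ℂ)‖ = 1 / 2 := by simp
    rw [e3]
    linarith only [par, a1, a2]
  have := csInf_le hbdd hm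
  have h3 : ‖π s x - x‖ ^ 2 ≤ (δ / 2) ^ 2 := by linarith only [hρ2, this, sq_nonneg δ, sq_nonneg δ]
  exact (pow_le_pow_iff_left₀ (norm_nonneg _) (by positivity) two_ne_zero).1 h3

theorem half_step {S : Set Γ} (hS : Subgroup.closure S = ⊤) (h1 : (1 : Γ) ∈ S) {z : Γ}
    (hz : ∀ g, Commute z g) (hzc : z ∈ commutator Γ)
    (hS2 : ∀ s ∈ S, ∀ t ∈ S, ∃ c ∈ ({1, z, z⁻¹} : Set Γ), ∃ r ∈ S, t = s * (r * c)) :
    ∃ K : ℝ, 0 ≤ K ∧ ∀ (H : Type) [NormedAddCommGroup H] [InnerProductSpace ℂ H]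
      (π : Γ →* (H ≃ₗᵢ[ℂ] H)) (ξ : H) (δ : ℝ), 0 ≤ δ → (∀ s ∈ S, ‖π s ξ - ξ‖ ≤ δ) →
      ∃ x : H, ‖x - ξ‖ ≤ K * δ ∧ ∀ s ∈ S, ‖π s x - x‖ ≤ δ / 2 := by
  obtain ⟨C, hC, h⟩ := sqrt_growth hS hz hzc
  obtain ⟨N, hN⟩ := exists_nat_gt (1024 * C)
  have hN0 : (0 : ℝ) < N := lt_of_le_of_lt (by positivity) hN
  refine ⟨N + 1, by positivity, fun H _ _ π ξ δ hδ hξ => ?_⟩
  rcases hδ.eq_or_lt with rfl | hδ'
  · exact ⟨ξ, by simp, by simpa using hξ⟩
  have hb := h H π ξ δ hδ hξ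
  set p : H := ((N : ℂ)⁻¹) • ∑ k ∈ Finset.range N, π (z ^ k) ξ with hp
  have nN : ‖((N : ℂ)⁻¹)‖ = (N : ℝ)⁻¹ := by simp
  have hNc : (N : ℂ) ≠ 0 := by exact_mod_cast hN0.ne'
  have hpS : ∀ s ∈ S, ‖π s p - p‖ ≤ δ := by
    intro s hs
    have e : π s p - p = ((N : ℂ)⁻¹) • ∑ k ∈ Finset.range N,
        (π s (π (z ^ k) ξ) - π (z ^ k) ξ) := by
      rw [hp, map_smul, map_sum, Finset.sum_sub_distrib, smul_sub]
    rw [e, norm_smul, nN]
    have : ‖∑ k ∈ Finset.range N, (π s (π (z ^ k) ξ) - π (z ^ k) ξ)‖ ≤ N * δ := by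
      refine (norm_sum_le _ _).trans ?_
      refine (Finset.sum_le_card_nsmul _ _ δ fun k _ => ?_).trans (by simp)
      rw [disp_central π ((hz s).pow_left k)]
      exact hξ s hs
    rw [inv_mul_le_iff₀ hN0]
    exact this
  have hpz : ‖π z p - p‖ ≤ δ / 32 := by
    have e : π z p - p = ((N : ℂ)⁻¹) • (π (z ^ N) ξ - ξ) := by
      have := Finset.sum_range_sub (fun k => π (z ^ k) ξ) N
      simp only [pow_zero, map_one, LinearIsometryEquiv.coe_one, id] at this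
      rw [hp, map_smul, map_sum, ← smul_sub, ← Finset.sum_sub_distrib, ← this]
      congr 1
      refine Finset.sum_congr rfl fun k _ => ?_
      rw [pow_succ', map_mul]
      rfl
    rw [e, norm_smul, nN, inv_mul_le_iff₀ hN0]
    refine (pow_le_pow_iff_left₀ (norm_nonneg _) (by positivity) two_ne_zero).1 ((hb N).trans ?_)
    have : 0 ≤ (N : ℝ) * δ ^ 2 := by positivity
    linarith only [hN, this, mul_nonneg_of_nonpos_of_nonpos (le_of_lt (Mathlib.Tactic.Linarith.sub_neg_of_lt hN)) (Mathlib.Tactic.Linarith.sub_nonpos_of_le this)]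
  have hpξ : ‖p - ξ‖ ≤ N * δ := by
    have e : p - ξ = ((N : ℂ)⁻¹) • ∑ k ∈ Finset.range N, (π (z ^ k) ξ - ξ) := by
      rw [hp, Finset.sum_sub_distrib, smul_sub, Finset.sum_const, Finset.card_range,
        ← Nat.cast_smul_eq_nsmul ℂ, smul_smul, inv_mul_cancel₀ hNc, one_smul]
    rw [e, norm_smul, nN, inv_mul_le_iff₀ hN0]
    refine (norm_sum_le _ _).trans ?_
    refine (Finset.sum_le_card_nsmul _ _ (N * δ) fun k hk => ?_).trans (by simp)
    refine (pow_le_pow_iff_left₀ (norm_nonneg _) (by positivity) two_ne_zero).1 ((hb k).trans ?_)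
    have hk' : (k : ℝ) ≤ N := by exact_mod_cast (Finset.mem_range.1 hk).le
    have a1 : C * k ≤ N * N := mul_le_mul (by linarith only [hC, hN]) hk' (Nat.cast_nonneg _) hN0.le
    have a2 : 0 ≤ δ ^ 2 := by positivity
    linarith only [a1, mul_nonneg_of_nonpos_of_nonpos (Mathlib.Tactic.Linarith.sub_nonpos_of_le (sq_nonneg δ)) (Mathlib.Tactic.Linarith.sub_nonpos_of_le a1)]
  obtain ⟨x, hx1, hx2⟩ := centre_step π h1 hS2 p hδ' hpS (by
    intro c hc
    rcases hc with rfl | rfl | rfl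
    · simp; positivity
    · exact hpz
    · rw [map_inv, disp_inv]; exact hpz)
  refine ⟨x, ?_, hx2⟩
  have := norm_add_le (x - p) (p - ξ)
  rw [sub_add_sub_cancel] at this
  linarith only [hpξ, hx1, this]

/-- The central extension lemma. -/
theorem lemmaZ {S : Set Γ} (hS : Subgroup.closure S = ⊤) (h1 : (1 : Γ) ∈ S) {z : Γ}
    (hz : ∀ g, Commute z g) (hzc : z ∈ commutator Γ)
    (hS2 : ∀ s ∈ S, ∀ t ∈ S, ∃ c ∈ ({1, z, z⁻¹} : Set Γ), ∃ r ∈ S, t = s * (r * c)) :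
    ∃ K : ℝ, 0 ≤ K ∧ ∀ (H : Type) [NormedAddCommGroup H] [InnerProductSpace ℂ H] [CompleteSpace H]
      (π : Γ →* (H ≃ₗᵢ[ℂ] H)) (ξ : H) (δ : ℝ), 0 ≤ δ → (∀ s ∈ S, ‖π s ξ - ξ‖ ≤ δ) →
      ∃ ζ : H, ‖ζ - ξ‖ ≤ K * δ ∧ ∀ g, π g ζ = ζ := by
  obtain ⟨K, hK, h⟩ := half_step hS h1 hz hzc hS2
  refine ⟨2 * K, by positivity, fun H _ _ _ π ξ δ hδ hξ => ?_⟩
  have h' : ∀ (n : ℕ) (y : H), ∃ x : H, (∀ s ∈ S, ‖π s y - y‖ ≤ δ / 2 ^ n) →
      ‖x - y‖ ≤ K * (δ / 2 ^ n) ∧ ∀ s ∈ S, ‖π s x - x‖ ≤ δ / 2 ^ (n + 1) := by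
    intro n y
    by_cases hy : ∀ s ∈ S, ‖π s y - y‖ ≤ δ / 2 ^ n
    · obtain ⟨x, hx1, hx2⟩ := h H π y _ (by positivity) hy
      refine ⟨x, fun _ => ⟨hx1, fun s hs => ?_⟩⟩
      rw [pow_succ, ← div_div]
      exact hx2 s hs
    · exact ⟨y, fun h => (hy h).elim⟩
  choose F hF using h'
  let u : ℕ → H := fun n => Nat.rec ξ F n
  have hu : ∀ n, ∀ s ∈ S, ‖π s (u n) - u n‖ ≤ δ / 2 ^ n := by
    intro n
    induction n with
    | zero =>
      intro s hs
      rw [pow_zero, div_one]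
      exact hξ s hs
    | succ n ih => exact (hF n (u n) ih).2
  have hd : ∀ n, dist (u n) (u (n + 1)) ≤ 2 * K * δ / 2 / 2 ^ n := by
    intro n
    rw [dist_comm, dist_eq_norm]
    refine (hF n (u n) (hu n)).1.trans (le_of_eq ?_)
    ring
  obtain ⟨ζ, hζ⟩ := cauchySeq_tendsto_of_complete (cauchySeq_of_le_geometric_two hd)
  refine ⟨ζ, ?_, ?_⟩
  · have := dist_le_of_le_geometric_two_of_tendsto₀ hd hζ
    rwa [dist_comm, dist_eq_norm] at this
  · have hfix : ∀ s ∈ S, π s ζ = ζ := by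
      intro s hs
      have t1 : Tendsto (fun n => ‖π s (u n) - u n‖) atTop (𝓝 ‖π s ζ - ζ‖) :=
        ((((π s).continuous.tendsto ζ).comp hζ).sub hζ).norm
      have t2 : Tendsto (fun n : ℕ => δ / 2 ^ n) atTop (𝓝 0) :=
        tendsto_const_nhds.div_atTop (tendsto_pow_atTop_atTop_of_one_lt one_lt_two)
      have := le_of_tendsto_of_tendsto' t1 t2 fun n => hu n s hs
      exact sub_eq_zero.1 (norm_le_zero_iff.1 this)
    intro g
    have hg : g ∈ Subgroup.closure S := by rw [hS]; trivial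
    induction hg using Subgroup.closure_induction with
    | mem x hx => exact hfix x hx
    | one => simp
    | mul x y _ _ hx hy => simp [hx, hy]
    | inv x _ hx =>
      rw [map_inv]
      exact (LinearIsometryEquiv.symm_apply_eq _).2 hx.symm

end Z

end Pool.Agent.Work.MP_913c95_al
end

-- merged part: Pool.Agent.Work.MP_913c95_al.Main
section
-- merged part: Pool.Agent.Work.MP_913c95_al.Line
section
/-!
Order automorphisms of the line commuting with the unit translation.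
-/

namespace Pool.Agent.Work.MP_913c95_al

open scoped Pointwise

/-- Order automorphisms of the line commuting with the unit translation. -/
def HZ : Subgroup (ℝ ≃o ℝ) where
  carrier := {g | ∀ x, g (x + 1) = g x + 1}
  mul_mem' := fun {g h} hg hh x => by
    change g (h (x + 1)) = g (h x) + 1
    rw [hh, hg]
  one_mem' := fun _ => rfl
  inv_mem' := fun {g} hg x => by
    apply g.injective
    rw [hg]
    simp

/-- The group of lifts of orientation preserving circle homeomorphisms. -/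
def Hh : Type := HZ

noncomputable instance : Group Hh := inferInstanceAs (Group HZ)

noncomputable instance : MulAction Hh ℝ where
  smul g x := g.1 x
  one_smul _ := rfl
  mul_smul _ _ _ := rfl

theorem Hh.ext {g h : Hh} (e : ∀ x : ℝ, g • x = h • x) : g = h :=
  Subtype.ext (RelIso.ext e)

theorem Hh.lt_iff (g : Hh) {x y : ℝ} : g • x < g • y ↔ x < y := g.1.lt_iff_lt

theorem Hh.le_iff (g : Hh) {x y : ℝ} : g • x ≤ g • y ↔ x ≤ y := g.1.le_iff_le

theorem Hh.lt (g : Hh) {x y : ℝ} (h : x < y) : g • x < g • y := g.lt_iff.2 h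

theorem Hh.le (g : Hh) {x y : ℝ} (h : x ≤ y) : g • x ≤ g • y := g.le_iff.2 h

theorem Hh.add_one (g : Hh) (x : ℝ) : g • (x + 1) = g • x + 1 := g.2 x

theorem Hh.sub_one (g : Hh) (x : ℝ) : g • (x - 1) = g • x - 1 := by
  have := g.add_one (x - 1)
  rw [sub_add_cancel] at this
  linarith

theorem Hh.add_int (g : Hh) (x : ℝ) (n : ℤ) : g • (x + n) = g • x + n := by
  induction n using Int.induction_on with
  | zero => simp
  | succ i ih => push_cast at ih ⊢; rw [← add_assoc, g.add_one, ih, add_assoc]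
  | pred i ih => push_cast at ih ⊢; rw [← add_sub_assoc, g.sub_one, ih, add_sub_assoc]

theorem Hh.sub_int (g : Hh) (x : ℝ) (n : ℤ) : g • (x - n) = g • x - n := by
  have := g.add_int x (-n)
  push_cast at this
  rw [sub_eq_add_neg, this, sub_eq_add_neg]

theorem exists_hh (f : ℝ → ℝ) (h1 : StrictMono f) (h2 : Function.Surjective f)
    (h3 : ∀ x, f (x + 1) = f x + 1) : ∃ g : Hh, ∀ x : ℝ, g • x = f x :=
  ⟨⟨h1.orderIsoOfSurjective f h2, h3⟩, fun _ => rfl⟩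

/-- Translations. -/
noncomputable def tr (r : ℝ) : Hh := ⟨OrderIso.addRight r, fun x => by
  change x + 1 + r = x + r + 1
  ring⟩

theorem tr_smul (r x : ℝ) : tr r • x = x + r := rfl

theorem tr_inv_smul (r x : ℝ) : (tr r)⁻¹ • x = x - r := by
  rw [inv_smul_eq_iff, tr_smul, sub_add_cancel]

theorem tr_one_comm (g : Hh) : Commute (tr 1) g :=
  Hh.ext fun x => by rw [mul_smul, mul_smul, tr_smul, tr_smul, g.add_one]

theorem tr_one_zpow (n : ℤ) (x : ℝ) : (tr 1 ^ n) • x = x + n := by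
  induction n using Int.induction_on generalizing x with
  | zero => simp
  | succ i ih => rw [zpow_add_one, mul_smul, ih, tr_smul]; push_cast; ring
  | pred i ih => rw [zpow_sub_one, mul_smul, ih, tr_inv_smul]; push_cast; ring

/-- The periodic open set over an interval. -/
def arc (α β : ℝ) : Set ℝ := {x | ∃ n : ℤ, α + n < x ∧ x < β + n}

theorem smul_arc (g : Hh) (α β : ℝ) : g • arc α β = arc (g • α) (g • β) := by
  ext x
  rw [Set.mem_smul_set_iff_inv_smul_mem]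
  refine exists_congr fun n => ?_
  rw [← g.add_int, ← g.add_int, ← g.lt_iff, ← g.lt_iff (x := g⁻¹ • x), smul_inv_smul]

theorem arc_mono {α β γ δ : ℝ} (h1 : α ≤ γ) (h2 : δ ≤ β) : arc γ δ ⊆ arc α β := by
  rintro x ⟨n, a, b⟩
  exact ⟨n, by linarith, by linarith⟩

theorem arc_add_one (α β : ℝ) : arc (α + 1) (β + 1) = arc α β := by
  ext x
  constructor
  · rintro ⟨n, a, b⟩
    exact ⟨n + 1, by push_cast; linarith, by push_cast; linarith⟩
  · rintro ⟨n, a, b⟩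
    exact ⟨n - 1, by push_cast; linarith, by push_cast; linarith⟩

theorem arc_mono' {α β γ δ : ℝ} (h1 : α ≤ γ + 1) (h2 : δ + 1 ≤ β) : arc γ δ ⊆ arc α β := by
  rw [← arc_add_one γ δ]
  exact arc_mono h1 h2

theorem arc_disjoint {α β γ δ : ℝ} (h1 : β ≤ γ) (h2 : δ ≤ α + 1) :
    Disjoint (arc α β) (arc γ δ) := by
  rw [Set.disjoint_left]
  rintro x ⟨n, a, b⟩ ⟨m, c, d⟩
  have e1 : (m : ℝ) < n := by linarith
  have e2 : (n : ℝ) < (m + 1 : ℤ) := by push_cast; linarith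
  have e1' : m < n := by exact_mod_cast e1
  have e2' : n < m + 1 := by exact_mod_cast e2
  omega

theorem not_mem_arc {α β x : ℝ} (h1 : β ≤ x) (h2 : x ≤ α + 1) : x ∉ arc α β := by
  rintro ⟨n, a, b⟩
  have e1 : ((0 : ℤ) : ℝ) < n := by push_cast; linarith
  have e2 : (n : ℝ) < (1 : ℤ) := by push_cast; linarith
  have e1' : 0 < n := by exact_mod_cast e1
  have e2' : n < 1 := by exact_mod_cast e2
  omega

theorem not_mem_arc' {α β x : ℝ} (h1 : β ≤ x + 1) (h2 : x ≤ α) : x ∉ arc α β := by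
  rintro ⟨n, a, b⟩
  have e1 : ((-1 : ℤ) : ℝ) < n := by push_cast; linarith
  have e2 : (n : ℝ) < (0 : ℤ) := by push_cast; linarith
  have e1' : -1 < n := by exact_mod_cast e1
  have e2' : n < 0 := by exact_mod_cast e2
  omega

theorem eq_on_arc {g h : Hh} {α β : ℝ} (e : ∀ x, α ≤ x → x ≤ β → g • x = h • x) :
    ∀ x ∈ arc α β, g • x = h • x := by
  rintro x ⟨n, a, b⟩
  have := e (x - n) (by linarith) (by linarith)
  rw [g.sub_int, h.sub_int] at this
  linarith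

/-- `g` is supported in `A`. -/
def Supp (g : Hh) (A : Set ℝ) : Prop := ∀ x, x ∉ A → g • x = x

theorem supp_arc {g : Hh} {α β : ℝ} (e : ∀ x, β ≤ x → x ≤ α + 1 → g • x = x) :
    Supp g (arc α β) := by
  intro x hx
  have a1 := Int.ceil_lt_add_one (x - α - 1)
  have a2 := Int.le_ceil (x - α - 1)
  have a3 : β + ⌈x - α - 1⌉ ≤ x := by
    by_contra h
    exact hx ⟨⌈x - α - 1⌉, by linarith, not_le.1 h⟩
  have := e (x - ⌈x - α - 1⌉) (by linarith) (by linarith)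
  rw [g.sub_int] at this
  linarith only [this]

theorem Supp.mono {g : Hh} {A B : Set ℝ} (h : Supp g A) (hAB : A ⊆ B) : Supp g B :=
  fun x hx => h x fun h' => hx (hAB h')

theorem supp_one (A : Set ℝ) : Supp 1 A := fun x _ => one_smul _ x

theorem Supp.mul {g k : Hh} {A : Set ℝ} (h : Supp g A) (h' : Supp k A) : Supp (g * k) A :=
  fun x hx => by rw [mul_smul, h' x hx, h x hx]

theorem Supp.inv {g : Hh} {A : Set ℝ} (h : Supp g A) : Supp g⁻¹ A :=
  fun x hx => by rw [inv_smul_eq_iff, h x hx]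

theorem Supp.pow {g : Hh} {A : Set ℝ} (h : Supp g A) (n : ℕ) : Supp (g ^ n) A := by
  induction n with
  | zero => rw [pow_zero]; exact supp_one A
  | succ n ih => rw [pow_succ]; exact ih.mul h

theorem Supp.zpow {g : Hh} {A : Set ℝ} (h : Supp g A) (n : ℤ) : Supp (g ^ n) A := by
  obtain ⟨n, rfl | rfl⟩ := n.eq_nat_or_neg
  · rw [zpow_natCast]; exact h.pow n
  · rw [zpow_neg, zpow_natCast]; exact (h.pow n).inv

theorem Supp.mem {g : Hh} {A : Set ℝ} (h : Supp g A) {x : ℝ} (hx : x ∈ A) : g • x ∈ A := by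
  by_contra h'
  have := h _ h'
  rw [smul_left_cancel_iff] at this
  exact h' (this.symm ▸ hx)

theorem Supp.smul_eq {g : Hh} {A B : Set ℝ} (h : Supp g A) (hAB : A ⊆ B) : g • B = B := by
  ext x
  rw [Set.mem_smul_set_iff_inv_smul_mem]
  refine ⟨fun hx => ?_, fun hx => (h.mono hAB).inv.mem hx⟩
  have := (h.mono hAB).mem hx
  rwa [smul_inv_smul] at this

theorem Supp.conj {k : Hh} {A : Set ℝ} (h : Supp k A) (g : Hh) : Supp (g * k * g⁻¹) (g • A) := by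
  intro x hx
  rw [Set.mem_smul_set_iff_inv_smul_mem] at hx
  rw [mul_smul, mul_smul, h _ hx, smul_inv_smul]

theorem Supp.commute_of_fix {k g : Hh} {A : Set ℝ} (h : Supp k A) (e : ∀ x ∈ A, g • x = x) :
    Commute g k := by
  refine Hh.ext fun x => ?_
  rw [mul_smul, mul_smul]
  by_cases hx : x ∈ A
  · rw [e _ (h.mem hx), e _ hx]
  · rw [h x hx, h]
    intro h'
    have := e _ h'
    rw [smul_left_cancel_iff] at this
    exact hx (this ▸ h')

theorem Supp.commute {k g : Hh} {A B : Set ℝ} (h : Supp k A) (h' : Supp g B)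
    (d : Disjoint A B) : Commute g k :=
  h.commute_of_fix fun x hx => h' x (Set.disjoint_left.1 d hx)

theorem Supp.conj_congr {k g g' : Hh} {A : Set ℝ} (h : Supp k A) (e : ∀ x ∈ A, g • x = g' • x) :
    g * k * g⁻¹ = g' * k * g'⁻¹ := by
  have c : Commute (g'⁻¹ * g) k := h.commute_of_fix fun x hx => by
    rw [mul_smul, e x hx, inv_smul_smul]
  calc g * k * g⁻¹ = g' * ((g'⁻¹ * g) * k) * g⁻¹ := by group
    _ = g' * k * g'⁻¹ := by rw [c.eq]; group

/-- `θ` is the product of the family `γ` with supports in the sets `I i`. -/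
def IsGlue {ι : Type} (I : ι → Set ℝ) (γ : ι → Hh) (θ : Hh) : Prop :=
  (∀ i, ∀ x ∈ I i, θ • x = γ i • x) ∧ Supp θ (⋃ i, I i)

theorem IsGlue.unique {ι : Type} {I : ι → Set ℝ} {γ : ι → Hh} {θ θ' : Hh} (h : IsGlue I γ θ)
    (h' : IsGlue I γ θ') : θ = θ' := by
  refine Hh.ext fun x => ?_
  by_cases hx : x ∈ ⋃ i, I i
  · obtain ⟨i, hi⟩ := Set.mem_iUnion.1 hx
    rw [h.1 i x hi, h'.1 i x hi]
  · rw [h.2 x hx, h'.2 x hx]

theorem exists_glue {ι : Type} {I : ι → Set ℝ} (hI : Pairwise fun i j => Disjoint (I i) (I j))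
    {γ : ι → Hh} (hγ : ∀ i, Supp (γ i) (I i)) : ∃ θ, IsGlue I γ θ := by
  classical
  let f : ℝ → ℝ := fun x => if h : ∃ i, x ∈ I i then γ h.choose • x else x
  have f1 : ∀ i, ∀ x ∈ I i, f x = γ i • x := by
    intro i x hx
    have h : ∃ i, x ∈ I i := ⟨i, hx⟩
    have : h.choose = i := by
      by_contra hne
      exact Set.disjoint_left.1 (hI hne) h.choose_spec hx
    simp only [f, dif_pos h, this]
  have f2 : ∀ x, (¬ ∃ i, x ∈ I i) → f x = x := fun x hx => dif_neg hx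
  have f3 : ∀ i x, γ i • x ≠ x → f x = γ i • x := fun i x h =>
    f1 i x (by by_contra h'; exact h (hγ i x h'))
  have f4 : ∀ x, (∀ i, γ i • x = x) → f x = x := by
    intro x h
    by_cases hx : ∃ i, x ∈ I i
    · obtain ⟨i, hi⟩ := hx
      rw [f1 i x hi, h]
    · exact f2 x hx
  refine (exists_hh f ?_ ?_ ?_).elim fun θ hθ => ?_
  rotate_right
  · exact ⟨θ, fun i x hx => by rw [hθ, f1 i x hx],
      fun x hx => by rw [hθ, f2 x (by simpa using hx)]⟩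
  · intro x y hxy
    by_cases hx : ∃ i, x ∈ I i
    · obtain ⟨i, hi⟩ := hx
      rw [f1 i x hi]
      by_cases hyi : y ∈ I i
      · rw [f1 i y hyi]
        exact (γ i).lt hxy
      · have a1 : γ i • x < y := by
          have := (γ i).lt hxy
          rwa [hγ i y hyi] at this
        by_cases hy : ∃ j, y ∈ I j
        · obtain ⟨j, hj⟩ := hy
          have hij : i ≠ j := fun e => hyi (e ▸ hj)
          have := (γ j).lt a1
          rwa [hγ j _ (Set.disjoint_left.1 (hI hij) ((hγ i).mem hi)), ← f1 j y hj] at this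
        · rwa [f2 y hy]
    · rw [f2 x hx]
      by_cases hy : ∃ j, y ∈ I j
      · obtain ⟨j, hj⟩ := hy
        have := (γ j).lt hxy
        rwa [hγ j x fun h => hx ⟨j, h⟩, ← f1 j y hj] at this
      · rwa [f2 y hy]
  · intro y
    by_cases hy : ∃ j, y ∈ I j
    · obtain ⟨j, hj⟩ := hy
      exact ⟨(γ j)⁻¹ • y, by rw [f1 j _ ((hγ j).inv.mem hj), smul_inv_smul]⟩
    · exact ⟨y, f2 y hy⟩
  · intro x
    by_cases h : ∀ i, γ i • x = x
    · rw [f4 x h, f4 (x + 1) fun i => by rw [Hh.add_one, h]]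
    · obtain ⟨i, hi⟩ := not_forall.1 h
      rw [f3 i x hi, f3 i (x + 1) (by rw [Hh.add_one]; simpa using hi), Hh.add_one]

theorem IsGlue.mul {ι : Type} {I : ι → Set ℝ} {γ γ' : ι → Hh} {θ θ' : Hh} (h : IsGlue I γ θ)
    (h' : IsGlue I γ' θ') (hγ : ∀ i, Supp (γ' i) (I i)) :
    IsGlue I (fun i => γ i * γ' i) (θ * θ') :=
  ⟨fun i x hx => by rw [mul_smul, mul_smul, h'.1 i x hx, h.1 i _ ((hγ i).mem hx)], h.2.mul h'.2⟩

theorem IsGlue.inv {ι : Type} {I : ι → Set ℝ} {γ : ι → Hh} {θ : Hh} (h : IsGlue I γ θ)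
    (hγ : ∀ i, Supp (γ i) (I i)) : IsGlue I (fun i => (γ i)⁻¹) θ⁻¹ :=
  ⟨fun i x hx => by rw [inv_smul_eq_iff, h.1 i _ ((hγ i).inv.mem hx), smul_inv_smul], h.2.inv⟩

theorem isGlue_one {ι : Type} (I : ι → Set ℝ) : IsGlue I (fun _ => 1) 1 :=
  ⟨fun _ _ _ => rfl, supp_one _⟩

theorem IsGlue.conj {ι : Type} {I : ι → Set ℝ} {γ γ' : ι → Hh} {θ : Hh} (h : IsGlue I γ θ)
    (g : Hh) (e : ι ≃ ι) (h1 : ∀ i, g • I i = I (e i)) (h2 : ∀ i, γ' (e i) = g * γ i * g⁻¹) :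
    IsGlue I γ' (g * θ * g⁻¹) := by
  constructor
  · intro i x hx
    obtain ⟨i, rfl⟩ := e.surjective i
    rw [← h1, Set.mem_smul_set_iff_inv_smul_mem] at hx
    rw [h2, mul_smul, mul_smul, h.1 i _ hx, mul_smul, mul_smul]
  · refine (h.2.conj g).mono ?_
    rw [Set.smul_set_iUnion]
    refine Set.iUnion_subset fun i => ?_
    rw [h1]
    exact Set.subset_iUnion I _

theorem isGlue_single {ι : Type} [DecidableEq ι] {I : ι → Set ℝ}
    (hI : Pairwise fun i j => Disjoint (I i) (I j)) {i : ι} {g : Hh} (hg : Supp g (I i)) :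
    IsGlue I (Pi.mulSingle i g) g := by
  refine ⟨fun j x hx => ?_, hg.mono (Set.subset_iUnion I i)⟩
  by_cases h : j = i
  · subst h
    rw [Pi.mulSingle_eq_same]
  · rw [Pi.mulSingle_eq_of_ne h, one_smul, hg x (Set.disjoint_left.1 (hI h) hx)]

theorem IsGlue.mem {ι : Type} {I : ι → Set ℝ} (hI : Pairwise fun i j => Disjoint (I i) (I j))
    {T : Subgroup Hh} (J : Finset ι) {γ : ι → Hh} (hγ : ∀ i, Supp (γ i) (I i))
    (hT : ∀ i, γ i ∈ T) (hJ : ∀ i, i ∉ J → γ i = 1) {θ : Hh} (h : IsGlue I γ θ) : θ ∈ T := by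
  classical
  induction J using Finset.induction_on generalizing γ θ with
  | empty =>
    have : γ = fun _ => 1 := funext fun i => hJ i (by simp)
    subst this
    rw [h.unique (isGlue_one I)]
    exact T.one_mem
  | insert i J hi ih =>
    have hs : ∀ j, Supp (Function.update γ i 1 j) (I j) := fun j => by
      by_cases e : j = i
      · subst e; rw [Function.update_self]; exact supp_one _
      · rw [Function.update_of_ne e]; exact hγ j
    obtain ⟨θ', h'⟩ := exists_glue hI hs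
    have m := ih hs (fun j => by
      by_cases e : j = i
      · subst e; rw [Function.update_self]; exact T.one_mem
      · rw [Function.update_of_ne e]; exact hT j) (fun j hj => by
      by_cases e : j = i
      · subst e; rw [Function.update_self]
      · rw [Function.update_of_ne e]; exact hJ j (by simp [e, hj])) h'
    have := (isGlue_single hI (hγ i)).mul h' hs
    have e : (fun j => (Pi.mulSingle i (γ i) : ι → Hh) j * Function.update γ i 1 j) = γ := by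
      funext j
      by_cases e : j = i
      · subst e; simp
      · simp [e]
    rw [e] at this
    rw [h.unique this]
    exact T.mul_mem (hT i) m

/-- `f` is an increasing bijection from `[a, b]` onto `[c, d]`. -/
def Piece (a b c d : ℝ) (f : ℝ → ℝ) : Prop :=
  a ≤ b ∧ StrictMonoOn f (Set.Icc a b) ∧ f a = c ∧ f b = d ∧
    Set.SurjOn f (Set.Icc a b) (Set.Icc c d)

theorem piece_hh (g : Hh) {a b : ℝ} (h : a ≤ b) : Piece a b (g • a) (g • b) (fun x => g • x) :=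
  ⟨h, fun _ _ _ _ h => g.lt h, rfl, rfl, fun y hy => ⟨g⁻¹ • y,
    ⟨by rw [← g.le_iff, smul_inv_smul]; exact hy.1, by rw [← g.le_iff, smul_inv_smul]; exact hy.2⟩,
    smul_inv_smul g y⟩⟩

theorem piece_id {a b : ℝ} (h : a ≤ b) : Piece a b a b (fun x => x) := piece_hh 1 h

theorem piece_affine {a b c d : ℝ} (h : a < b) (h' : c < d) : ∃ f, Piece a b c d f := by
  have h1 : 0 < b - a := sub_pos.2 h
  have h2 : 0 < d - c := sub_pos.2 h'
  refine ⟨fun x => c + (x - a) * ((d - c) / (b - a)), h.le, fun x _ y _ hxy => ?_, by simp, ?_,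
    fun y hy => ⟨a + (y - c) * ((b - a) / (d - c)), ⟨?_, ?_⟩, ?_⟩⟩
  · have : 0 < (d - c) / (b - a) := by positivity
    simp only
    linarith only [hxy, this, mul_pos_of_neg_of_neg (Mathlib.Tactic.Linarith.sub_neg_of_lt hxy) (Mathlib.Tactic.Linarith.sub_neg_of_lt this)]
  · simp only
    field_simp
    ring
  · have : 0 ≤ (y - c) * ((b - a) / (d - c)) := mul_nonneg (sub_nonneg.2 hy.1) (by positivity)
    linarith only [this]
  · have : (y - c) * ((b - a) / (d - c)) ≤ (d - c) * ((b - a) / (d - c)) :=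
      mul_le_mul_of_nonneg_right (by linarith [hy.2]) (by positivity)
    rw [mul_div_cancel₀ _ h2.ne'] at this
    linarith only [this]
  · simp only
    field_simp
    ring

theorem Piece.concat {a b c d e e' : ℝ} {f g : ℝ → ℝ} (h : Piece a b c d f)
    (h' : Piece b e d e' g) : ∃ k, Piece a e c e' k ∧ (∀ x, x ≤ b → k x = f x) ∧
      ∀ x, b ≤ x → k x = g x := by
  obtain ⟨h1, h2, h3, h4, h5⟩ := h
  obtain ⟨h1', h2', h3', h4', h5'⟩ := h'
  have k1 : ∀ x, x ≤ b → (if x ≤ b then f x else g x) = f x := fun x hx => if_pos hx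
  have k2 : ∀ x, b ≤ x → (if x ≤ b then f x else g x) = g x := fun x hx => by
    split_ifs with h
    · rw [le_antisymm h hx, h4, h3']
    · rfl
  refine ⟨fun x => if x ≤ b then f x else g x, ⟨h1.trans h1', ?_, ?_, ?_, ?_⟩, k1, k2⟩
  · rw [← Set.Icc_union_Icc_eq_Icc h1 h1']
    refine StrictMonoOn.union (c := b) (h2.congr fun x hx => (k1 x hx.2).symm)
      (h2'.congr fun x hx => (k2 x hx.1).symm) (isGreatest_Icc h1) (isLeast_Icc h1')
  · exact (k1 a h1).trans h3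
  · exact (k2 e h1').trans h4'
  · intro y hy
    rcases le_total y d with h | h
    · obtain ⟨x, hx, e⟩ := h5 ⟨hy.1, h⟩
      exact ⟨x, ⟨hx.1, hx.2.trans h1'⟩, (k1 x hx.2).trans e⟩
    · obtain ⟨x, hx, e⟩ := h5' ⟨h, hy.2⟩
      exact ⟨x, ⟨h1.trans hx.1, hx.2⟩, (k2 x hx.1).trans e⟩

theorem Piece.periodize {α : ℝ} {f : ℝ → ℝ} (h : Piece α (α + 1) α (α + 1) f) :
    ∃ g : Hh, ∀ x, α ≤ x → x ≤ α + 1 → g • x = f x := by
  obtain ⟨h1, h2, h3, h4, h5⟩ := h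
  have m : ∀ x : ℝ, α ≤ x - ⌊x - α⌋ ∧ x - ⌊x - α⌋ < α + 1 := fun x =>
    ⟨by linarith [Int.floor_le (x - α)], by linarith [Int.lt_floor_add_one (x - α)]⟩
  have b : ∀ x, α ≤ x → x < α + 1 → α ≤ f x ∧ f x < α + 1 := fun x a b =>
    ⟨by simpa [h3] using h2.monotoneOn ⟨le_rfl, h1⟩ ⟨a, b.le⟩ a,
      by simpa [h4] using h2 ⟨a, b.le⟩ ⟨h1, le_rfl⟩ b⟩
  have fl : ∀ (x : ℝ) (n : ℤ), α ≤ x → x < α + 1 → ⌊x + n - α⌋ = n := fun x n a b =>
    Int.floor_eq_iff.2 ⟨by linarith, by linarith⟩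
  refine (exists_hh (fun x => f (x - ⌊x - α⌋) + ⌊x - α⌋) ?_ ?_ ?_).elim fun g hg => ?_
  rotate_right
  · refine ⟨g, fun x a b => ?_⟩
    rw [hg]
    rcases b.eq_or_lt with rfl | b
    · have := fl α 1 le_rfl (by linarith)
      push_cast at this
      rw [this]
      simp [h3, h4]
    · have := fl x 0 a b
      push_cast at this
      rw [add_zero] at this
      simp [this]
  · intro x y hxy
    have hle : ⌊x - α⌋ ≤ ⌊y - α⌋ := Int.floor_le_floor (by linarith)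
    simp only
    rcases hle.eq_or_lt with e | e
    · have := h2 ⟨(m x).1, (m x).2.le⟩ ⟨(m y).1, (m y).2.le⟩ (by rw [e]; linarith)
      rw [← e] at this ⊢
      linarith
    · have e' : ((⌊x - α⌋ + 1 : ℤ) : ℝ) ≤ ⌊y - α⌋ := by exact_mod_cast e
      push_cast at e'
      have := (b _ (m x).1 (m x).2).2
      have := (b _ (m y).1 (m y).2).1
      linarith
  · intro y
    obtain ⟨x, hx, e⟩ := h5 ⟨(m y).1, (m y).2.le⟩
    have hx' : x < α + 1 := by
      refine lt_of_le_of_ne hx.2 fun h => ?_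
      have := (m y).2
      rw [← e, h, h4] at this
      exact lt_irrefl _ this
    refine ⟨x + ⌊y - α⌋, ?_⟩
    simp only
    rw [fl x _ hx.1 hx', add_sub_cancel_right, e, sub_add_cancel]
  · intro x
    rw [show x + 1 - α = x - α + 1 by ring, Int.floor_add_one]
    push_cast
    rw [show x + 1 - (⌊x - α⌋ + 1) = x - ⌊x - α⌋ by ring, add_assoc]

theorem exists_move {α β y y' : ℝ} (h1 : α < y) (h2 : y < β) (h3 : α < y') (h4 : y' < β)
    (h5 : β ≤ α + 1) : ∃ w : Hh, Supp w (arc α β) ∧ w • y = y' := by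
  obtain ⟨f, hf⟩ := piece_affine h1 h3
  obtain ⟨g, hg⟩ := piece_affine h2 h4
  obtain ⟨k, hk, k1, -⟩ := hf.concat hg
  obtain ⟨l, hl, l1, l2⟩ := hk.concat (piece_id h5)
  obtain ⟨w, hw⟩ := hl.periodize
  refine ⟨w, supp_arc fun x a b => ?_, ?_⟩
  · rw [hw x (by linarith) b, l2 x a]
  · rw [hw y h1.le (by linarith), l1 y h2.le, k1 y le_rfl, hf.2.2.2.1]

theorem exists_cut {k : Hh} {α t : ℝ} (h1 : k • α = α) (h2 : k • t = t) (h3 : α ≤ t)
    (h4 : t ≤ α + 1) : ∃ k' : Hh, Supp k' (arc α t) ∧ ∀ x, α ≤ x → x ≤ t → k' • x = k • x := by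
  have := piece_hh k h3
  rw [h1, h2] at this
  obtain ⟨l, hl, l1, l2⟩ := this.concat (piece_id h4)
  obtain ⟨w, hw⟩ := hl.periodize
  refine ⟨w, supp_arc fun x a b => ?_, fun x a b => ?_⟩
  · rw [hw x (by linarith) b, l2 x a]
  · rw [hw x a (by linarith), l1 x b]

theorem exists_two {x₁ x₂ y₁ y₂ : ℝ} (h1 : x₁ < x₂) (h2 : x₂ < x₁ + 1) (h3 : y₁ < y₂)
    (h4 : y₂ < y₁ + 1) : ∃ g : Hh, g • x₁ = y₁ ∧ g • x₂ = y₂ := by
  obtain ⟨w, hw, e⟩ := exists_move (α := y₁) (β := y₁ + 1) (y := x₂ + (y₁ - x₁)) (y' := y₂)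
    (by linarith) (by linarith) h3 h4 le_rfl
  refine ⟨w * tr (y₁ - x₁), ?_, by rw [mul_smul, tr_smul, e]⟩
  rw [mul_smul, tr_smul, add_sub_cancel]
  exact hw _ (not_mem_arc' le_rfl le_rfl)

theorem exists_ext (g : Hh) {α β s t : ℝ} (h1 : α < s) (h2 : s < t) (h3 : t < β)
    (h4 : α < g • s) (h5 : g • t < β) (h6 : β ≤ α + 1) :
    ∃ h : Hh, Supp h (arc α β) ∧ ∀ x, s ≤ x → x ≤ t → h • x = g • x := by
  have gst := g.lt h2
  obtain ⟨w₁, hw₁, e₁⟩ := exists_move (y := g • t) (y' := t) (h4.trans gst) h5 (h1.trans h2) h3 h6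
  have fα : w₁ • α = α := hw₁ _ (not_mem_arc' h6 le_rfl)
  obtain ⟨w₂, hw₂, e₂⟩ := exists_move (α := α) (β := t) (y := w₁ • g • s) (y' := s)
    (by rw [← fα]; exact w₁.lt (by rw [fα] at *; exact h4)) (by rw [← e₁]; exact w₁.lt gst) h1 h2
    (by linarith)
  obtain ⟨k, hk, e⟩ := exists_cut (k := w₂ * w₁ * g) (α := s) (t := t)
    (by rw [mul_smul, mul_smul, e₂])
    (by rw [mul_smul, mul_smul, e₁]; exact hw₂ _ (not_mem_arc le_rfl (by linarith))) h2.le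
    (by linarith)
  refine ⟨(w₂ * w₁)⁻¹ * k, ((hw₂.mono (arc_mono le_rfl h3.le)).mul hw₁).inv.mul
    (hk.mono (arc_mono h1.le h3.le)), fun x a b => ?_⟩
  rw [mul_smul, e x a b, mul_smul, inv_smul_smul]

theorem pairwise_arc {g : Hh} {p α : ℝ} (hp : p < g • p)
    (h : ∀ n : ℤ, α ≤ (g ^ n) • p ∧ (g ^ n) • p ≤ α + 1) :
    Pairwise fun i j : ℤ => Disjoint ((g ^ i) • arc p (g • p)) ((g ^ j) • arc p (g • p)) := by
  have m : Monotone fun n : ℤ => (g ^ n) • p := by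
    refine monotone_int_of_le_succ fun n => ?_
    rw [zpow_add_one, mul_smul]
    exact (g ^ n).le hp.le
  have key : ∀ i j : ℤ, i < j →
      Disjoint ((g ^ i) • arc p (g • p)) ((g ^ j) • arc p (g • p)) := by
    intro i j hij
    rw [smul_arc, smul_arc, ← mul_smul, ← mul_smul, ← zpow_add_one, ← zpow_add_one]
    exact arc_disjoint (m (by omega)) (by linarith [(h i).1, (h (j + 1)).2])
  intro i j hij
  rcases lt_or_gt_of_ne hij with h | h
  · exact key i j h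
  · exact (key j i h).symm

end Pool.Agent.Work.MP_913c95_al
end

-- merged part: Pool.Agent.Work.MP_913c95_al.Frag
section
/-!
Fragmentation, the commutator trick and the encoding of a sequence in the powers of one element.
-/

namespace Pool.Agent.Work.MP_913c95_al

open scoped Pointwise commutatorElement

theorem Supp.zpow_mem {g : Hh} {α β p : ℝ} (h : Supp g (arc α β)) (h0 : β ≤ α + 1)
    (h1 : α < p) (h2 : p < β) (n : ℤ) : α < (g ^ n) • p ∧ (g ^ n) • p < β := by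
  have a := (g ^ n).lt h1
  have b := (g ^ n).lt h2
  rw [h.zpow n α (not_mem_arc' h0 le_rfl)] at a
  rw [h.zpow n β (not_mem_arc le_rfl h0)] at b
  exact ⟨a, b⟩

theorem Supp.pairwise {g : Hh} {α β p : ℝ} (h : Supp g (arc α β)) (h0 : β ≤ α + 1)
    (h1 : α < p) (h2 : p < β) (hp : p < g • p) :
    Pairwise fun i j : ℤ => Disjoint ((g ^ i) • arc p (g • p)) ((g ^ j) • arc p (g • p)) :=
  pairwise_arc (α := α) hp fun n =>
    ⟨(h.zpow_mem h0 h1 h2 n).1.le, (h.zpow_mem h0 h1 h2 n).2.le.trans h0⟩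

/-- Elements which are the identity on one of two fixed arcs. -/
def Good (g : Hh) : Prop :=
  Supp g (arc (23 / 40) (62 / 40)) ∨ Supp g (arc (4 / 40) (42 / 40))

theorem Good.inv {g : Hh} (h : Good g) : Good g⁻¹ := h.imp Supp.inv Supp.inv

/-- The normalisation of lifts. -/
def Win (g : Hh) : Prop := -30 / 40 ≤ g • (0 : ℝ) ∧ g • (0 : ℝ) < 10 / 40

theorem frag {g : Hh} (h : Win g) :
    ∃ p₁ p₂ p₃ p₄ : Hh, Good p₁ ∧ Good p₂ ∧ Good p₃ ∧ Good p₄ ∧ g = p₁ * p₂ * p₃ * p₄ := by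
  obtain ⟨h1, h2⟩ := h
  obtain ⟨w₁, g₁, e₁⟩ : ∃ w : Hh, Good w ∧ w • g • (0 : ℝ) = 0 := by
    rcases lt_or_ge (-17 / 40) (g • (0 : ℝ)) with h | h
    · obtain ⟨w, hw, e⟩ := exists_move (α := -17 / 40) (β := 22 / 40) (y := g • (0 : ℝ)) (y' := 0)
        h (by linarith only [h2]) (by norm_num) (by norm_num) (by norm_num)
      exact ⟨w, Or.inl (hw.mono (arc_mono' (by norm_num) (by norm_num))), e⟩
    · obtain ⟨w, hw, e⟩ := exists_move (α := -36 / 40) (β := 2 / 40) (y := g • (0 : ℝ)) (y' := 0)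
        (by linarith only [h1]) (by linarith only [h2, h]) (by norm_num) (by norm_num) (by norm_num)
      exact ⟨w, Or.inr (hw.mono (arc_mono' (by norm_num) (by norm_num))), e⟩
  rw [← mul_smul] at e₁
  have a1 := (w₁ * g).lt (show (0 : ℝ) < 10 / 40 by norm_num)
  have a2 := (w₁ * g).lt (show (10 / 40 : ℝ) < 0 + 1 by norm_num)
  rw [Hh.add_one] at a2
  rw [e₁] at a1 a2
  obtain ⟨w₂, g₂, e₂, e₃⟩ : ∃ w : Hh, Good w ∧ w • (0 : ℝ) = 0 ∧
      w • (w₁ * g) • (10 / 40 : ℝ) = 10 / 40 := by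
    rcases lt_or_ge ((w₁ * g) • (10 / 40 : ℝ)) (22 / 40) with h | h
    · obtain ⟨w, hw, e⟩ := exists_move (α := 0) (β := 22 / 40) (y' := 10 / 40)
        a1 h (by norm_num) (by norm_num) (by norm_num)
      exact ⟨w, Or.inl (hw.mono (arc_mono' (by norm_num) (by norm_num))),
        hw _ (not_mem_arc' (by norm_num) le_rfl), e⟩
    · obtain ⟨w, hw, e⟩ := exists_move (α := 4 / 40) (β := 0 + 1)
        (y := (w₁ * g) • (10 / 40 : ℝ)) (y' := 10 / 40)
        (by linarith only [a2, h]) a2 (by norm_num) (by norm_num) (by norm_num)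
      exact ⟨w, Or.inr (hw.mono (arc_mono (by norm_num) (by norm_num))),
        hw _ (not_mem_arc' (by norm_num) (by norm_num)), e⟩
  obtain ⟨k, hk, e⟩ := exists_cut (k := w₂ * (w₁ * g)) (α := 0) (t := 10 / 40)
    (by rw [mul_smul, e₁, e₂]) (by rw [mul_smul, e₃]) (by norm_num) (by norm_num)
  refine ⟨w₁⁻¹, w₂⁻¹, k, k⁻¹ * (w₂ * (w₁ * g)), g₁.inv, g₂.inv,
    Or.inl (hk.mono (arc_mono' (by norm_num) (by norm_num))), Or.inr ?_, by group⟩
  refine (supp_arc (α := 10 / 40) (β := 1) fun x a b => ?_).mono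
    (arc_mono (by norm_num) (by norm_num))
  have := e (x - 1) (by linarith only [a]) (by linarith only [b])
  rw [Hh.sub_one, Hh.sub_one, sub_left_inj] at this
  rw [mul_smul, ← this, inv_smul_smul]

theorem exists_win (g : Hh) : ∃ n : ℤ, Win ((tr 1 ^ n)⁻¹ * g) := by
  refine ⟨⌊g • (0 : ℝ) + 30 / 40⌋, ?_⟩
  unfold Win
  rw [mul_smul, ← zpow_neg, tr_one_zpow]
  push_cast
  constructor
  · linarith only [Int.floor_le (g • (0 : ℝ) + 30 / 40)]
  · linarith only [Int.lt_floor_add_one (g • (0 : ℝ) + 30 / 40)]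

theorem win_half : Win (tr (1 / 2))⁻¹ := by
  unfold Win
  rw [tr_inv_smul]
  norm_num

theorem tr_one_eq : tr 1 = tr (1 / 2) * tr (1 / 2) :=
  Hh.ext fun x => by simp only [mul_smul, tr_smul]; ring

theorem closure_win {T : Subgroup Hh} (h : tr (1 / 2) ∈ T) :
    Subgroup.closure {s | s ∈ T ∧ Win s} = T := by
  refine le_antisymm ((Subgroup.closure_le _).2 fun s hs => hs.1) fun g hg => ?_
  have h1 : tr (1 / 2) ∈ Subgroup.closure {s | s ∈ T ∧ Win s} :=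
    (Subgroup.inv_mem_iff _).1 (Subgroup.subset_closure ⟨T.inv_mem h, win_half⟩)
  have h2 : tr 1 ∈ T := tr_one_eq ▸ T.mul_mem h h
  obtain ⟨n, hn⟩ := exists_win g
  have h3 : (tr 1 ^ n)⁻¹ * g ∈ Subgroup.closure {s | s ∈ T ∧ Win s} :=
    Subgroup.subset_closure ⟨T.mul_mem (T.inv_mem (T.zpow_mem h2 n)) hg, hn⟩
  have h4 : tr 1 ^ n ∈ Subgroup.closure {s | s ∈ T ∧ Win s} :=
    Subgroup.zpow_mem _ (tr_one_eq ▸ Subgroup.mul_mem _ h1 h1) n
  have := Subgroup.mul_mem _ h4 h3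
  rwa [mul_inv_cancel_left] at this

theorem closure_good : Subgroup.closure {g | Good g} = ⊤ := by
  rw [eq_top_iff, ← closure_win (T := ⊤) trivial, Subgroup.closure_le]
  rintro s ⟨-, hs⟩
  obtain ⟨p₁, p₂, p₃, p₄, h1, h2, h3, h4, rfl⟩ := frag hs
  exact Subgroup.mul_mem _ (Subgroup.mul_mem _ (Subgroup.mul_mem _ (Subgroup.subset_closure h1)
    (Subgroup.subset_closure h2)) (Subgroup.subset_closure h3)) (Subgroup.subset_closure h4)

theorem win_step {T : Subgroup Hh} (hT : tr 1 ∈ T) (s : Hh) (hs : s ∈ T ∧ Win s) (t : Hh)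
    (ht : t ∈ T ∧ Win t) : ∃ c ∈ ({1, tr 1, (tr 1)⁻¹} : Set Hh), ∃ r, (r ∈ T ∧ Win r) ∧
      t = s * (r * c) := by
  have m : s⁻¹ * t ∈ T := T.mul_mem (T.inv_mem hs.1) ht.1
  have a1 : (s⁻¹ * t) • (0 : ℝ) < 1 := by
    rw [mul_smul, ← s.lt_iff, smul_inv_smul, ← zero_add (1 : ℝ), s.add_one]
    linarith only [hs, ht, hs.2.1, ht.2.2]
  have a2 : -1 < (s⁻¹ * t) • (0 : ℝ) := by
    rw [mul_smul, ← s.lt_iff, smul_inv_smul, ← zero_sub (1 : ℝ), s.sub_one]
    linarith only [hs, ht, hs.2.2, ht.2.1]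
  rcases lt_or_ge ((s⁻¹ * t) • (0 : ℝ)) (-30 / 40) with h | h
  · refine ⟨(tr 1)⁻¹, by simp, s⁻¹ * t * tr 1, ⟨T.mul_mem m hT, ?_⟩, by group⟩
    unfold Win
    rw [mul_smul, tr_smul, Hh.add_one]
    constructor <;> linarith only [a2, h]
  rcases lt_or_ge ((s⁻¹ * t) • (0 : ℝ)) (10 / 40) with h' | h'
  · exact ⟨1, by simp, s⁻¹ * t, ⟨m, h, h'⟩, by group⟩
  · refine ⟨tr 1, by simp, s⁻¹ * t * (tr 1)⁻¹, ⟨T.mul_mem m (T.inv_mem hT), ?_⟩, by group⟩
    unfold Win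
    rw [mul_smul, tr_inv_smul, Hh.sub_one]
    constructor <;> linarith only [h', a1]

theorem exists_higman {g k : Hh} {A L : Set ℝ}
    (hA : Pairwise fun i j : ℤ => Disjoint ((g ^ i) • A) ((g ^ j) • A)) (hg : Supp g L)
    (hAL : A ⊆ L) (hk : Supp k A) : ∃ K : Hh, Supp K L ∧ k = K * g * K⁻¹ * g⁻¹ := by
  let γ : ℤ → ℤ → Hh := fun m j => if m ≤ j then g ^ j * k * (g ^ j)⁻¹ else 1
  have hγ : ∀ m j, Supp (γ m j) ((g ^ j) • A) := fun m j => by
    simp only [γ]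
    split_ifs
    · exact hk.conj _
    · exact supp_one _
  obtain ⟨K, hK⟩ := exists_glue hA (hγ 0)
  have h1 : IsGlue (fun j : ℤ => (g ^ j) • A) (γ 1) (g * K * g⁻¹) := by
    refine hK.conj g (Equiv.addRight 1) (fun i => ?_) fun i => ?_
    · change _ = (g ^ (i + 1)) • A
      rw [add_comm, zpow_one_add, mul_smul]
    · simp only [γ, Equiv.coe_addRight, le_add_iff_nonneg_left]
      split_ifs
      · group
      · group
  have h2 := (isGlue_single hA (i := 0) (g := k) (by simpa using hk)).mul h1 (hγ 1)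
  have e : (fun j => (Pi.mulSingle 0 k : ℤ → Hh) j * γ 1 j) = γ 0 := by
    funext j
    by_cases h : j = 0
    · subst h
      simp [γ]
    · simp only [γ, Pi.mulSingle_eq_of_ne h, one_mul]
      exact if_congr (by omega) rfl rfl
  rw [e] at h2
  refine ⟨K, hK.2.mono (Set.iUnion_subset fun j => ?_), ?_⟩
  · rw [← (hg.zpow j).smul_eq subset_rfl]
    exact Set.smul_set_mono hAL
  · have := hK.unique h2
    calc k = (k * (g * K * g⁻¹)) * (g * K⁻¹ * g⁻¹) := by group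
      _ = _ := by rw [← this]; group

theorem exists_encode {τ : Hh} {L J : Set ℝ}
    (hL : Pairwise fun i j : ℤ => Disjoint ((τ ^ i) • L) ((τ ^ j) • L)) (hτ : Supp τ J)
    (hLJ : L ⊆ J) (K : ℕ → Hh) (hK : ∀ n, Supp (K n) L) :
    ∃ σ : Hh, Supp σ J ∧ ∀ n : ℕ, ∀ x ∈ L,
      (σ ^ (n + 1 : ℤ)) • x = (τ ^ (n + 1 : ℤ) * K n) • x := by
  let γ : ℤ → Hh := fun j => if 1 ≤ j then τ ^ j * K (j - 1).toNat * (τ ^ j)⁻¹ else 1
  have hγ : ∀ j, Supp (γ j) ((τ ^ j) • L) := fun j => by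
    simp only [γ]
    split_ifs
    · exact (hK _).conj _
    · exact supp_one _
  obtain ⟨φ, hφ⟩ := exists_glue hL hγ
  have hφJ : Supp φ J := hφ.2.mono (Set.iUnion_subset fun j => by
    rw [← (hτ.zpow j).smul_eq subset_rfl]
    exact Set.smul_set_mono hLJ)
  refine ⟨φ * τ * φ⁻¹, (hφJ.mul hτ).mul hφJ.inv, fun n x hx => ?_⟩
  have e1 : φ⁻¹ • x = x := by
    rw [inv_smul_eq_iff, hφ.1 0 x (by simpa using hx)]
    simp [γ]
  rw [conj_zpow, mul_smul, mul_smul, e1, hφ.1 (n + 1) _ (Set.smul_mem_smul_set hx)]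
  simp only [γ]
  rw [if_pos (by omega), add_sub_cancel_right, Int.toNat_natCast, mul_smul, inv_smul_smul]

theorem exists_finite_closure {Γ : Type} [Group Γ] {S : Set Γ} {g : Γ}
    (hg : g ∈ Subgroup.closure S) : ∃ E : Set Γ, E.Finite ∧ E ⊆ S ∧ g ∈ Subgroup.closure E := by
  induction hg using Subgroup.closure_induction with
  | mem x hx => exact ⟨{x}, Set.finite_singleton x, by simpa using hx, Subgroup.subset_closure rfl⟩
  | one => exact ⟨∅, Set.finite_empty, Set.empty_subset _, Subgroup.one_mem _⟩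
  | mul x y _ _ hx hy =>
    obtain ⟨E, h1, h2, h3⟩ := hx
    obtain ⟨E', h1', h2', h3'⟩ := hy
    exact ⟨E ∪ E', h1.union h1', Set.union_subset h2 h2', Subgroup.mul_mem _
      (Subgroup.closure_mono Set.subset_union_left h3)
      (Subgroup.closure_mono Set.subset_union_right h3')⟩
  | inv x _ hx =>
    obtain ⟨E, h1, h2, h3⟩ := hx
    exact ⟨E, h1, h2, Subgroup.inv_mem _ h3⟩

theorem exists_finite_commutator {Γ : Type} [Group Γ] {g : Γ} (hg : g ∈ commutator Γ) :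
    ∃ E : Set Γ, E.Finite ∧ g ∈ ⁅Subgroup.closure E, Subgroup.closure E⁆ := by
  rw [commutator_eq_closure] at hg
  obtain ⟨E, h1, h2, h3⟩ := exists_finite_closure hg
  choose! l r hlr using h2
  refine ⟨l '' E ∪ r '' E, (h1.image l).union (h1.image r), (Subgroup.closure_le _).2 ?_ h3⟩
  intro x hx
  rw [← hlr hx]
  exact Subgroup.commutator_mem_commutator (Subgroup.subset_closure (Or.inl ⟨x, hx, rfl⟩))
    (Subgroup.subset_closure (Or.inr ⟨x, hx, rfl⟩))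

theorem countable_closure {Γ : Type} [Group Γ] {S : Set Γ} (h : S.Countable) :
    (Subgroup.closure S : Set Γ).Countable := by
  haveI := h.to_subtype
  have : Subgroup.closure S = (FreeGroup.lift (Subtype.val : S → Γ)).range := by
    rw [FreeGroup.range_lift_eq_closure, Subtype.range_coe]
  rw [this, MonoidHom.coe_range]
  exact Set.countable_range _

theorem exists_T {N : Set Hh} (hN : N.Countable) (hc : tr 1 ∈ commutator Hh) :
    ∃ T : Subgroup Hh, (T : Set Hh).Countable ∧ N ⊆ T ∧ tr 1 ∈ ⁅T, T⁆ ∧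
      T ≤ Subgroup.closure {t | t ∈ T ∧ Good t} := by
  obtain ⟨E, hE, hz⟩ := exists_finite_commutator hc
  have h : ∀ g : Hh, ∃ E : Set Hh, E.Finite ∧ E ⊆ {g | Good g} ∧ g ∈ Subgroup.closure E :=
    fun g => exists_finite_closure (by rw [closure_good]; trivial)
  choose F h1 h2 h3 using h
  have hsub : N ∪ E ⊆ Subgroup.closure (⋃ g ∈ N ∪ E, F g) := fun g hg =>
    Subgroup.closure_mono (Set.subset_biUnion_of_mem hg) (h3 g)
  refine ⟨Subgroup.closure (⋃ g ∈ N ∪ E, F g),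
    countable_closure ((hN.union hE.countable).biUnion fun g _ => (h1 g).countable),
    Set.subset_union_left.trans hsub, ?_, Subgroup.closure_mono fun t ht =>
      ⟨Subgroup.subset_closure ht, ?_⟩⟩
  · have := (Subgroup.closure_le _).2 (Set.subset_union_right.trans hsub)
    exact Subgroup.commutator_mono this this hz
  · obtain ⟨g, -, hg⟩ := Set.mem_iUnion₂.1 ht
    exact h2 g hg

end Pool.Agent.Work.MP_913c95_al
end

-- merged part: Pool.Agent.Work.MP_913c95_al.Base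
section
/-!
The basic configuration, ping-pong, and the action of the plane lattice on wandering arcs.
-/

namespace Pool.Agent.Work.MP_913c95_al

open scoped Pointwise

/-- The basic elements. -/
structure Base where
  a : Hh
  b : Hh
  c : Hh
  v : Hh
  g₀ : Hh
  τ : Hh
  cp : Hh
  cm : Hh
  ha : Supp a (arc (2 / 40) (23 / 40))
  ha1 : a • (4 / 40 : ℝ) = 22 / 40
  hb1 : b • (19 / 40 : ℝ) = 20 / 40
  hb2 : b • (58 / 40 : ℝ) = 21 / 40
  hc1 : c • (2 / 40 : ℝ) = 5 / 40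
  hc2 : c • (23 / 40 : ℝ) = 21 / 40
  hv : Supp v (arc (2 / 40) (a • (22 / 40 : ℝ)))
  hv1 : ∀ x : ℝ, 2 / 40 ≤ x → x ≤ 4 / 40 → v • x = a • x
  hg : Supp g₀ (arc (6 / 40) (10 / 40))
  hg1 : g₀ • (7 / 40 : ℝ) = 9 / 40
  hτ : Supp τ (arc (5 / 40) (11 / 40))
  hτ1 : τ • (6 / 40 : ℝ) = 10 / 40
  hcp1 : cp • (23 / 40 : ℝ) = 7 / 40
  hcp2 : cp • (62 / 40 : ℝ) = 9 / 40
  hcm1 : cm • (4 / 40 : ℝ) = 7 / 40
  hcm2 : cm • (42 / 40 : ℝ) = 9 / 40

theorem nonempty_base : Nonempty Base := by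
  obtain ⟨a, ha, ha1⟩ := exists_move (α := 2 / 40) (β := 23 / 40) (y := 4 / 40) (y' := 22 / 40)
    (by norm_num) (by norm_num) (by norm_num) (by norm_num) (by norm_num)
  obtain ⟨b, hb1, hb2⟩ := exists_two (x₁ := 19 / 40) (x₂ := 58 / 40) (y₁ := 20 / 40)
    (y₂ := 21 / 40) (by norm_num) (by norm_num) (by norm_num) (by norm_num)
  obtain ⟨c, hc1, hc2⟩ := exists_two (x₁ := 2 / 40) (x₂ := 23 / 40) (y₁ := 5 / 40)
    (y₂ := 21 / 40) (by norm_num) (by norm_num) (by norm_num) (by norm_num)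
  obtain ⟨g, hg, hg1⟩ := exists_move (α := 6 / 40) (β := 10 / 40) (y := 7 / 40) (y' := 9 / 40)
    (by norm_num) (by norm_num) (by norm_num) (by norm_num) (by norm_num)
  obtain ⟨τ, hτ, hτ1⟩ := exists_move (α := 5 / 40) (β := 11 / 40) (y := 6 / 40) (y' := 10 / 40)
    (by norm_num) (by norm_num) (by norm_num) (by norm_num) (by norm_num)
  obtain ⟨cp, hcp1, hcp2⟩ := exists_two (x₁ := 23 / 40) (x₂ := 62 / 40) (y₁ := 7 / 40)
    (y₂ := 9 / 40) (by norm_num) (by norm_num) (by norm_num) (by norm_num)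
  obtain ⟨cm, hcm1, hcm2⟩ := exists_two (x₁ := 4 / 40) (x₂ := 42 / 40) (y₁ := 7 / 40)
    (y₂ := 9 / 40) (by norm_num) (by norm_num) (by norm_num) (by norm_num)
  have a1 := a.lt (show (4 / 40 : ℝ) < 22 / 40 by norm_num)
  have a2 := a.lt (show (22 / 40 : ℝ) < 23 / 40 by norm_num)
  rw [ha1] at a1
  rw [ha _ (not_mem_arc le_rfl (by norm_num))] at a2
  obtain ⟨w, hw, hw1⟩ := exists_move (α := 2 / 40) (β := a • (22 / 40 : ℝ)) (y := 22 / 40)
    (y' := 4 / 40) (by norm_num) a1 (by norm_num) (by linarith only [a1, a2]) (by linarith only [a1, a2])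
  obtain ⟨k, hk, hk1⟩ := exists_cut (k := w * a) (α := 2 / 40) (t := 4 / 40)
    (by rw [mul_smul, ha _ (not_mem_arc' (by norm_num) le_rfl),
      hw _ (not_mem_arc' (by linarith only [a1, a2]) le_rfl)])
    (by rw [mul_smul, ha1, hw1]) (by norm_num) (by norm_num)
  exact ⟨⟨a, b, c, w⁻¹ * k, g, τ, cp, cm, ha, ha1, hb1, hb2, hc1, hc2,
    hw.inv.mul (hk.mono (arc_mono le_rfl (by linarith only [a1, a2]))),
    fun x h1 h2 => by rw [mul_smul, hk1 x h1 h2, mul_smul, inv_smul_smul],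
    hg, hg1, hτ, hτ1, hcp1, hcp2, hcm1, hcm2⟩⟩

/-- The matrix of order four. -/
def mS : (ℤ × ℤ) ≃ₗ[ℤ] (ℤ × ℤ) where
  toFun y := (-y.2, y.1)
  invFun y := (y.2, -y.1)
  map_add' y y' := by ext <;> simp [add_comm]
  map_smul' c y := by ext <;> simp
  left_inv y := by simp
  right_inv y := by simp

/-- The matrix of order six. -/
def mU : (ℤ × ℤ) ≃ₗ[ℤ] (ℤ × ℤ) where
  toFun y := (-y.2, y.1 + y.2)
  invFun y := (y.1 + y.2, -y.1)
  map_add' y y' := by ext <;> simp <;> ring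
  map_smul' c y := by ext <;> simp <;> ring
  left_inv y := by simp
  right_inv y := by simp

theorem mS_apply (y : ℤ × ℤ) : mS y = (-y.2, y.1) := rfl
theorem mU_apply (y : ℤ × ℤ) : mU y = (-y.2, y.1 + y.2) := rfl
theorem mS_inv_apply (y : ℤ × ℤ) : mS⁻¹ y = (y.2, -y.1) := rfl
theorem mU_inv_apply (y : ℤ × ℤ) : mU⁻¹ y = (y.1 + y.2, -y.1) := rfl

/-- The linear action of the free group. -/
def bar : FreeGroup Bool →* ((ℤ × ℤ) ≃ₗ[ℤ] (ℤ × ℤ)) :=
  FreeGroup.lift fun i => bif i then mS else mU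

theorem bar_true : bar (FreeGroup.of true) = mS := FreeGroup.lift_apply_of
theorem bar_false : bar (FreeGroup.of false) = mU := FreeGroup.lift_apply_of

/-- Positive words. -/
def PosW : Submonoid (FreeGroup Bool) := Submonoid.closure {FreeGroup.of true, FreeGroup.of false}

theorem exists_pos (f : FreeGroup Bool) : ∃ u ∈ PosW, bar u = bar f := by
  have h1 : FreeGroup.of true ∈ PosW := Submonoid.subset_closure (by simp)
  have h2 : FreeGroup.of false ∈ PosW := Submonoid.subset_closure (by simp)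
  induction f using FreeGroup.induction_on with
  | C1 => exact ⟨1, PosW.one_mem, rfl⟩
  | of x => cases x; exacts [⟨_, h2, rfl⟩, ⟨_, h1, rfl⟩]
  | inv_of x _ =>
    cases x
    · refine ⟨_, PosW.pow_mem h2 5, ?_⟩
      rw [map_pow, map_inv, bar_false]
      refine LinearEquiv.ext fun y => ?_
      simp only [pow_succ, pow_zero, one_mul, LinearEquiv.mul_apply, mU_apply, mU_inv_apply]
      ext <;> simp [add_comm]
    · refine ⟨_, PosW.pow_mem h1 3, ?_⟩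
      rw [map_pow, map_inv, bar_true]
      refine LinearEquiv.ext fun y => ?_
      simp only [pow_succ, pow_zero, one_mul, LinearEquiv.mul_apply, mS_apply, mS_inv_apply]
      ext <;> simp
  | mul x y hx hy =>
    obtain ⟨u, hu, e⟩ := hx
    obtain ⟨u', hu', e'⟩ := hy
    exact ⟨u * u', PosW.mul_mem hu hu', by rw [map_mul, map_mul, e, e']⟩

/-- The wandering arc. -/
def I0 : Set ℝ := arc (5 / 40) (17 / 40)

/-- The attracting arcs. -/
def Oset : Bool × Bool → Set ℝ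
  | (true, true) => arc (22 / 40) (23 / 40)
  | (true, false) => arc (2 / 40) (4 / 40)
  | (false, true) => arc (20 / 40) (21 / 40)
  | (false, false) => arc (18 / 40) (19 / 40)

/-- The domains of contraction. -/
def Nset : Bool × Bool → Set ℝ
  | (true, true) => arc (4 / 40) (23 / 40)
  | (true, false) => arc (2 / 40) (22 / 40)
  | (false, true) => arc (19 / 40) (58 / 40)
  | (false, false) => arc (21 / 40) (60 / 40)

theorem I0_sub (l : Bool × Bool) : I0 ⊆ Nset l := by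
  obtain ⟨_ | _, _ | _⟩ := l
  · exact arc_mono' (by norm_num) (by norm_num)
  · exact arc_mono' (by norm_num) (by norm_num)
  · exact arc_mono (by norm_num) (by norm_num)
  · exact arc_mono (by norm_num) (by norm_num)

theorem O_sub (l l' : Bool × Bool) (h : l.1 = l'.1 → l.2 = l'.2) : Oset l' ⊆ Nset l := by
  obtain ⟨_ | _, _ | _⟩ := l <;> obtain ⟨_ | _, _ | _⟩ := l' <;>
    first
    | exact absurd (h rfl) (by decide)
    | (refine arc_mono ?_ ?_ <;> (norm_num; done))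
    | (refine arc_mono' ?_ ?_ <;> norm_num)

theorem O_disj (l : Bool × Bool) : Disjoint I0 (Oset l) := by
  obtain ⟨_ | _, _ | _⟩ := l <;>
    first
    | (refine arc_disjoint ?_ ?_ <;> (norm_num; done))
    | (refine (arc_disjoint ?_ ?_).symm <;> norm_num)

namespace Base

variable (B : Base)

/-- The action of the free group. -/
noncomputable def ρ : FreeGroup Bool →* Hh := FreeGroup.lift fun i => bif i then B.a else B.b

theorem ρ_true : B.ρ (FreeGroup.of true) = B.a := FreeGroup.lift_apply_of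
theorem ρ_false : B.ρ (FreeGroup.of false) = B.b := FreeGroup.lift_apply_of

theorem a2 : B.a • (2 / 40 : ℝ) = 2 / 40 := B.ha _ (not_mem_arc' (by norm_num) le_rfl)
theorem a23 : B.a • (23 / 40 : ℝ) = 23 / 40 := B.ha _ (not_mem_arc le_rfl (by norm_num))

theorem letter (l : Bool × Bool) : B.ρ (FreeGroup.mk [l]) • Nset l = Oset l := by
  obtain ⟨_ | _, _ | _⟩ := l
  · have e : B.ρ (FreeGroup.mk [(false, false)]) = B.b⁻¹ := by simp [ρ]
    have e2 : B.b • (59 / 40 : ℝ) = 60 / 40 := by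
      have := B.b.add_one (19 / 40)
      rw [B.hb1] at this
      convert this using 2 <;> norm_num
    rw [e, Nset, Oset, smul_arc, ← B.hb2, ← e2, inv_smul_smul, inv_smul_smul,
      ← arc_add_one (18 / 40)]
    norm_num
  · have e : B.ρ (FreeGroup.mk [(false, true)]) = B.b := by simp [ρ]
    rw [e, Nset, Oset, smul_arc, B.hb1, B.hb2]
  · have e : B.ρ (FreeGroup.mk [(true, false)]) = B.a⁻¹ := by simp [ρ]
    rw [e, Nset, Oset, smul_arc, ← B.ha1, inv_smul_smul, inv_smul_eq_iff.2 B.a2.symm]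
  · have e : B.ρ (FreeGroup.mk [(true, true)]) = B.a := by simp [ρ]
    rw [e, Nset, Oset, smul_arc, B.ha1, B.a23]

theorem pingpong (L : List (Bool × Bool)) (l : Bool × Bool) (h : FreeGroup.IsReduced (l :: L)) :
    B.ρ (FreeGroup.mk (l :: L)) • I0 ⊆ Oset l := by
  induction L generalizing l with
  | nil => rw [← B.letter]; exact Set.smul_set_mono (I0_sub l)
  | cons l' L ih =>
    rw [FreeGroup.isReduced_cons_cons] at h
    rw [show l :: l' :: L = [l] ++ (l' :: L) from rfl, ← FreeGroup.mul_mk, map_mul, mul_smul,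
      ← B.letter]
    exact Set.smul_set_mono ((ih l' h.2).trans (O_sub l l' h.1))

theorem exists_O {f : FreeGroup Bool} (hf : f ≠ 1) : ∃ l, B.ρ f • I0 ⊆ Oset l := by
  have h1 := FreeGroup.isReduced_toWord (x := f)
  have h2 := FreeGroup.mk_toWord (x := f)
  cases h : f.toWord with
  | nil => exact absurd (FreeGroup.toWord_eq_nil_iff.1 h) hf
  | cons l L =>
    rw [h] at h1 h2
    exact ⟨l, h2 ▸ B.pingpong L l h1⟩

theorem wander : Pairwise fun f f' : FreeGroup Bool => Disjoint (B.ρ f • I0) (B.ρ f' • I0) := by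
  intro f f' h
  obtain ⟨l, hl⟩ := B.exists_O (f := f⁻¹ * f') fun e => h (inv_mul_eq_one.1 e)
  have := (O_disj l).mono_right hl
  rw [← Set.disjoint_smul_set (a := B.ρ f), ← mul_smul, ← map_mul, mul_inv_cancel_left] at this
  exact this

theorem not_mem_of_far {r : ℝ} (h1 : r ∉ I0) (h2 : ∀ l, r ∉ Oset l) (g : FreeGroup Bool) :
    B.ρ g • r ∉ ⋃ f, B.ρ f • I0 := by
  rw [Set.mem_iUnion]
  rintro ⟨f, hf⟩
  rw [Set.mem_smul_set_iff_inv_smul_mem, ← mul_smul, ← map_inv, ← map_mul, ← inv_inv (f⁻¹ * g),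
    map_inv, ← Set.mem_smul_set_iff_inv_smul_mem] at hf
  by_cases e : (f⁻¹ * g)⁻¹ = 1
  · rw [e, map_one, one_smul] at hf
    exact h1 hf
  · obtain ⟨l, hl⟩ := B.exists_O e
    exact h2 l (hl hf)

theorem far2 (g : FreeGroup Bool) : B.ρ g • (2 / 40 : ℝ) ∉ ⋃ f, B.ρ f • I0 := by
  refine B.not_mem_of_far (not_mem_arc' (by norm_num) (by norm_num)) ?_ g
  rintro ⟨_ | _, _ | _⟩ <;> exact not_mem_arc' (by norm_num) (by norm_num)

theorem far4 (g : FreeGroup Bool) : B.ρ g • (4 / 40 : ℝ) ∉ ⋃ f, B.ρ f • I0 := by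
  refine B.not_mem_of_far (not_mem_arc' (by norm_num) (by norm_num)) ?_ g
  rintro ⟨_ | _, _ | _⟩ <;>
    first
    | (refine not_mem_arc' ?_ ?_ <;> (norm_num; done))
    | (refine not_mem_arc ?_ ?_ <;> norm_num)

theorem far23 (g : FreeGroup Bool) : B.ρ g • (23 / 40 : ℝ) ∉ ⋃ f, B.ρ f • I0 := by
  refine B.not_mem_of_far (not_mem_arc (by norm_num) (by norm_num)) ?_ g
  rintro ⟨_ | _, _ | _⟩ <;> exact not_mem_arc (by norm_num) (by norm_num)

theorem union_sub : (⋃ f, B.ρ f • I0) ⊆ arc (2 / 40) (23 / 40) := by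
  refine Set.iUnion_subset fun f => ?_
  by_cases e : f = 1
  · rw [e, map_one, one_smul]
    exact arc_mono (by norm_num) (by norm_num)
  · obtain ⟨l, hl⟩ := B.exists_O e
    refine hl.trans ?_
    obtain ⟨_ | _, _ | _⟩ := l <;> exact arc_mono (by norm_num) (by norm_num)

theorem pos_maps {u : FreeGroup Bool} (hu : u ∈ PosW) {x : ℝ} (h1 : 20 / 40 ≤ x)
    (h2 : x ≤ 23 / 40) : 20 / 40 ≤ B.ρ u • x ∧ B.ρ u • x ≤ 23 / 40 := by
  induction hu using Submonoid.closure_induction generalizing x with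
  | mem y hy =>
    rcases hy with rfl | rfl
    · rw [ρ_true]
      have a1 := B.a.le (show 4 / 40 ≤ x by linarith only [h1])
      have a2 := B.a.le h2
      rw [B.ha1] at a1
      rw [B.a23] at a2
      exact ⟨by linarith only [a1], a2⟩
    · rw [ρ_false]
      have a1 := B.b.le (show 19 / 40 ≤ x by linarith only [h1])
      have a2 := B.b.le (show x ≤ 58 / 40 by linarith only [h2])
      rw [B.hb1] at a1
      rw [B.hb2] at a2
      exact ⟨a1, by linarith only [a2]⟩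
  | one => rw [map_one, one_smul]; exact ⟨h1, h2⟩
  | mul y z _ _ hy hz =>
    rw [map_mul, mul_smul]
    exact hy (hz h1 h2).1 (hz h1 h2).2

/-- The properties of the copy of the plane lattice. -/
structure XSys (β : Hh) where
  x : ℤ × ℤ → Hh
  add : ∀ y y', x (y + y') = x y * x y'
  conj : ∀ f y, B.ρ f * x y * (B.ρ f)⁻¹ = x (bar f y)
  on : ∀ y, ∀ r ∈ I0, x y • r = (β ^ y.1) • r
  supp : ∀ y, Supp (x y) (⋃ f, B.ρ f • I0)

theorem nonempty_xsys {β : Hh} (hβ : Supp β I0) : Nonempty (B.XSys β) := by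
  have hs : ∀ (y : ℤ × ℤ) f, Supp (B.ρ f * β ^ (bar f⁻¹ y).1 * (B.ρ f)⁻¹) (B.ρ f • I0) :=
    fun y f => (hβ.zpow _).conj _
  choose x hx using fun y => exists_glue B.wander (hs y)
  refine ⟨⟨x, fun y y' => (hx _).unique ?_, fun g y => IsGlue.unique ?_ (hx _), fun y r hr => ?_,
    fun y => (hx y).2⟩⟩
  · convert (hx y).mul (hx y') (hs y') using 2 with f
    rw [map_add, Prod.fst_add, zpow_add]
    group
  · refine (hx y).conj (B.ρ g) (Equiv.mulLeft g) (fun f => ?_) fun f => ?_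
    · change _ = B.ρ (g * f) • I0
      rw [map_mul, mul_smul]
    · change B.ρ (g * f) * β ^ (bar (g * f)⁻¹ (bar g y)).1 * (B.ρ (g * f))⁻¹ = _
      rw [← LinearEquiv.mul_apply, ← map_mul, mul_inv_rev, inv_mul_cancel_right, map_mul]
      group
  · have := (hx y).1 1 r (by simpa using hr)
    simpa using this

end Base

end Pool.Agent.Work.MP_913c95_al
end

-- merged part: Pool.Agent.Work.MP_913c95_al.StepB
section
/-!
The encoding step: a countable set of normalised lifts has bounded length.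
-/

namespace Pool.Agent.Work.MP_913c95_al

open scoped Pointwise commutatorElement

theorem LenSys.conj {Γ : Type} [Group Γ] (L : LenSys Γ) {m n : ℕ} {g k : Γ} (hg : L.P m g)
    (hk : L.P n k) : L.P (m + n + m) (g * k * g⁻¹) := L.mul (L.mul hg hk) (L.inv hg)

namespace Base

variable (B : Base)

theorem pair_g : Pairwise fun i j : ℤ => Disjoint ((B.g₀ ^ i) • arc (7 / 40) (9 / 40))
    ((B.g₀ ^ j) • arc (7 / 40) (9 / 40)) := by
  have := B.hg.pairwise (p := 7 / 40) (by norm_num) (by norm_num) (by norm_num)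
    (by rw [B.hg1]; norm_num)
  rwa [B.hg1] at this

theorem pair_τ : Pairwise fun i j : ℤ => Disjoint ((B.τ ^ i) • arc (6 / 40) (10 / 40))
    ((B.τ ^ j) • arc (6 / 40) (10 / 40)) := by
  have := B.hτ.pairwise (p := 6 / 40) (by norm_num) (by norm_num) (by norm_num)
    (by rw [B.hτ1]; norm_num)
  rwa [B.hτ1] at this

theorem higman {k : Hh} (hk : Supp k (arc (7 / 40) (9 / 40))) :
    ∃ K : Hh, Supp K (arc (6 / 40) (10 / 40)) ∧ k = K * B.g₀ * K⁻¹ * B.g₀⁻¹ :=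
  exists_higman B.pair_g B.hg (arc_mono (by norm_num) (by norm_num)) hk

theorem good_conj {g : Hh} (hg : Good g) :
    ∃ c, (c = B.cp ∨ c = B.cm) ∧ Supp (c * g * c⁻¹) (arc (7 / 40) (9 / 40)) := by
  rcases hg with hg | hg
  · refine ⟨B.cp, Or.inl rfl, ?_⟩
    have := hg.conj B.cp
    rwa [smul_arc, B.hcp1, B.hcp2] at this
  · refine ⟨B.cm, Or.inr rfl, ?_⟩
    have := hg.conj B.cm
    rwa [smul_arc, B.hcm1, B.hcm2] at this

include B in
theorem perfect (g : Hh) : g ∈ commutator Hh := by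
  have : Subgroup.closure {g | Good g} ≤ commutator Hh := by
    rw [Subgroup.closure_le]
    intro g hg
    obtain ⟨c, -, hc⟩ := B.good_conj hg
    obtain ⟨K, -, e⟩ := B.higman hc
    have h1 : c * g * c⁻¹ ∈ commutator Hh := by
      rw [e]
      exact Subgroup.commutator_mem_commutator (Subgroup.mem_top K) (Subgroup.mem_top B.g₀)
    exact (Subgroup.Normal.conj_mem inferInstance _ h1 c⁻¹ :
      c⁻¹ * (c * g * c⁻¹) * c⁻¹⁻¹ ∈ commutator Hh) |> fun h => by simpa [mul_assoc] using h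
  exact this (by rw [closure_good]; trivial)

theorem exists_beta (k : ℕ → Hh) (hk : ∀ n, Supp (k n) (arc (7 / 40) (9 / 40))) :
    ∃ β : Hh, Supp β I0 ∧ ∀ (X : B.XSys β) (L : LenSys Hh), L.P 1 (tr (6 / 40)) → L.P 1 B.g₀ →
      (∀ y, L.P 1 (X.x y)) → ∀ n, L.P 10 (k n) := by
  choose K hK eK using fun n => B.higman (hk n)
  obtain ⟨σ, hσ, eσ⟩ := exists_encode B.pair_τ B.hτ (arc_mono (by norm_num) (by norm_num)) K hK
  have ht : tr (6 / 40) • arc (5 / 40) (11 / 40) = arc (11 / 40) (17 / 40) := by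
    rw [smul_arc, tr_smul, tr_smul]
    norm_num
  have hτ' : Supp (tr (6 / 40) * B.τ * (tr (6 / 40))⁻¹) (arc (11 / 40) (17 / 40)) :=
    ht ▸ B.hτ.conj _
  have hd : Disjoint (arc (5 / 40) (11 / 40)) (arc (11 / 40) (17 / 40)) :=
    arc_disjoint le_rfl (by norm_num)
  have hc := hτ'.commute hσ hd.symm
  have s1 : arc (5 / 40) (11 / 40) ⊆ I0 := arc_mono le_rfl (by norm_num)
  have s2 : arc (11 / 40) (17 / 40) ⊆ I0 := arc_mono (by norm_num) le_rfl
  have s3 : arc (6 / 40) (10 / 40) ⊆ arc (5 / 40) (11 / 40) := arc_mono (by norm_num) (by norm_num)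
  refine ⟨σ * (tr (6 / 40) * B.τ * (tr (6 / 40))⁻¹), (hσ.mono s1).mul (hτ'.mono s2),
    fun X L h1 h2 h3 n => ?_⟩
  set x := X.x ((n + 1 : ℤ), 0) with hx
  have e1 : x * B.g₀ * x⁻¹ = (B.τ ^ (n + 1 : ℤ) * K n) * B.g₀ * (B.τ ^ (n + 1 : ℤ) * K n)⁻¹ := by
    refine B.hg.conj_congr fun r hr => ?_
    rw [X.on _ r (s1 (s3 hr)), hc.mul_zpow, mul_smul,
      hτ'.zpow _ r (Set.disjoint_left.1 hd (s3 hr)), eσ n r hr]
  have e2 : ((tr (6 / 40))⁻¹ * x * (tr (6 / 40))⁻¹⁻¹) * (K n * B.g₀ * (K n)⁻¹) *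
      ((tr (6 / 40))⁻¹ * x * (tr (6 / 40))⁻¹⁻¹)⁻¹ =
      B.τ ^ (n + 1 : ℤ) * (K n * B.g₀ * (K n)⁻¹) * (B.τ ^ (n + 1 : ℤ))⁻¹ := by
    refine ((((hK n).mul B.hg).mul (hK n).inv).mono s3).conj_congr fun r hr => ?_
    have hr' : tr (6 / 40) • r ∈ arc (11 / 40) (17 / 40) := ht ▸ Set.smul_mem_smul_set hr
    rw [inv_inv, mul_smul, mul_smul, X.on _ _ (s2 hr'), hc.mul_zpow, mul_smul,
      hσ.zpow _ _ (Set.disjoint_right.1 hd ((hτ'.zpow _).mem hr')), conj_zpow, mul_smul, mul_smul,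
      inv_smul_smul, inv_smul_smul]
  have e3 : k n = ((tr (6 / 40))⁻¹ * x * (tr (6 / 40))⁻¹⁻¹)⁻¹ * (x * B.g₀ * x⁻¹) *
      ((tr (6 / 40))⁻¹ * x * (tr (6 / 40))⁻¹⁻¹)⁻¹⁻¹ * B.g₀⁻¹ := by
    have : x * B.g₀ * x⁻¹ = ((tr (6 / 40))⁻¹ * x * (tr (6 / 40))⁻¹⁻¹) * (K n * B.g₀ * (K n)⁻¹) *
        ((tr (6 / 40))⁻¹ * x * (tr (6 / 40))⁻¹⁻¹)⁻¹ := by
      rw [e2, e1]; group
    rw [this, eK n]
    group
  rw [e3]
  exact L.mul (L.conj (L.inv (L.conj (L.inv h1) (h3 _))) (L.conj (h3 _) h2)) (L.inv h2)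

theorem stepB {T : Set Hh} (hT : T.Countable) :
    ∃ β : Hh, Supp β I0 ∧ ∀ (X : B.XSys β) (L : LenSys Hh), L.P 1 (tr (6 / 40)) → L.P 1 B.g₀ →
      L.P 1 B.cp → L.P 1 B.cm → (∀ y, L.P 1 (X.x y)) → ∀ s ∈ T, Win s → L.P 48 s := by
  choose! p₁ p₂ p₃ p₄ hp using fun g (h : Win g) => frag h
  choose! c hc1 hc2 using fun g (h : Good g) => B.good_conj h
  let C : Set Hh := {g | g ∈ p₁ '' T ∪ p₂ '' T ∪ p₃ '' T ∪ p₄ '' T ∧ Good g}
  have hC : C.Countable :=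
    ((((hT.image p₁).union (hT.image p₂)).union (hT.image p₃)).union (hT.image p₄)).mono
      fun g hg => hg.1
  obtain ⟨k, hk⟩ := ((hC.image fun g => c g * g * (c g)⁻¹).insert 1).exists_eq_range
    (Set.insert_nonempty _ _)
  obtain ⟨β, hβ, h⟩ := B.exists_beta k fun n => by
    have : k n ∈ insert 1 ((fun g => c g * g * (c g)⁻¹) '' C) := hk ▸ Set.mem_range_self n
    rcases this with e | ⟨g, hg, e⟩
    · rw [e]; exact supp_one _
    · rw [← e]; exact hc2 g hg.2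
  refine ⟨β, hβ, fun X L h1 h2 h3 h4 h5 s hs hw => ?_⟩
  have key : ∀ g ∈ C, L.P 12 g := by
    intro g hg
    obtain ⟨n, hn⟩ : c g * g * (c g)⁻¹ ∈ Set.range k := hk ▸ Or.inr ⟨g, hg, rfl⟩
    have hc : L.P 1 (c g) := by
      rcases hc1 g hg.2 with e | e <;> rw [e] <;> assumption
    have := L.conj (L.inv hc) (h X L h1 h2 h5 n)
    rw [hn] at this
    convert this using 1
    group
  obtain ⟨g1, g2, g3, g4, e⟩ := hp s hw
  rw [e]
  exact L.mul (L.mul (L.mul (key _ ⟨Or.inl (Or.inl (Or.inl ⟨s, hs, rfl⟩)), g1⟩)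
    (key _ ⟨Or.inl (Or.inl (Or.inr ⟨s, hs, rfl⟩)), g2⟩)) (key _ ⟨Or.inl (Or.inr ⟨s, hs, rfl⟩), g3⟩))
    (key _ ⟨Or.inr ⟨s, hs, rfl⟩, g4⟩)

end Base

end Pool.Agent.Work.MP_913c95_al
end

-- merged part: Pool.Agent.Work.MP_913c95_al.StepC
section
/-!
The commuting copies step.
-/

namespace Pool.Agent.Work.MP_913c95_al

open scoped Pointwise

theorem exists_h {M e : Hh} {s t : ℝ} (hst : s < t) (h1 : 4 / 40 < M • s) (h2 : M • t < 22 / 40)
    (h3 : 4 / 40 < e • s) (h4 : e • t < 22 / 40) :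
    ∃ h : Hh, Supp h (arc (4 / 40) (22 / 40)) ∧
      ∀ κ, Supp κ (arc s t) → h * (M * κ * M⁻¹) * h⁻¹ = e * κ * e⁻¹ := by
  obtain ⟨h, hh, eh⟩ := exists_ext (e * M⁻¹) h1 (M.lt hst) h2
    (by rwa [mul_smul, inv_smul_smul]) (by rw [mul_smul, inv_smul_smul]; exact h4) (by norm_num)
  refine ⟨h, hh, fun κ hκ => ?_⟩
  rw [← hκ.conj_congr (g := h * M) (g' := e) (eq_on_arc fun x a b => by
    rw [mul_smul, eh _ (M.le a) (M.le b), mul_smul, inv_smul_smul])]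
  group

namespace Base

variable (B : Base)

/-- The fundamental domains of `a`. -/
def D (j : ℤ) : Set ℝ := (B.a ^ j) • arc (4 / 40) (22 / 40)

theorem pair_D : Pairwise fun i j => Disjoint (B.D i) (B.D j) := by
  have := B.ha.pairwise (p := 4 / 40) (by norm_num) (by norm_num) (by norm_num)
    (by rw [B.ha1]; norm_num)
  rwa [B.ha1] at this

theorem D_eq (j : ℤ) : B.D j = arc ((B.a ^ j) • (4 / 40 : ℝ)) ((B.a ^ (j + 1)) • (4 / 40 : ℝ)) := by
  rw [D, smul_arc, zpow_add_one, mul_smul, B.ha1]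

theorem a_mono : Monotone fun n : ℤ => (B.a ^ n) • (4 / 40 : ℝ) := by
  refine monotone_int_of_le_succ fun n => ?_
  rw [zpow_add_one, mul_smul, B.ha1]
  exact (B.a ^ n).le (by norm_num)

theorem D_pos {j : ℤ} (hj : 1 ≤ j) : B.D j ⊆ arc (22 / 40) (23 / 40) := by
  rw [D_eq]
  refine arc_mono ?_
    (B.ha.zpow_mem (p := 4 / 40) (by norm_num) (by norm_num) (by norm_num) _).2.le
  have := B.a_mono hj
  simp only [zpow_one, B.ha1] at this
  exact this

theorem D_neg {j : ℤ} (hj : j ≤ -1) : B.D j ⊆ arc (2 / 40) (4 / 40) := by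
  rw [D_eq]
  refine arc_mono
    (B.ha.zpow_mem (p := 4 / 40) (by norm_num) (by norm_num) (by norm_num) _).1.le ?_
  have := B.a_mono (show j + 1 ≤ 0 by omega)
  simp only [zpow_zero, one_smul] at this
  exact this

theorem a22 : 22 / 40 < B.a • (22 / 40 : ℝ) ∧ B.a • (22 / 40 : ℝ) < 23 / 40 := by
  have a1 := B.a.lt (show (4 / 40 : ℝ) < 22 / 40 by norm_num)
  have a2 := B.a.lt (show (22 / 40 : ℝ) < 23 / 40 by norm_num)
  rw [B.ha1] at a1
  rw [B.a23] at a2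
  exact ⟨a1, a2⟩

theorem b_maps {x : ℝ} (h1 : 19 / 40 ≤ x) (h2 : x ≤ 58 / 40) :
    20 / 40 ≤ B.b • x ∧ B.b • x ≤ 21 / 40 := by
  have a1 := B.b.le h1
  have a2 := B.b.le h2
  rw [B.hb1] at a1
  rw [B.hb2] at a2
  exact ⟨a1, a2⟩

theorem bub_maps {u : FreeGroup Bool} (hu : u ∈ PosW) {x : ℝ} (h1 : 19 / 40 ≤ x)
    (h2 : x ≤ 58 / 40) :
    20 / 40 ≤ (B.b * B.ρ u * B.b) • x ∧ (B.b * B.ρ u * B.b) • x ≤ 21 / 40 := by
  obtain ⟨a1, a2⟩ := B.b_maps h1 h2
  obtain ⟨a3, a4⟩ := B.pos_maps hu a1 (by linarith only [a2])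
  rw [mul_smul, mul_smul]
  exact B.b_maps (by linarith only [a3]) (by linarith only [a4])

/-- The transport property. -/
def Transp (W : Set ℝ) (m : FreeGroup Bool) (e : Hh) (u : FreeGroup Bool) (h : Hh) : Prop :=
  B.ρ (FreeGroup.of false * u * m) • W ⊆ arc (4 / 40) (22 / 40) ∧
    Supp h (arc (4 / 40) (22 / 40)) ∧ ∀ κ, Supp κ W →
      h * (B.ρ (FreeGroup.of false * u * m) * κ * (B.ρ (FreeGroup.of false * u * m))⁻¹) * h⁻¹ =
        e * κ * e⁻¹

theorem transp1 {u : FreeGroup Bool} (hu : u ∈ PosW) :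
    ∃ h, B.Transp (arc (2 / 40) (B.a • (22 / 40 : ℝ)))
      (FreeGroup.of false * (FreeGroup.of true)⁻¹ * (FreeGroup.of true)⁻¹) B.c u h := by
  have e : B.ρ (FreeGroup.of false * u *
      (FreeGroup.of false * (FreeGroup.of true)⁻¹ * (FreeGroup.of true)⁻¹)) =
      B.b * B.ρ u * B.b * B.a⁻¹ * B.a⁻¹ := by
    simp only [map_mul, map_inv, ρ_true, ρ_false, mul_assoc]
  have k : ∀ x : ℝ, (tr 1 * (B.b * B.ρ u * B.b * B.a⁻¹ * B.a⁻¹)) • x =
      (B.b * B.ρ u * B.b) • (B.a⁻¹ • B.a⁻¹ • x + 1) := fun x => by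
    rw [Hh.add_one, mul_smul, tr_smul, mul_smul, mul_smul]
  have k1 := k (2 / 40)
  have k2 := k (B.a • (22 / 40 : ℝ))
  rw [inv_smul_eq_iff.2 B.a2.symm, inv_smul_eq_iff.2 B.a2.symm] at k1
  rw [inv_smul_smul, inv_smul_eq_iff.2 B.ha1.symm] at k2
  have b1 := B.bub_maps hu (x := 2 / 40 + 1) (by norm_num) (by norm_num)
  have b2 := B.bub_maps hu (x := 4 / 40 + 1) (by norm_num) (by norm_num)
  rw [← k1] at b1
  rw [← k2] at b2
  have c1 := B.c.lt B.a22.2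
  rw [B.hc2] at c1
  obtain ⟨h, hh, eh⟩ := exists_h (M := tr 1 * (B.b * B.ρ u * B.b * B.a⁻¹ * B.a⁻¹)) (e := B.c)
    (s := 2 / 40) (t := B.a • (22 / 40 : ℝ)) (by linarith only [B.a22.1]) (by linarith only [b1]) (by linarith only [b2])
    (by rw [B.hc1]; norm_num) (by linarith only [c1])
  refine ⟨h, ?_, hh, fun κ hκ => ?_⟩
  · rw [e, smul_arc, ← arc_add_one]
    exact arc_mono (by rw [mul_smul, tr_smul] at b1; linarith only [b1])
      (by rw [mul_smul, tr_smul] at b2; linarith only [b2])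
  · rw [e, ← eh κ hκ]
    congr 2
    set M := B.b * B.ρ u * B.b * B.a⁻¹ * B.a⁻¹
    calc M * κ * M⁻¹ = tr 1 * (M * κ * M⁻¹) * (tr 1)⁻¹ := by rw [(tr_one_comm _).eq]; group
      _ = _ := by group

theorem transp2 {u : FreeGroup Bool} (hu : u ∈ PosW) :
    ∃ h, B.Transp (arc (4 / 40) (23 / 40)) (FreeGroup.of false * FreeGroup.of true)
      (B.c * B.v) u h := by
  have e : B.ρ (FreeGroup.of false * u * (FreeGroup.of false * FreeGroup.of true)) =
      B.b * B.ρ u * B.b * B.a := by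
    simp only [map_mul, ρ_true, ρ_false, mul_assoc]
  have b1 := B.bub_maps hu (x := 22 / 40) (by norm_num) (by norm_num)
  have b2 := B.bub_maps hu (x := 23 / 40) (by norm_num) (by norm_num)
  rw [← B.ha1, ← mul_smul] at b1
  rw [← B.a23, ← mul_smul] at b2
  have c1 := B.c.lt (show (2 / 40 : ℝ) < 22 / 40 by norm_num)
  rw [B.hc1] at c1
  obtain ⟨h, hh, eh⟩ := exists_h (M := B.b * B.ρ u * B.b * B.a) (e := B.c * B.v)
    (s := 4 / 40) (t := 23 / 40) (by norm_num) (by linarith only [b1]) (by linarith only [b2])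
    (by rw [mul_smul, B.hv1 _ (by norm_num) le_rfl, B.ha1]; linarith only [c1])
    (by rw [mul_smul, B.hv _ (not_mem_arc B.a22.2.le (by norm_num)), B.hc2]; norm_num)
  refine ⟨h, ?_, hh, fun κ hκ => ?_⟩
  · rw [e, smul_arc]
    exact arc_mono (by linarith only [b1]) (by linarith only [b2])
  · rw [e, eh κ hκ]

theorem supp_v' : Supp (B.v⁻¹ * B.a) (arc (4 / 40) (23 / 40)) := by
  refine supp_arc fun x h1 h2 => ?_
  rw [mul_smul, inv_smul_eq_iff]
  rcases le_total x (42 / 40) with h | h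
  · rw [B.ha x (not_mem_arc h1 (by linarith only [h])),
      B.hv x (not_mem_arc (by linarith only [h1, B.a22.2]) (by linarith only [h]))]
  · have := B.hv1 (x - 1) (by linarith only [h]) (by linarith only [h2])
    rw [Hh.sub_one, Hh.sub_one, sub_left_inj] at this
    exact this.symm

variable {B}

namespace XSys

variable {β : Hh} (X : B.XSys β)

theorem zero : X.x 0 = 1 := by
  have := X.add 0 0
  rw [add_zero] at this
  exact mul_left_cancel (this.symm.trans (mul_one _).symm)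

theorem neg (y : ℤ × ℤ) : X.x (-y) = (X.x y)⁻¹ := by
  rw [eq_inv_iff_mul_eq_one, ← X.add, neg_add_cancel, X.zero]

theorem zsmul (n : ℤ) (y : ℤ × ℤ) : X.x (n • y) = X.x y ^ n := by
  induction n using Int.induction_on with
  | zero => rw [zero_smul, zpow_zero, X.zero]
  | succ i ih => rw [add_smul, one_smul, X.add, ih, zpow_add_one]
  | pred i ih => rw [sub_smul, one_smul, sub_eq_add_neg, X.add, ih, X.neg, zpow_sub_one]

theorem fix_a (y : ℤ × ℤ) (j : ℤ) : X.x y • (B.a ^ j) • (4 / 40 : ℝ) = (B.a ^ j) • (4 / 40 : ℝ) := by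
  refine X.supp y _ ?_
  have := B.far4 (FreeGroup.of true ^ j)
  rwa [map_zpow, ρ_true] at this

theorem smul_D (y : ℤ × ℤ) (j : ℤ) : X.x y • B.D j = B.D j := by
  rw [D_eq, smul_arc, X.fix_a, X.fix_a]

theorem smul_W1 (y : ℤ × ℤ) : X.x y • arc (2 / 40) (B.a • (22 / 40 : ℝ)) =
    arc (2 / 40) (B.a • (22 / 40 : ℝ)) := by
  have h1 := X.fix_a y (1 + 1)
  rw [zpow_add_one, zpow_one, mul_smul, B.ha1] at h1
  rw [smul_arc, h1, X.supp y _ (by simpa using B.far2 1)]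

theorem smul_W2 (y : ℤ × ℤ) : X.x y • arc (4 / 40) (23 / 40) = arc (4 / 40) (23 / 40) := by
  rw [smul_arc, X.supp y _ (by simpa using B.far4 1), X.supp y _ (by simpa using B.far23 1)]

theorem C1 {T : Subgroup Hh} (ha : B.a ∈ T) (hρ : ∀ f, B.ρ f ∈ T) {W : Set ℝ}
    {m : FreeGroup Bool} {e w : Hh} (hw : Supp w W) (hwT : w ∈ T) (hW : ∀ y, X.x y • W = W)
    (hT : ∀ u ∈ PosW, ∃ h ∈ T, B.Transp W m e u h) (L : LenSys Hh) (L0 : ∀ t ∈ T, L.P 0 t)
    (L1 : ∀ y, L.P 1 (X.x y)) (J : Finset ℤ) (f : ℤ → FreeGroup Bool) :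
    ∃ θ, L.P 2 θ ∧ (∀ j, Supp (if j ∈ J then B.a ^ j * (e * (X.x (bar (f j) (0, 1)) * w *
        (X.x (bar (f j) (0, 1)))⁻¹ * w⁻¹) * e⁻¹) * (B.a ^ j)⁻¹ else 1) (B.D j)) ∧
      IsGlue B.D (fun j => if j ∈ J then B.a ^ j * (e * (X.x (bar (f j) (0, 1)) * w *
        (X.x (bar (f j) (0, 1)))⁻¹ * w⁻¹) * e⁻¹) * (B.a ^ j)⁻¹ else 1) θ := by
  choose u hu eu using fun j : ℤ =>
    exists_pos ((FreeGroup.of false)⁻¹ * (FreeGroup.of true ^ j)⁻¹ * (f j)⁻¹ * m⁻¹)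
  choose h hhT h1 h2 h3 using fun j => hT (u j) (hu j)
  let M : ℤ → Hh := fun j => B.ρ (FreeGroup.of false * u j * m)
  let γ : ℤ → Hh := fun j => if j ∈ J then B.a ^ j * (M j * w * (M j)⁻¹) * (B.a ^ j)⁻¹ else 1
  let η : ℤ → Hh := fun j => if j ∈ J then B.a ^ j * h j * (B.a ^ j)⁻¹ else 1
  have hγ : ∀ j, Supp (γ j) (B.D j) := fun j => by
    simp only [γ]
    split_ifs
    · exact ((hw.conj _).mono (h1 j)).conj _
    · exact supp_one _
  have hη : ∀ j, Supp (η j) (B.D j) := fun j => by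
    simp only [η]
    split_ifs
    · exact (h2 j).conj _
    · exact supp_one _
  obtain ⟨t, ht⟩ := exists_glue B.pair_D hγ
  obtain ⟨s, hs⟩ := exists_glue B.pair_D hη
  have hcj : ∀ {g k : Hh}, g ∈ T → k ∈ T → g * k * g⁻¹ ∈ T := fun hg hk =>
    T.mul_mem (T.mul_mem hg hk) (T.inv_mem hg)
  have tT : t ∈ T := ht.mem B.pair_D J hγ (fun j => by
    simp only [γ]
    split_ifs
    · exact hcj (T.zpow_mem ha j) (hcj (hρ _) hwT)
    · exact T.one_mem) fun j hj => if_neg hj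
  have sT : s ∈ T := hs.mem B.pair_D J hη (fun j => by
    simp only [η]
    split_ifs
    · exact hcj (T.zpow_mem ha j) (hhT j)
    · exact T.one_mem) fun j hj => if_neg hj
  set x := X.x (0, 1) with hx
  have g1 : IsGlue B.D (fun j => x * γ j * x⁻¹) (x * t * x⁻¹) :=
    ht.conj x (Equiv.refl ℤ) (fun j => X.smul_D _ j) fun j => rfl
  have s1 : ∀ j, Supp (x * γ j * x⁻¹) (B.D j) := fun j => X.smul_D _ j ▸ (hγ j).conj x
  have g2 := g1.mul (ht.inv hγ) fun j => (hγ j).inv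
  have g3 := (hs.mul g2 fun j => (s1 j).mul (hγ j).inv).mul (hs.inv hη) fun j => (hη j).inv
  have e : (fun j => η j * (x * γ j * x⁻¹ * (γ j)⁻¹) * (η j)⁻¹) =
      fun j => if j ∈ J then B.a ^ j * (e * (X.x (bar (f j) (0, 1)) * w *
        (X.x (bar (f j) (0, 1)))⁻¹ * w⁻¹) * e⁻¹) * (B.a ^ j)⁻¹ else 1 := by
    funext j
    simp only [γ, η]
    split_ifs
    · set y := X.x (bar (f j) (0, 1)) with hy
      have hκ : Supp (y * w * y⁻¹ * w⁻¹) W := (hW _ ▸ hw.conj y).mul hw.inv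
      have e1 := X.conj (FreeGroup.of true ^ j * (FreeGroup.of false * u j * m)) (bar (f j) (0, 1))
      have e2 : bar (FreeGroup.of true ^ j * (FreeGroup.of false * u j * m)) * bar (f j) = 1 := by
        rw [map_mul, map_mul, map_mul, eu j, ← map_mul, ← map_mul, ← map_mul, ← map_mul,
          ← map_one bar]
        congr 1
        group
      rw [← LinearEquiv.mul_apply, e2, map_mul, map_zpow, ρ_true] at e1
      change B.a ^ j * M j * y * (B.a ^ j * M j)⁻¹ = x at e1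
      rw [← h3 j _ hκ, ← e1]
      change _ = B.a ^ j * (h j * (M j * (y * w * y⁻¹ * w⁻¹) * (M j)⁻¹) * (h j)⁻¹) * (B.a ^ j)⁻¹
      group
    · group
  refine ⟨_, L.conj (L0 s sT) (L.mul (L.conj (L1 (0, 1)) (L0 t tT)) (L.inv (L0 t tT))), ?_,
    e ▸ g3⟩
  intro j
  rw [← congrFun e j]
  exact ((hη j).mul ((s1 j).mul (hγ j).inv)).mul (hη j).inv

theorem C2 {T : Subgroup Hh} (ha : B.a ∈ T) (hρ : ∀ f, B.ρ f ∈ T) (hv : B.v ∈ T)
    (hT1 : ∀ u ∈ PosW, ∃ h ∈ T, B.Transp (arc (2 / 40) (B.a • (22 / 40 : ℝ)))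
      (FreeGroup.of false * (FreeGroup.of true)⁻¹ * (FreeGroup.of true)⁻¹) B.c u h)
    (hT2 : ∀ u ∈ PosW, ∃ h ∈ T, B.Transp (arc (4 / 40) (23 / 40))
      (FreeGroup.of false * FreeGroup.of true) (B.c * B.v) u h)
    (L : LenSys Hh) (L0 : ∀ t ∈ T, L.P 0 t)
    (L1 : ∀ y, L.P 1 (X.x y)) (J : Finset ℤ) (f : ℤ → FreeGroup Bool) :
    ∃ θ, L.P 4 θ ∧ (∀ j, Supp (if j ∈ J then B.a ^ j * (B.c *
        X.x (bar (f j) (0, 1) - mS (bar (f j) (0, 1))) * B.c⁻¹) * (B.a ^ j)⁻¹ else 1) (B.D j)) ∧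
      IsGlue B.D (fun j => if j ∈ J then B.a ^ j * (B.c *
        X.x (bar (f j) (0, 1) - mS (bar (f j) (0, 1))) * B.c⁻¹) * (B.a ^ j)⁻¹ else 1) θ := by
  obtain ⟨θ₁, p1, s1, g1⟩ := X.C1 ha hρ B.hv hv X.smul_W1 hT1 L L0 L1 J f
  obtain ⟨θ₂, p2, s2, g2⟩ := X.C1 ha hρ B.supp_v' (T.mul_mem (T.inv_mem hv) ha) X.smul_W2 hT2
    L L0 L1 J f
  have g := g1.mul g2 s2
  have s := fun j => (s1 j).mul (s2 j)
  have e : ∀ j, (if j ∈ J then B.a ^ j * (B.c * (X.x (bar (f j) (0, 1)) * B.v *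
        (X.x (bar (f j) (0, 1)))⁻¹ * B.v⁻¹) * B.c⁻¹) * (B.a ^ j)⁻¹ else 1) *
      (if j ∈ J then B.a ^ j * (B.c * B.v * (X.x (bar (f j) (0, 1)) * (B.v⁻¹ * B.a) *
        (X.x (bar (f j) (0, 1)))⁻¹ * (B.v⁻¹ * B.a)⁻¹) * (B.c * B.v)⁻¹) * (B.a ^ j)⁻¹ else 1) =
      if j ∈ J then B.a ^ j * (B.c *
        X.x (bar (f j) (0, 1) - mS (bar (f j) (0, 1))) * B.c⁻¹) * (B.a ^ j)⁻¹ else 1 := by
    intro j
    split_ifs
    · rw [sub_eq_add_neg, X.add, X.neg, ← bar_true, ← X.conj (FreeGroup.of true), ρ_true]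
      group
    · exact mul_one 1
  simp only [e] at g s
  exact ⟨_, L.mul p1 p2, s, g⟩

/-- The shifted copies. -/
noncomputable def α (j : ℤ) : Hh := B.a ^ j * (B.c * X.x (1, -1) * B.c⁻¹) * (B.a ^ j)⁻¹

theorem supp_α (j : ℤ) : Supp (X.α j) (B.D j) := by
  refine Supp.conj (((X.supp _).mono B.union_sub).conj B.c |>.mono ?_) _
  rw [smul_arc, B.hc1, B.hc2]
  exact arc_mono (by norm_num) (by norm_num)

theorem bar_p (n : ℤ) :
    bar (((FreeGroup.of true)⁻¹ * FreeGroup.of false) ^ n) (0, 1) = (n, 1) := by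
  induction n using Int.induction_on with
  | zero => simp
  | succ i ih =>
    rw [add_comm, zpow_one_add, map_mul, LinearEquiv.mul_apply, ih, map_mul, map_inv, bar_true,
      bar_false, LinearEquiv.mul_apply, mU_apply, mS_inv_apply]
    ext <;> simp [add_comm]
  | pred i ih =>
    rw [sub_eq_add_neg, add_comm, zpow_add, zpow_neg_one, map_mul, LinearEquiv.mul_apply, ih,
      mul_inv_rev, inv_inv, map_mul, map_inv, bar_true, bar_false, LinearEquiv.mul_apply,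
      mU_inv_apply, mS_apply]
    ext <;> simp

theorem stepC {T : Subgroup Hh} (ha : B.a ∈ T) (hρ : ∀ f, B.ρ f ∈ T) (hv : B.v ∈ T)
    (hT1 : ∀ u ∈ PosW, ∃ h ∈ T, B.Transp (arc (2 / 40) (B.a • (22 / 40 : ℝ)))
      (FreeGroup.of false * (FreeGroup.of true)⁻¹ * (FreeGroup.of true)⁻¹) B.c u h)
    (hT2 : ∀ u ∈ PosW, ∃ h ∈ T, B.Transp (arc (4 / 40) (23 / 40))
      (FreeGroup.of false * FreeGroup.of true) (B.c * B.v) u h)
    (L : LenSys Hh) (L0 : ∀ t ∈ T, L.P 0 t) (L1 : ∀ y, L.P 1 (X.x y)) :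
    ∀ g ∈ Subgroup.closure (Set.range X.α), L.P 8 g := by
  intro g hg
  have key : ∃ (J : Finset ℤ) (n : ℤ → ℤ), (∀ j, j ∉ J → n j = 0) ∧
      IsGlue B.D (fun j => X.α j ^ n j) g := by
    induction hg using Subgroup.closure_induction with
    | mem x hx =>
      obtain ⟨i, rfl⟩ := hx
      refine ⟨{i}, Pi.single i 1, fun j hj => Pi.single_eq_of_ne (by simpa using hj) _, ?_⟩
      convert isGlue_single B.pair_D (X.supp_α i) using 2 with j
      by_cases h : j = i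
      · subst h; simp
      · simp [h]
    | one => exact ⟨∅, fun _ => 0, fun _ _ => rfl, by simpa using isGlue_one B.D⟩
    | mul x y _ _ hx hy =>
      obtain ⟨J, n, h1, h2⟩ := hx
      obtain ⟨J', n', h1', h2'⟩ := hy
      refine ⟨J ∪ J', fun j => n j + n' j, fun j hj => ?_, ?_⟩
      · rw [Finset.mem_union, not_or] at hj
        change n j + n' j = 0
        rw [h1 j hj.1, h1' j hj.2, add_zero]
      · simpa only [zpow_add] using h2.mul h2' fun j => (X.supp_α j).zpow _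
    | inv x _ hx =>
      obtain ⟨J, n, h1, h2⟩ := hx
      refine ⟨J, fun j => -n j, fun j hj => neg_eq_zero.2 (h1 j hj), ?_⟩
      simpa only [zpow_neg] using h2.inv fun j => (X.supp_α j).zpow _
  obtain ⟨J, n, h1, h2⟩ := key
  obtain ⟨θ₁, p1, s1, g1⟩ := X.C2 ha hρ hv hT1 hT2 L L0 L1 J
    fun j => ((FreeGroup.of true)⁻¹ * FreeGroup.of false) ^ n j
  obtain ⟨θ₂, p2, s2, g2⟩ := X.C2 ha hρ hv hT1 hT2 L L0 L1 J fun j => 1
  have g3 := g1.mul (g2.inv s2) fun j => (s2 j).inv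
  have : g = θ₁ * θ₂⁻¹ := by
    refine h2.unique ?_
    convert g3 using 2 with j
    split_ifs with hj
    · rw [bar_p, map_one, α, conj_zpow, conj_zpow, ← X.zsmul]
      have e : ((n j, 1) : ℤ × ℤ) - mS (n j, 1) = n j • ((1, -1) : ℤ × ℤ) +
          ((1 : (ℤ × ℤ) ≃ₗ[ℤ] (ℤ × ℤ)) (0, 1) - mS ((1 : (ℤ × ℤ) ≃ₗ[ℤ] (ℤ × ℤ)) (0, 1))) := by
        ext <;> simp [mS_apply]
        ring
      rw [e, X.add]
      group
    · rw [h1 j hj]
      simp
  rw [this]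
  exact L.mul p1 (L.inv p2)

end XSys

end Base

end Pool.Agent.Work.MP_913c95_al
end

-- merged part: Pool.Agent.Work.MP_913c95_al.RelT0
section
/-!
Elementary inequalities and the function model for two commuting unitaries.
-/

namespace Pool.Agent.Work.MP_913c95_al

open scoped InnerProductSpace

theorem frac_mono {a b c : ℝ} (ha : 0 ≤ a) (hab : a ≤ b) (hc : 0 < c) :
    a / (a + c) ≤ b / (b + c) := by
  rw [div_le_div_iff₀ (by linarith) (by linarith)]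
  linarith only [hab, hc, mul_nonneg_of_nonpos_of_nonpos (Mathlib.Tactic.Linarith.sub_nonpos_of_le hab) (le_of_lt (Mathlib.Tactic.Linarith.sub_neg_of_lt hc))]

theorem real_key {u w δ up um wp wm : ℝ} (hw : 0 ≤ w) (hwu : w ≤ u) (hδ : 0 < δ)
    (h1 : 5 * u ≤ wp) (h2 : 5 * u ≤ wm) (hp : 0 ≤ up) (hm : 0 ≤ um) (h3 : 2 * u ≤ up + um) :
    21 / 10 * (u / (u + w + δ) + w / (w + u + δ)) ≤
      up / (up + w + δ) + um / (um + w + δ) + wp / (wp + u + δ) + wm / (wm + u + δ) := by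
  have hu : 0 ≤ u := hw.trans hwu
  have a1 := frac_mono (by positivity) h1 (show 0 < u + δ by positivity)
  have a2 := frac_mono (by positivity) h2 (show 0 < u + δ by positivity)
  have a3 : u / (u + (w + δ)) ≤ up / (up + (w + δ)) + um / (um + (w + δ)) := by
    rcases le_total u up with h | h
    · have := frac_mono hu h (show 0 < w + δ by positivity)
      have : 0 ≤ um / (um + (w + δ)) := by positivity
      linarith
    · have := frac_mono hu (show u ≤ um by linarith only [h3, h]) (show 0 < w + δ by positivity)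
      have : 0 ≤ up / (up + (w + δ)) := by positivity
      linarith
  have a4 : (11 / 10 * u + 21 / 10 * w) / (u + (w + δ)) ≤ 2 * (5 * u / (5 * u + (u + δ))) := by
    rw [← mul_div_assoc, div_le_div_iff₀ (by positivity) (by positivity)]
    linarith only [hu, hwu, hδ, mul_nonneg hu (sub_nonneg.2 hwu), mul_nonneg hδ.le (sub_nonneg.2 hwu),
      mul_nonneg hu hδ.le, mul_nonneg hu hu, mul_self_nonneg u]
  have e : 21 / 10 * (u / (u + w + δ) + w / (w + u + δ)) =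
      u / (u + (w + δ)) + (11 / 10 * u + 21 / 10 * w) / (u + (w + δ)) := by
    rw [add_comm w u, add_assoc u w δ]
    field_simp
    ring
  rw [e]
  simp only [add_assoc]
  linarith only [a1, a2, a3, a4]

theorem pow4_lower {z w : ℂ} (hz : ‖z‖ = 1) (h1 : ‖z - 1‖ ≤ 1 / 10) (h2 : ‖w - 1‖ ≤ ‖z - 1‖) :
    5 * ‖z - 1‖ ^ 2 ≤ ‖w * z ^ 4 - 1‖ ^ 2 := by
  have t : ∀ y : ℂ, ‖y‖ = 1 → ‖y - 1‖ * (2 - ‖y - 1‖) ≤ ‖y ^ 2 - 1‖ ∧
      ‖y ^ 2 - 1‖ ≤ 2 * ‖y - 1‖ := by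
    intro y hy
    have e : y ^ 2 - 1 = (y - 1) * (y + 1) := by ring
    rw [e, norm_mul]
    have b1 : ‖y + 1‖ ≤ 2 := (norm_add_le _ _).trans (by rw [hy, norm_one]; norm_num)
    have b2 : 2 - ‖y - 1‖ ≤ ‖y + 1‖ := by
      have := norm_sub_le (y + 1) (y - 1)
      rw [show y + 1 - (y - 1) = 2 by ring] at this
      simp only [Complex.norm_ofNat] at this
      linarith only [this]
    have := norm_nonneg (y - 1)
    constructor <;> linarith only [b1, b2, mul_nonneg_of_nonpos_of_nonpos (Mathlib.Tactic.Linarith.sub_nonpos_of_le b1) (Mathlib.Tactic.Linarith.sub_nonpos_of_le b2), mul_nonneg_of_nonpos_of_nonpos (Mathlib.Tactic.Linarith.sub_nonpos_of_le b2) (Mathlib.Tactic.Linarith.sub_nonpos_of_le b2), mul_nonneg_of_nonpos_of_nonpos (Mathlib.Tactic.Linarith.sub_nonpos_of_le b1) (Mathlib.Tactic.Linarith.sub_nonpos_of_le b1)]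
  obtain ⟨a1, a2⟩ := t z hz
  obtain ⟨a3, -⟩ := t (z ^ 2) (by rw [norm_pow, hz, one_pow])
  have a4 : ‖(z ^ 2) ^ 2 - 1‖ ≤ ‖w * z ^ 4 - 1‖ + ‖w - 1‖ := by
    have e : (z ^ 2) ^ 2 - 1 = (w * z ^ 4 - 1) - (w - 1) * z ^ 4 := by ring
    rw [e]
    refine (norm_sub_le _ _).trans ?_
    rw [norm_mul, norm_pow, hz, one_pow, mul_one]
  have n1 := norm_nonneg (z - 1)
  have n2 := norm_nonneg (z ^ 2 - 1)
  have a5 : 19 / 10 * ‖z - 1‖ ≤ ‖z ^ 2 - 1‖ := by linarith only [a1, h1, n1, mul_nonneg_of_nonpos_of_nonpos (Mathlib.Tactic.Linarith.sub_nonpos_of_le h1) (Mathlib.Tactic.Linarith.sub_nonpos_of_le n1)]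
  have a6 : 18 / 10 * ‖z ^ 2 - 1‖ ≤ ‖(z ^ 2) ^ 2 - 1‖ := by linarith only [a3, h1, n2, a2, mul_nonneg_of_nonpos_of_nonpos (Mathlib.Tactic.Linarith.sub_nonpos_of_le h1) (Mathlib.Tactic.Linarith.sub_nonpos_of_le n2), mul_nonneg_of_nonpos_of_nonpos (Mathlib.Tactic.Linarith.sub_nonpos_of_le a2) (Mathlib.Tactic.Linarith.sub_nonpos_of_le n2)]
  have a7 : 12 / 5 * ‖z - 1‖ ≤ ‖w * z ^ 4 - 1‖ := by linarith only [h2, a4, n2, a5, a6]
  have := pow_le_pow_left₀ (by positivity) a7 2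
  linarith only [this, sq_nonneg ‖w * z ^ (4 : ℕ) - (1 : ℂ)‖]

theorem parallel_lower {z w : ℂ} (hz : ‖z‖ = 1) (hw : ‖w‖ = 1) (h1 : ‖z - 1‖ ≤ 1 / 10) :
    2 * ‖z - 1‖ ^ 2 ≤ ‖z * w - 1‖ ^ 2 + ‖z * star w - 1‖ ^ 2 := by
  have hz2 : z.re * z.re + z.im * z.im = 1 := by
    rw [← Complex.normSq_apply, Complex.normSq_eq_norm_sq, hz, one_pow]
  have hw2 : w.re * w.re + w.im * w.im = 1 := by
    rw [← Complex.normSq_apply, Complex.normSq_eq_norm_sq, hw, one_pow]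
  have hre : 0 ≤ z.re := by
    have := (Complex.abs_re_le_norm (z - 1)).trans h1
    rw [abs_le] at this
    simp only [Complex.sub_re, Complex.one_re] at this
    linarith only [this]
  have hw1 : w.re ≤ 1 := by linarith only [hw2, sq_nonneg (w.re - 1), mul_self_nonneg w.im, mul_self_nonneg w.im, sq_nonneg (w.re - (1 : ℝ))]
  simp only [← Complex.normSq_eq_norm_sq, Complex.normSq_apply, Complex.sub_re, Complex.mul_re,
    Complex.sub_im, Complex.mul_im, Complex.one_re, Complex.one_im, Complex.star_def,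
    Complex.conj_re, Complex.conj_im]
  have k : z.re * (1 - w.re) ≥ 0 := mul_nonneg hre (by linarith only [hw1])
  have e1 : (z.re * z.re + z.im * z.im) * (w.re * w.re + w.im * w.im) = 1 := by
    rw [hz2, hw2, one_mul]
  linarith only [hz2, k, e1]

/-- The fraction used as a test function. -/
noncomputable def fr (δ : ℝ) (s t : ℂ) : ℝ := ‖s - 1‖ ^ 2 / (‖s - 1‖ ^ 2 + ‖t - 1‖ ^ 2 + δ)

theorem fr_nonneg {δ : ℝ} (hδ : 0 < δ) (s t : ℂ) : 0 ≤ fr δ s t := by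
  unfold fr; positivity

theorem fr_add_le {δ : ℝ} (hδ : 0 < δ) (s t : ℂ) : fr δ s t + fr δ t s ≤ 1 := by
  unfold fr
  rw [add_comm (‖t - 1‖ ^ 2), ← add_div, div_le_one (by positivity)]
  linarith

theorem norm_star_sub_one (z : ℂ) : ‖star z - 1‖ = ‖z - 1‖ := by
  rw [← norm_star (z - 1)]
  simp

theorem pointwise_half {δ : ℝ} (hδ : 0 < δ) {s t : ℂ} (hs : ‖s‖ = 1) (ht : ‖t‖ = 1)
    (h1 : ‖s - 1‖ ≤ 1 / 10) (h2 : ‖t - 1‖ ≤ ‖s - 1‖) :
    21 / 10 * (fr δ s t + fr δ t s) ≤ fr δ (s * t ^ 4) t + fr δ (s * star t ^ 4) t +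
      fr δ (t * s ^ 4) s + fr δ (t * star s ^ 4) s := by
  unfold fr
  refine real_key (by positivity) (pow_le_pow_left₀ (norm_nonneg _) h2 2) hδ
    (pow4_lower hs h1 h2) ?_ (by positivity) (by positivity) ?_
  · have := pow4_lower (z := star s) (w := t) (by rw [norm_star, hs])
      (by rw [norm_star_sub_one]; exact h1) (by rw [norm_star_sub_one]; exact h2)
    rwa [norm_star_sub_one] at this
  · have := parallel_lower (w := t ^ 4) hs (by rw [norm_pow, ht, one_pow]) h1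
    rwa [star_pow] at this

theorem pointwise_main {δ : ℝ} (hδ : 0 < δ) {s t : ℂ} (hs : ‖s‖ = 1) (ht : ‖t‖ = 1) :
    21 / 10 * (fr δ s t + fr δ t s) ≤ fr δ (s * t ^ 4) t + fr δ (s * star t ^ 4) t +
      fr δ (t * s ^ 4) s + fr δ (t * star s ^ 4) s + 210 * (‖s - 1‖ ^ 2 + ‖t - 1‖ ^ 2) := by
  have p1 := sq_nonneg ‖s - 1‖
  have p2 := sq_nonneg ‖t - 1‖
  have q1 := fr_nonneg hδ (s * t ^ 4) t
  have q2 := fr_nonneg hδ (s * star t ^ 4) t
  have q3 := fr_nonneg hδ (t * s ^ 4) s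
  have q4 := fr_nonneg hδ (t * star s ^ 4) s
  have q5 := fr_add_le hδ s t
  rcases le_total ‖t - 1‖ ‖s - 1‖ with h | h
  · rcases le_total ‖s - 1‖ (1 / 10) with h' | h'
    · have := pointwise_half hδ hs ht h' h
      linarith only [p1, p2, this]
    · linarith only [q1, q2, q3, q4, q5, h', sq_nonneg ‖t - (1 : ℂ)‖, mul_nonneg_of_nonpos_of_nonpos (Mathlib.Tactic.Linarith.sub_nonpos_of_le h') (Mathlib.Tactic.Linarith.sub_nonpos_of_le h')]
  · rcases le_total ‖t - 1‖ (1 / 10) with h' | h'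
    · have := pointwise_half hδ ht hs h' h
      linarith only [p1, p2, this]
    · linarith only [q1, q2, q3, q4, q5, h', sq_nonneg ‖s - (1 : ℂ)‖, mul_nonneg_of_nonpos_of_nonpos (Mathlib.Tactic.Linarith.sub_nonpos_of_le h') (Mathlib.Tactic.Linarith.sub_nonpos_of_le h')]

theorem pointwise_upper {δ C : ℝ} (hδ : 0 < δ) {r s t : ℂ} (hr : ‖r‖ = 1)
    (h : ‖r - 1‖ ≤ C * (‖s - 1‖ + ‖t - 1‖)) :
    ‖r - 1‖ ^ 2 ≤ 4 * (fr δ s t + fr δ t s) + 2 * C ^ 2 * δ := by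
  unfold fr
  have a1 : ‖r - 1‖ ≤ 2 := (norm_sub_le _ _).trans (by rw [hr, norm_one]; norm_num)
  have a2 := pow_le_pow_left₀ (norm_nonneg _) a1 2
  have a3 := pow_le_pow_left₀ (norm_nonneg _) h 2
  have a4 : ‖r - 1‖ ^ 2 ≤ 2 * C ^ 2 * (‖s - 1‖ ^ 2 + ‖t - 1‖ ^ 2) := by
    refine a3.trans ?_
    rw [mul_pow]
    linarith only [sq_nonneg C, sq_nonneg (‖s - 1‖ - ‖t - 1‖),
      mul_nonneg (sq_nonneg C) (sq_nonneg (‖s - 1‖ - ‖t - 1‖)), sq_nonneg C, sq_nonneg (‖s - (1 : ℂ)‖ - ‖t - (1 : ℂ)‖)]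
  rw [add_comm (‖t - 1‖ ^ 2), ← add_div]
  set D := ‖s - 1‖ ^ 2 + ‖t - 1‖ ^ 2 with hD
  have hD0 : 0 ≤ D := by positivity
  have e : 4 * (D / (D + δ)) + 2 * C ^ 2 * δ = (4 * D + 2 * C ^ 2 * δ * (D + δ)) / (D + δ) := by
    field_simp
  rw [e, le_div_iff₀ (by positivity)]
  have b1 := mul_le_mul_of_nonneg_right a2 hD0
  have b2 := mul_le_mul_of_nonneg_right a4 hδ.le
  have b3 : 0 ≤ C ^ 2 * δ * δ := by positivity
  linarith only [b1, b2, b3]

theorem exists_model {B : Type} [CStarAlgebra B] {u v : B} (hu : u ∈ unitary B)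
    (hv : v ∈ unitary B) (h : Commute u v) :
    ∃ (Ω : Type) (_ : TopologicalSpace Ω) (_ : CompactSpace Ω) (Φ : C(Ω, ℂ) →⋆ₐ[ℂ] B)
      (s t : C(Ω, ℂ)), Φ s = u ∧ Φ t = v ∧ (∀ ω, ‖s ω‖ = 1) ∧ (∀ ω, ‖t ω‖ = 1) := by
  have c1 : ∀ {a b : B}, b ∈ unitary B → Commute a b → a * star b = star b * a := by
    intro a b hb hab
    calc a * star b = (star b * b) * a * star b := by rw [hb.1, one_mul]
      _ = star b * a * (b * star b) := by
        rw [mul_assoc (star b) b a, ← hab.eq]; simp only [mul_assoc]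
      _ = star b * a := by rw [hb.2, mul_one]
  let S₀ := StarAlgebra.adjoin ℂ ({u, v} : Set B)
  have hc : IsMulCommutative S₀ := by
    refine StarAlgebra.isMulCommutative_adjoin ℂ ?_ ?_
    · rintro x (rfl | rfl) y (rfl | rfl)
      · rfl
      · exact h.eq
      · exact h.symm.eq
      · rfl
    · rintro x (rfl | rfl) y (rfl | rfl)
      · exact c1 hu (Commute.refl _)
      · exact c1 hv h
      · exact c1 hu h.symm
      · exact c1 hv (Commute.refl _)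
  let S := S₀.topologicalClosure
  haveI hS : IsClosed (S : Set B) := S₀.isClosed_topologicalClosure
  have hm : ∀ a b : S, a * b = b * a :=
    (S₀.commRingTopologicalClosure fun a b => hc.is_comm.comm a b).mul_comm
  letI : CommCStarAlgebra S := { StarSubalgebra.cstarAlgebra S with mul_comm := hm }
  have hu' : u ∈ S := S₀.le_topologicalClosure (StarAlgebra.subset_adjoin ℂ _ (by simp))
  have hv' : v ∈ S := S₀.le_topologicalClosure (StarAlgebra.subset_adjoin ℂ _ (by simp))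
  have hn : ∀ (a : S), (a : B) ∈ unitary B → ∀ ω, ‖gelfandStarTransform S a ω‖ = 1 := by
    intro a ha ω
    have e : star a * a = 1 := Subtype.ext ha.1
    have e2 := congrArg (fun f => gelfandStarTransform S f ω) e
    simp only [map_mul, map_star, map_one, ContinuousMap.mul_apply, ContinuousMap.star_apply,
      ContinuousMap.one_apply] at e2
    have e3 := congrArg norm e2
    rw [norm_mul, norm_star, norm_one] at e3
    nlinarith [norm_nonneg (gelfandStarTransform S a ω)]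
  refine ⟨WeakDual.characterSpace ℂ S, inferInstance, inferInstance,
    S.subtype.comp ((gelfandStarTransform S).symm : _ →⋆ₐ[ℂ] S), gelfandStarTransform S ⟨u, hu'⟩,
    gelfandStarTransform S ⟨v, hv'⟩, ?_, ?_, hn _ hu, hn _ hv⟩
  · change ((gelfandStarTransform S).symm (gelfandStarTransform S ⟨u, hu'⟩) : B) = u
    rw [StarAlgEquiv.symm_apply_apply]
  · change ((gelfandStarTransform S).symm (gelfandStarTransform S ⟨v, hv'⟩) : B) = v
    rw [StarAlgEquiv.symm_apply_apply]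

end Pool.Agent.Work.MP_913c95_al
end

-- merged part: Pool.Agent.Work.MP_913c95_al.RelT
section
/-!
Relative property (T) for the plane lattice normalised by two elementary matrices.
-/

namespace Pool.Agent.Work.MP_913c95_al

open scoped InnerProductSpace

variable {H : Type} [NormedAddCommGroup H] [InnerProductSpace ℂ H] [CompleteSpace H]

/-- A unitary as a bounded operator. -/
noncomputable def op : (H ≃ₗᵢ[ℂ] H) →* (H →L[ℂ] H) :=
  (unitary (H →L[ℂ] H)).subtype.comp (Unitary.linearIsometryEquiv (𝕜 := ℂ) (H := H)).symm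

theorem op_apply (W : H ≃ₗᵢ[ℂ] H) (ξ : H) : op W ξ = W ξ := rfl

theorem op_mem (W : H ≃ₗᵢ[ℂ] H) : op W ∈ unitary (H →L[ℂ] H) :=
  ((Unitary.linearIsometryEquiv (𝕜 := ℂ) (H := H)).symm W).2

theorem star_op (W : H ≃ₗᵢ[ℂ] H) : star (op W) = op W⁻¹ := by
  calc star (op W) = star (op W) * (op W * op W⁻¹) := by
        rw [← map_mul, mul_inv_cancel, map_one, mul_one]
    _ = op W⁻¹ := by rw [← mul_assoc, (op_mem W).1, one_mul]

section model

variable {Ω : Type} [TopologicalSpace Ω] [CompactSpace Ω]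

/-- The state attached to a vector. -/
noncomputable def mu (Φ : C(Ω, ℂ) →⋆ₐ[ℂ] (H →L[ℂ] H)) (ξ : H) (f : C(Ω, ℂ)) : ℝ :=
  (⟪ξ, Φ f ξ⟫_ℂ).re

theorem mu_star_mul (Φ : C(Ω, ℂ) →⋆ₐ[ℂ] (H →L[ℂ] H)) (ξ : H) (g : C(Ω, ℂ)) :
    mu Φ ξ (star g * g) = ‖Φ g ξ‖ ^ 2 := by
  unfold mu
  rw [map_mul, map_star, ContinuousLinearMap.mul_apply, ContinuousLinearMap.star_eq_adjoint,
    ContinuousLinearMap.adjoint_inner_right, inner_self_eq_norm_sq_to_K]
  norm_cast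

theorem mu_nonneg (Φ : C(Ω, ℂ) →⋆ₐ[ℂ] (H →L[ℂ] H)) (ξ : H) (f : C(Ω, ℂ)) (r : Ω → ℝ)
    (hf : ∀ ω, f ω = r ω) (hr : ∀ ω, 0 ≤ r ω) : 0 ≤ mu Φ ξ f := by
  let g : C(Ω, ℂ) := ⟨fun ω => (Real.sqrt (f ω).re : ℂ), by fun_prop⟩
  have e : f = star g * g := by
    ext ω
    simp only [g, ContinuousMap.mul_apply, ContinuousMap.star_apply, ContinuousMap.coe_mk,
      Complex.star_def, Complex.conj_ofReal, hf, Complex.ofReal_re]
    rw [← Complex.ofReal_mul, Real.mul_self_sqrt (hr ω)]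
  rw [e, mu_star_mul]
  positivity

theorem mu_add (Φ : C(Ω, ℂ) →⋆ₐ[ℂ] (H →L[ℂ] H)) (ξ : H) (f g : C(Ω, ℂ)) :
    mu Φ ξ (f + g) = mu Φ ξ f + mu Φ ξ g := by
  simp [mu, inner_add_right]

theorem mu_sub (Φ : C(Ω, ℂ) →⋆ₐ[ℂ] (H →L[ℂ] H)) (ξ : H) (f g : C(Ω, ℂ)) :
    mu Φ ξ (f - g) = mu Φ ξ f - mu Φ ξ g := by
  simp [mu, inner_sub_right]

theorem mu_smul (Φ : C(Ω, ℂ) →⋆ₐ[ℂ] (H →L[ℂ] H)) (ξ : H) (c : ℝ) (f : C(Ω, ℂ)) :
    mu Φ ξ ((c : ℂ) • f) = c * mu Φ ξ f := by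
  unfold mu
  rw [map_smul, ContinuousLinearMap.smul_apply, inner_smul_right, Complex.re_ofReal_mul]

theorem mu_one (Φ : C(Ω, ℂ) →⋆ₐ[ℂ] (H →L[ℂ] H)) (ξ : H) : mu Φ ξ 1 = ‖ξ‖ ^ 2 := by
  have := mu_star_mul Φ ξ 1
  simpa using this

/-- Squared distance to one. -/
noncomputable def nm (s : C(Ω, ℂ)) : C(Ω, ℂ) := star (s - 1) * (s - 1)

theorem nm_apply (s : C(Ω, ℂ)) (ω : Ω) : nm s ω = ((‖s ω - 1‖ ^ 2 : ℝ) : ℂ) := by
  simp only [nm, ContinuousMap.mul_apply, ContinuousMap.star_apply, ContinuousMap.sub_apply,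
    ContinuousMap.one_apply, Complex.star_def]
  rw [Complex.conj_mul', Complex.ofReal_pow]

theorem mu_nm (Φ : C(Ω, ℂ) →⋆ₐ[ℂ] (H →L[ℂ] H)) (ξ : H) {s : C(Ω, ℂ)} {W : H ≃ₗᵢ[ℂ] H}
    (h : Φ s = op W) : mu Φ ξ (nm s) = ‖W ξ - ξ‖ ^ 2 := by
  rw [nm, mu_star_mul, map_sub, h, map_one]
  rfl

theorem continuous_fr {δ : ℝ} (hδ : 0 < δ) (s t : C(Ω, ℂ)) :
    Continuous fun ω => fr δ (s ω) (t ω) := by
  unfold fr
  refine Continuous.div (by fun_prop) (by fun_prop) fun ω => ?_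
  positivity

/-- The test function in the model. -/
noncomputable def Fr {δ : ℝ} (hδ : 0 < δ) (s t : C(Ω, ℂ)) : C(Ω, ℂ) :=
  ⟨fun ω => (fr δ (s ω) (t ω) : ℂ), Complex.continuous_ofReal.comp (continuous_fr hδ s t)⟩

theorem Fr_apply {δ : ℝ} (hδ : 0 < δ) (s t : C(Ω, ℂ)) (ω : Ω) :
    Fr hδ s t ω = (fr δ (s ω) (t ω) : ℂ) := rfl

theorem Fr_mul {δ : ℝ} (hδ : 0 < δ) (s t : C(Ω, ℂ)) :
    Fr hδ s t * (nm s + nm t + (δ : ℂ) • 1) = nm s := by
  ext ω
  simp only [ContinuousMap.mul_apply, ContinuousMap.add_apply, Fr_apply, nm_apply,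
    ContinuousMap.smul_apply, ContinuousMap.one_apply, smul_eq_mul, mul_one]
  rw [← Complex.ofReal_add, ← Complex.ofReal_add, ← Complex.ofReal_mul, fr,
    div_mul_cancel₀ _ (by positivity)]

theorem exists_den_inv {δ : ℝ} (hδ : 0 < δ) (s t : C(Ω, ℂ)) :
    ∃ I : C(Ω, ℂ), (nm s + nm t + (δ : ℂ) • 1) * I = 1 := by
  refine ⟨⟨fun ω => (((‖s ω - 1‖ ^ 2 + ‖t ω - 1‖ ^ 2 + δ)⁻¹ : ℝ) : ℂ),
    Complex.continuous_ofReal.comp (Continuous.inv₀ (by fun_prop) fun ω => by positivity)⟩, ?_⟩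
  ext ω
  simp only [ContinuousMap.mul_apply, ContinuousMap.add_apply, nm_apply,
    ContinuousMap.smul_apply, ContinuousMap.one_apply, smul_eq_mul, mul_one,
    ContinuousMap.coe_mk]
  rw [← Complex.ofReal_add, ← Complex.ofReal_add, ← Complex.ofReal_mul,
    mul_inv_cancel₀ (by positivity), Complex.ofReal_one]

theorem Fr_conj (Φ : C(Ω, ℂ) →⋆ₐ[ℂ] (H →L[ℂ] H)) {δ : ℝ} (hδ : 0 < δ) {s t s' t' : C(Ω, ℂ)}
    (W : H ≃ₗᵢ[ℂ] H) (hs : Φ s' = op W * Φ s * op W⁻¹) (ht : Φ t' = op W * Φ t * op W⁻¹) :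
    Φ (Fr hδ s' t') = op W * Φ (Fr hδ s t) * op W⁻¹ := by
  have i1 : op W * op W⁻¹ = 1 := by rw [← map_mul, mul_inv_cancel, map_one]
  have i2 : ∀ x, op W⁻¹ * (op W * x) = x := fun x => by
    rw [← mul_assoc, ← map_mul, inv_mul_cancel, map_one, one_mul]
  have hn : ∀ {s s' : C(Ω, ℂ)}, Φ s' = op W * Φ s * op W⁻¹ →
      Φ (nm s') = op W * Φ (nm s) * op W⁻¹ := by
    intro s s' hs
    have e : Φ s' - 1 = op W * (Φ s - 1) * op W⁻¹ := by
      rw [hs, mul_sub, sub_mul, mul_one, i1]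
    simp only [nm, map_mul, map_star, map_sub, map_one]
    rw [e, star_mul, star_mul, star_op, star_op, inv_inv]
    simp only [mul_assoc, i2]
  have hd : Φ (nm s' + nm t' + (δ : ℂ) • 1) =
      op W * Φ (nm s + nm t + (δ : ℂ) • 1) * op W⁻¹ := by
    simp only [map_add, hn hs, hn ht, map_smul, map_one, mul_add, add_mul, mul_smul_comm,
      smul_mul_assoc, mul_one, i1]
  obtain ⟨I, hI⟩ := exists_den_inv hδ s' t'
  have e1 := congrArg Φ (Fr_mul hδ s' t')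
  have e2 := congrArg Φ (Fr_mul hδ s t)
  have e3 := congrArg Φ hI
  rw [map_mul] at e1 e2 e3
  rw [map_one] at e3
  rw [hn hs, ← e2] at e1
  calc Φ (Fr hδ s' t') = Φ (Fr hδ s' t') * Φ (nm s' + nm t' + (δ : ℂ) • 1) * Φ I := by
        rw [mul_assoc, e3, mul_one]
    _ = op W * Φ (Fr hδ s t) * op W⁻¹ * (Φ (nm s' + nm t' + (δ : ℂ) • 1) * Φ I) := by
        rw [e1, hd]
        simp only [mul_assoc, i2]
    _ = _ := by rw [e3, mul_one]

theorem mu_conj (Φ : C(Ω, ℂ) →⋆ₐ[ℂ] (H →L[ℂ] H)) {δ : ℝ} (hδ : 0 < δ) {s t s' t' : C(Ω, ℂ)}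
    (W : H ≃ₗᵢ[ℂ] H) (hs : Φ s' = op W * Φ s * op W⁻¹) (ht : Φ t' = op W * Φ t * op W⁻¹)
    {ξ : H} (hξ : ‖ξ‖ ≤ 1) :
    mu Φ ξ (Fr hδ s' t') ≤ mu Φ ξ (Fr hδ s t) + 2 * ‖W ξ - ξ‖ := by
  have hF : ‖Φ (Fr hδ s t)‖ ≤ 1 := by
    refine (NonUnitalStarAlgHom.norm_apply_le Φ _).trans ?_
    rw [ContinuousMap.norm_le _ zero_le_one]
    intro ω
    rw [Fr_apply, Complex.norm_real, Real.norm_of_nonneg (fr_nonneg hδ _ _)]
    have := fr_add_le hδ (s ω) (t ω)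
    have := fr_nonneg hδ (t ω) (s ω)
    linarith
  unfold mu
  rw [Fr_conj Φ hδ W hs ht]
  set F := Φ (Fr hδ s t)
  have e : ⟪ξ, (op W * F * op W⁻¹) ξ⟫_ℂ =
      ⟪ξ, F ξ⟫_ℂ + (⟪W⁻¹ ξ - ξ, F (W⁻¹ ξ)⟫_ℂ + ⟪ξ, F (W⁻¹ ξ - ξ)⟫_ℂ) := by
    have e1 : ⟪ξ, (op W * F * op W⁻¹) ξ⟫_ℂ = ⟪W⁻¹ ξ, F (W⁻¹ ξ)⟫_ℂ := by
      rw [← W.inner_map_map (W⁻¹ ξ)]
      congr 1
      exact (W.apply_symm_apply ξ).symm
    rw [e1, inner_sub_left, map_sub, inner_sub_right]
    ring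
  rw [e, Complex.add_re]
  have a1 : ‖⟪W⁻¹ ξ - ξ, F (W⁻¹ ξ)⟫_ℂ‖ ≤ ‖W ξ - ξ‖ := by
    refine (norm_inner_le_norm _ _).trans ?_
    rw [disp_inv]
    refine mul_le_of_le_one_right (norm_nonneg _) ((F.le_opNorm _).trans ?_)
    rw [LinearIsometryEquiv.norm_map]
    exact mul_le_one₀ hF (norm_nonneg _) hξ
  have a2 : ‖⟪ξ, F (W⁻¹ ξ - ξ)⟫_ℂ‖ ≤ ‖W ξ - ξ‖ := by
    refine (norm_inner_le_norm _ _).trans ?_
    refine (mul_le_of_le_one_left (norm_nonneg _) hξ).trans ((F.le_opNorm _).trans ?_)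
    rw [disp_inv]
    exact mul_le_of_le_one_left (norm_nonneg _) hF
  have a3 := (Complex.re_le_norm _).trans
    (norm_add_le ⟪W⁻¹ ξ - ξ, F (W⁻¹ ξ)⟫_ℂ ⟪ξ, F (W⁻¹ ξ - ξ)⟫_ℂ)
  linarith only [a1, a2, a3]

theorem exists_rep (Φ : C(Ω, ℂ) →⋆ₐ[ℂ] (H →L[ℂ] H)) {s t : C(Ω, ℂ)} {U V : H ≃ₗᵢ[ℂ] H}
    (hU : Φ s = op U) (hV : Φ t = op V) (hs : ∀ ω, ‖s ω‖ = 1) (ht : ∀ ω, ‖t ω‖ = 1)
    {W : H ≃ₗᵢ[ℂ] H} (hW : W ∈ Subgroup.closure {U, V}) :
    ∃ (r : C(Ω, ℂ)) (C : ℝ), Φ r = op W ∧ (∀ ω, ‖r ω‖ = 1) ∧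
      ∀ ω, ‖r ω - 1‖ ≤ C * (‖s ω - 1‖ + ‖t ω - 1‖) := by
  induction hW using Subgroup.closure_induction with
  | mem x hx =>
    rcases hx with rfl | rfl
    · exact ⟨s, 1, hU, hs, fun ω => by linarith [norm_nonneg (t ω - 1)]⟩
    · exact ⟨t, 1, hV, ht, fun ω => by linarith [norm_nonneg (s ω - 1)]⟩
  | one => exact ⟨1, 0, by simp, by simp, by simp⟩
  | mul x y _ _ hx hy =>
    obtain ⟨r, C, h1, h2, h3⟩ := hx
    obtain ⟨r', C', h1', h2', h3'⟩ := hy
    refine ⟨r * r', C + C', by rw [map_mul, map_mul, h1, h1'], fun ω => by simp [h2, h2'],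
      fun ω => ?_⟩
    have e : (r * r') ω - 1 = r ω * (r' ω - 1) + (r ω - 1) := by
      rw [ContinuousMap.mul_apply]; ring
    rw [e]
    refine (norm_add_le _ _).trans ?_
    rw [norm_mul, h2, one_mul]
    have := h3 ω
    have := h3' ω
    linarith
  | inv x _ hx =>
    obtain ⟨r, C, h1, h2, h3⟩ := hx
    refine ⟨star r, C, by rw [map_star, h1, star_op], fun ω => by simp [h2], fun ω => ?_⟩
    rw [ContinuousMap.star_apply, norm_star_sub_one]
    exact h3 ω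

end model

theorem conj_pow_eq {G : Type} [Group G] {U V B : G} (h1 : B * U * B⁻¹ = U * V)
    (h2 : B * V * B⁻¹ = V) :
    B ^ 4 * U * (B ^ 4)⁻¹ = U * V ^ 4 ∧ (B ^ 4)⁻¹ * U * (B ^ 4)⁻¹⁻¹ = U * V⁻¹ ^ 4 ∧
      B ^ 4 * V * (B ^ 4)⁻¹ = V ∧ (B ^ 4)⁻¹ * V * (B ^ 4)⁻¹⁻¹ = V := by
  have c : Commute B V := by
    rw [commute_iff_eq, ← h2]
    conv_lhs => rw [h2]
    rw [h2, ← mul_inv_eq_iff_eq_mul]
    exact h2
  have k : ∀ n : ℕ, B ^ n * U * (B ^ n)⁻¹ = U * V ^ n := by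
    intro n
    induction n with
    | zero => simp
    | succ n ih =>
      calc B ^ (n + 1) * U * (B ^ (n + 1))⁻¹ = B * (B ^ n * U * (B ^ n)⁻¹) * B⁻¹ := by group
        _ = (B * U * B⁻¹) * (B * V ^ n * B⁻¹) := by rw [ih]; group
        _ = U * V ^ (n + 1) := by
          rw [h1, (c.pow_right n).eq]; group
  have c4 := c.pow_left 4
  refine ⟨k 4, ?_, ?_, ?_⟩
  · have e : U = B ^ 4 * (U * V⁻¹ ^ 4) * (B ^ 4)⁻¹ := by
      calc U = (U * V ^ 4) * V⁻¹ ^ 4 := by group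
        _ = B ^ 4 * U * ((B ^ 4)⁻¹ * V⁻¹ ^ 4) := by rw [← k 4]; group
        _ = _ := by rw [(c4.inv_inv.pow_right 4).eq]; group
    conv_lhs => rw [e]
    group
  · rw [c4.eq]; group
  · rw [c4.inv_left.eq]; group

theorem disp_pow4 (A : H ≃ₗᵢ[ℂ] H) (ξ : H) : ‖(A ^ 4) ξ - ξ‖ ≤ 4 * ‖A ξ - ξ‖ := by
  have a1 := disp_mul A A ξ
  have a2 := disp_mul (A * A) (A * A) ξ
  have e : A ^ 4 = A * A * (A * A) := by simp only [pow_succ, pow_zero, one_mul, mul_assoc]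
  rw [e]
  linarith only [a1, a2]

/-- Relative property (T), quantitative form. -/
theorem relT {U V A B : H ≃ₗᵢ[ℂ] H} (hUV : Commute U V) (hA1 : A * U * A⁻¹ = U)
    (hA2 : A * V * A⁻¹ = U * V) (hB1 : B * U * B⁻¹ = U * V) (hB2 : B * V * B⁻¹ = V)
    {ξ : H} (hξ : ‖ξ‖ = 1) {ε : ℝ} (hε : ε ≤ 1) (eU : ‖U ξ - ξ‖ ≤ ε) (eV : ‖V ξ - ξ‖ ≤ ε)
    (eA : ‖A ξ - ξ‖ ≤ ε) (eB : ‖B ξ - ξ‖ ≤ ε) {W : H ≃ₗᵢ[ℂ] H}
    (hW : W ∈ Subgroup.closure {U, V}) : ‖W ξ - ξ‖ ^ 2 ≤ 20000 * ε := by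
  obtain ⟨Ω, _, _, Φ, s, t, hU, hV, hs, ht⟩ := exists_model (op_mem U) (op_mem V) (hUV.map op)
  obtain ⟨r, C, hr1, hr2, hr3⟩ := exists_rep Φ hU hV hs ht hW
  obtain ⟨b1, b2, b3, b4⟩ := conj_pow_eq hB1 hB2
  obtain ⟨a1, a2, a3, a4⟩ := conj_pow_eq (U := V) (V := U) (hA2.trans hUV.eq) hA1
  have key : ∀ δ : ℝ, 0 < δ → ‖W ξ - ξ‖ ^ 2 ≤ 20000 * ε + 2 * C ^ 2 * δ := by
    intro δ hδ
    have m1 := mu_conj Φ hδ (s := s) (t := t) (s' := s * t ^ 4) (t' := t) (B ^ 4)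
      (by rw [map_mul, map_pow, hU, hV, ← map_mul, ← map_mul, b1, map_mul, map_pow])
      (by rw [hV, ← map_mul, ← map_mul, b3]) hξ.le
    have m2 := mu_conj Φ hδ (s := s) (t := t) (s' := s * star t ^ 4) (t' := t) (B ^ 4)⁻¹
      (by rw [map_mul, map_pow, map_star, hU, hV, ← map_mul, ← map_mul, b2, map_mul, map_pow,
        star_op])
      (by rw [hV, ← map_mul, ← map_mul, b4]) hξ.le
    have m3 := mu_conj Φ hδ (s := t) (t := s) (s' := t * s ^ 4) (t' := s) (A ^ 4)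
      (by rw [map_mul, map_pow, hU, hV, ← map_mul, ← map_mul, a1, map_mul, map_pow])
      (by rw [hU, ← map_mul, ← map_mul, a3]) hξ.le
    have m4 := mu_conj Φ hδ (s := t) (t := s) (s' := t * star s ^ 4) (t' := s) (A ^ 4)⁻¹
      (by rw [map_mul, map_pow, map_star, hU, hV, ← map_mul, ← map_mul, a2, map_mul, map_pow,
        star_op])
      (by rw [hU, ← map_mul, ← map_mul, a4]) hξ.le
    rw [disp_inv] at m2 m4
    have d1 := disp_pow4 A ξ
    have d2 := disp_pow4 B ξ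
    have p1 := mu_nonneg Φ ξ
      (Fr hδ (s * t ^ 4) t + Fr hδ (s * star t ^ 4) t + Fr hδ (t * s ^ 4) s +
        Fr hδ (t * star s ^ 4) s + ((210 : ℝ) : ℂ) • (nm s + nm t) -
        ((21 / 10 : ℝ) : ℂ) • (Fr hδ s t + Fr hδ t s)) _
      (fun ω => by
        simp only [ContinuousMap.add_apply, ContinuousMap.sub_apply, ContinuousMap.smul_apply,
          Fr_apply, nm_apply, ContinuousMap.mul_apply, ContinuousMap.pow_apply,
          ContinuousMap.star_apply, smul_eq_mul]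
        norm_cast)
      (fun ω => sub_nonneg.2 (pointwise_main hδ (hs ω) (ht ω)))
    have p2 := mu_nonneg Φ ξ
      (((4 : ℝ) : ℂ) • (Fr hδ s t + Fr hδ t s) + ((2 * C ^ 2 * δ : ℝ) : ℂ) • 1 - nm r) _
      (fun ω => by
        simp only [ContinuousMap.add_apply, ContinuousMap.sub_apply, ContinuousMap.smul_apply,
          Fr_apply, nm_apply, ContinuousMap.one_apply, smul_eq_mul, mul_one]
        norm_cast)
      (fun ω => sub_nonneg.2 (pointwise_upper hδ (hr2 ω) (hr3 ω)))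
    simp only [mu_add, mu_sub, mu_smul, mu_one, mu_nm Φ ξ hU, mu_nm Φ ξ hV, mu_nm Φ ξ hr1, hξ,
      one_pow, mul_one] at p1 p2
    have n1 := norm_nonneg (U ξ - ξ)
    have n2 := norm_nonneg (V ξ - ξ)
    have q1 : ‖U ξ - ξ‖ ^ 2 ≤ ε := by linarith only [eU, hε, n1, mul_nonneg_of_nonpos_of_nonpos (Mathlib.Tactic.Linarith.sub_nonpos_of_le hε) (Mathlib.Tactic.Linarith.sub_nonpos_of_le n1), mul_nonneg_of_nonpos_of_nonpos (Mathlib.Tactic.Linarith.sub_nonpos_of_le eU) (Mathlib.Tactic.Linarith.sub_nonpos_of_le n1)]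
    have q2 : ‖V ξ - ξ‖ ^ 2 ≤ ε := by linarith only [eV, hε, n2, mul_nonneg_of_nonpos_of_nonpos (Mathlib.Tactic.Linarith.sub_nonpos_of_le hε) (Mathlib.Tactic.Linarith.sub_nonpos_of_le n2), mul_nonneg_of_nonpos_of_nonpos (Mathlib.Tactic.Linarith.sub_nonpos_of_le eV) (Mathlib.Tactic.Linarith.sub_nonpos_of_le n2)]
    linarith
  refine le_of_forall_pos_le_add fun η hη => ?_
  have := key (η / (2 * C ^ 2 + 1)) (by positivity)
  refine this.trans (add_le_add_right ?_ _)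
  rw [← mul_div_assoc, div_le_iff₀ (by positivity)]
  linarith only [hη]

end Pool.Agent.Work.MP_913c95_al
end

-- merged part: Pool.Agent.Work.MP_913c95_al.Proj
section
/-!
Projections onto fixed spaces of commuting shifted copies.
-/

namespace Pool.Agent.Work.MP_913c95_al

open scoped InnerProductSpace

variable {H : Type} [NormedAddCommGroup H] [InnerProductSpace ℂ H]

/-- `ζ` is the orthogonal projection of `ξ` onto the vectors fixed by `A`. -/
def IsProj (A : Set (H ≃ₗᵢ[ℂ] H)) (ξ ζ : H) : Prop :=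
  (∀ g ∈ A, g ζ = ζ) ∧ ∀ w : H, (∀ g ∈ A, g w = w) → ⟪ξ - ζ, w⟫_ℂ = 0

theorem IsProj.unique {A : Set (H ≃ₗᵢ[ℂ] H)} {ξ ζ ζ' : H} (h : IsProj A ξ ζ)
    (h' : IsProj A ξ ζ') : ζ = ζ' := by
  have hw : ∀ g ∈ A, g (ζ - ζ') = ζ - ζ' := fun g hg => by
    rw [map_sub, h.1 g hg, h'.1 g hg]
  have a1 := h.2 _ hw
  have a2 := h'.2 _ hw
  have : ⟪ζ - ζ', ζ - ζ'⟫_ℂ = 0 := by
    have e : ζ - ζ' = (ξ - ζ') - (ξ - ζ) := by abel
    calc ⟪ζ - ζ', ζ - ζ'⟫_ℂ = ⟪(ξ - ζ') - (ξ - ζ), ζ - ζ'⟫_ℂ := by rw [← e]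
      _ = 0 := by rw [inner_sub_left, a1, a2, sub_zero]
  exact sub_eq_zero.1 (inner_self_eq_zero.1 this)

theorem exists_isProj [CompleteSpace H] (A : Set (H ≃ₗᵢ[ℂ] H)) (ξ : H) :
    ∃ ζ, IsProj A ξ ζ := by
  let K : Submodule ℂ H :=
    { carrier := {w | ∀ g ∈ A, g w = w}
      add_mem' := fun {a b} ha hb g hg => by rw [map_add, ha g hg, hb g hg]
      zero_mem' := fun g _ => map_zero g
      smul_mem' := fun c a ha g hg => by rw [map_smul, ha g hg] }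
  have hK : IsClosed (K : Set H) := by
    have : (K : Set H) = ⋂ g ∈ A, {w | g w = w} := by
      ext w
      simp only [Set.mem_iInter]
      rfl
    rw [this]
    exact isClosed_biInter fun g _ => isClosed_eq g.continuous continuous_id
  haveI : CompleteSpace K := hK.completeSpace_coe
  exact ⟨K.starProjection ξ, K.starProjection_apply_mem ξ,
    fun w hw => K.starProjection_inner_eq_zero ξ w hw⟩

theorem IsProj.norm_le {A : Set (H ≃ₗᵢ[ℂ] H)} {ξ ζ w : H} (h : IsProj A ξ ζ)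
    (hw : ∀ g ∈ A, g w = w) : ‖ζ - ξ‖ ≤ ‖w - ξ‖ := by
  have hw' : ∀ g ∈ A, g (ζ - w) = ζ - w := fun g hg => by
    rw [map_sub, h.1 g hg, hw g hg]
  have a1 := h.2 _ hw'
  have a2 := norm_add_sq_eq_norm_sq_add_norm_sq_of_inner_eq_zero _ _ a1
  rw [sub_add_sub_cancel] at a2
  rw [norm_sub_rev ζ, norm_sub_rev w]
  refine (pow_le_pow_iff_left₀ (norm_nonneg _) (norm_nonneg _) two_ne_zero).1 ?_
  linarith only [a2, norm_nonneg (ζ - w), mul_self_nonneg ‖ζ - w‖]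

theorem IsProj.conj {A B : Set (H ≃ₗᵢ[ℂ] H)} {ξ ζ : H} (h : IsProj A ξ ζ) (a : H ≃ₗᵢ[ℂ] H)
    (ha : a ξ = ξ) (h1 : ∀ g ∈ A, a * g * a⁻¹ ∈ B) (h2 : ∀ g ∈ B, a⁻¹ * g * a ∈ A) :
    IsProj B ξ (a ζ) := by
  constructor
  · intro g hg
    have := h.1 _ (h2 g hg)
    have e : (a * (a⁻¹ * g * a)) ζ = a ζ := congrArg a this
    rw [← mul_assoc, ← mul_assoc, mul_inv_cancel, one_mul] at e
    exact e
  · intro w hw
    have := h.2 (a⁻¹ w) fun g hg => by
      have e := hw _ (h1 g hg)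
      have e' : (a⁻¹ * (a * g * a⁻¹)) w = a⁻¹ w := congrArg (a⁻¹ : H ≃ₗᵢ[ℂ] H) e
      rw [← mul_assoc, ← mul_assoc, inv_mul_cancel, one_mul] at e'
      exact e'
    rw [← a.inner_map_map, map_sub, ha] at this
    have e : a (a⁻¹ w) = w := a.apply_symm_apply w
    rwa [e] at this

theorem IsProj.eq_of_norm {A B : Set (H ≃ₗᵢ[ℂ] H)} {ξ ζ ζ' : H} (h : IsProj A ξ ζ)
    (h' : IsProj B ξ ζ') (hBA : B ⊆ A) (hn : ‖ζ'‖ = ‖ζ‖) : ζ' = ζ := by
  have a1 := h.2 ζ h.1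
  have a2 := h'.2 ζ fun g hg => h.1 g (hBA hg)
  have a3 : ⟪ζ' - ζ, ζ⟫_ℂ = 0 := by
    have e : ζ' - ζ = (ξ - ζ) - (ξ - ζ') := by abel
    rw [e, inner_sub_left, a1, a2, sub_zero]
  have a4 := norm_add_sq_eq_norm_sq_add_norm_sq_of_inner_eq_zero _ _ a3
  rw [sub_add_cancel, hn] at a4
  have : ‖ζ' - ζ‖ * ‖ζ' - ζ‖ = 0 := by linarith only [a4]
  exact sub_eq_zero.1 (norm_eq_zero.1 (mul_self_eq_zero.1 this))

theorem isProj_half {α : ℤ → (H ≃ₗᵢ[ℂ] H)} {a : H ≃ₗᵢ[ℂ] H}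
    (hα : ∀ j, a * α j * a⁻¹ = α (j + 1)) {ξ ζ : H} (ha : a ξ = ξ)
    (h : IsProj (α '' {j | 1 ≤ j}) ξ ζ) : IsProj (Set.range α) ξ ζ := by
  have h2 : IsProj (α '' {j | 2 ≤ j}) ξ (a ζ) := by
    refine h.conj a ha ?_ ?_
    · rintro _ ⟨j, hj, rfl⟩
      exact ⟨j + 1, by simp only [Set.mem_setOf_eq] at hj ⊢; omega, (hα j).symm⟩
    · rintro _ ⟨j, hj, rfl⟩
      refine ⟨j - 1, by simp only [Set.mem_setOf_eq] at hj ⊢; omega, ?_⟩
      have := hα (j - 1)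
      rw [sub_add_cancel] at this
      rw [← this]
      group
  have h3 : a ζ = ζ := h.eq_of_norm h2
    (Set.image_mono fun j hj => by simp only [Set.mem_setOf_eq] at hj ⊢; omega) (a.norm_map ζ)
  have h4 : a⁻¹ ζ = ζ := (LinearIsometryEquiv.symm_apply_eq _).2 h3.symm
  constructor
  · rintro _ ⟨j, rfl⟩
    induction j using Int.induction_on with
    | zero =>
      have e : α 0 = a⁻¹ * α (0 + 1) * a := by rw [← hα 0]; group
      rw [e]
      change a⁻¹ (α (0 + 1) (a ζ)) = ζ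
      rw [h3, h.1 _ ⟨0 + 1, by simp, rfl⟩, h4]
    | succ i ih =>
      rw [← hα]
      change a (α i (a⁻¹ ζ)) = ζ
      rw [h4, ih, h3]
    | pred i ih =>
      have e : α (-i - 1) = a⁻¹ * α (-i - 1 + 1) * a := by rw [← hα]; group
      rw [e, sub_add_cancel]
      change a⁻¹ (α (-i) (a ζ)) = ζ
      rw [h3, ih, h4]
  · intro w hw
    exact h.2 w fun g hg => hw g (Set.image_subset_range _ _ hg)

/-- The final step: the projection onto the fixed space of all shifted copies is fixed by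
every element which fixes `ξ` and commutes with one half of the copies. -/
theorem isProj_fixed [CompleteSpace H] {α : ℤ → (H ≃ₗᵢ[ℂ] H)} {a : H ≃ₗᵢ[ℂ] H}
    (hα : ∀ j, a * α j * a⁻¹ = α (j + 1)) {ξ ζ : H} (ha : a ξ = ξ)
    (h : IsProj (Set.range α) ξ ζ) {g : H ≃ₗᵢ[ℂ] H} (hg : g ξ = ξ)
    (hc : (∀ j, 1 ≤ j → Commute g (α j)) ∨ (∀ j, j ≤ -1 → Commute g (α j))) : g ζ = ζ := by
  have main : ∀ (α : ℤ → (H ≃ₗᵢ[ℂ] H)) (a : H ≃ₗᵢ[ℂ] H), (∀ j, a * α j * a⁻¹ = α (j + 1)) →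
      a ξ = ξ → IsProj (Set.range α) ξ ζ → (∀ j, 1 ≤ j → Commute g (α j)) → g ζ = ζ := by
    intro α a hα ha h hc
    obtain ⟨ζ', h'⟩ := exists_isProj (α '' {j | 1 ≤ j}) ξ
    have e := h.unique (isProj_half hα ha h')
    subst e
    refine (h'.conj g hg ?_ ?_).unique h'
    · rintro _ ⟨j, hj, rfl⟩
      exact ⟨j, hj, by rw [(hc j hj).eq]; group⟩
    · rintro _ ⟨j, hj, rfl⟩
      exact ⟨j, hj, by rw [mul_assoc, ← (hc j hj).eq]; group⟩
  rcases hc with hc | hc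
  · exact main α a hα ha h hc
  · refine main (fun j => α (-j)) a⁻¹ (fun j => ?_)
      ((LinearIsometryEquiv.symm_apply_eq _).2 ha.symm) ?_ fun j hj => hc _ (by omega)
    · have := hα (-(j + 1))
      rw [show -(j + 1) + 1 = -j by ring] at this
      rw [← this]
      group
    · have : Set.range (fun j => α (-j)) = Set.range α := by
        ext x
        constructor
        · rintro ⟨j, rfl⟩
          exact ⟨-j, rfl⟩
        · rintro ⟨j, rfl⟩
          exact ⟨-j, by simp⟩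
      rwa [this]

end Pool.Agent.Work.MP_913c95_al
end

-- merged part: Pool.Agent.Work.MP_913c95_al.Abstract
section
/-!
The abstract criterion for property (T).
-/

namespace Pool.Agent.Work.MP_913c95_al

open scoped InnerProductSpace commutatorElement

/-- The group theoretic data from which property (T) is derived. -/
structure Data (Γ : Type) [Group Γ] where
  Q : Set Γ
  T : Subgroup Γ
  S : Set Γ
  u : Γ
  v : Γ
  p : Γ
  q : Γ
  z : Γ
  a : Γ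
  α : ℤ → Γ
  C₁ : ℕ
  C₂ : ℕ
  huv : Commute u v
  hpu : p * u * p⁻¹ = u
  hpv : p * v * p⁻¹ = u * v
  hqu : q * u * q⁻¹ = u * v
  hqv : q * v * q⁻¹ = v
  uQ : u ∈ Q
  vQ : v ∈ Q
  pQ : p ∈ Q
  qQ : q ∈ Q
  hST : Subgroup.closure S = T
  one_mem : (1 : Γ) ∈ S
  hz : ∀ g, Commute z g
  hzc : z ∈ ⁅T, T⁆
  hS2 : ∀ s ∈ S, ∀ t ∈ S, ∃ c ∈ ({1, z, z⁻¹} : Set Γ), ∃ r ∈ S, t = s * (r * c)
  stepB : ∀ L : LenSys Γ, (∀ g ∈ Q, L.P 1 g) → (∀ g ∈ Subgroup.closure {u, v}, L.P 1 g) →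
    ∀ s ∈ S, L.P C₁ s
  aT : a ∈ T
  hα : ∀ j, a * α j * a⁻¹ = α (j + 1)
  stepC : ∀ L : LenSys Γ, (∀ g ∈ T, L.P 0 g) → (∀ g ∈ Subgroup.closure {u, v}, L.P 1 g) →
    ∀ g ∈ Subgroup.closure (Set.range α), L.P C₂ g
  gen : T ≤ Subgroup.closure
    {t | t ∈ T ∧ ((∀ j, 1 ≤ j → Commute t (α j)) ∨ (∀ j, j ≤ -1 → Commute t (α j)))}
  fin : Q ⊆ Subgroup.closure (T ∪ {α 0})

variable {Γ : Type} [Group Γ]

/-- Membership in a subgroup as a length system. -/
def memSys (G : Subgroup Γ) : LenSys Γ where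
  P _ g := g ∈ G
  one := G.one_mem
  mul := G.mul_mem
  inv := G.inv_mem
  mono _ h := h

/-- Push a length system on a subgroup to the ambient group. -/
def LenSys.push {G : Subgroup Γ} (L : LenSys G) : LenSys Γ where
  P n g := ∃ h : g ∈ G, L.P n ⟨g, h⟩
  one := ⟨G.one_mem, L.one⟩
  mul := fun ⟨h, hg⟩ ⟨h', hg'⟩ => ⟨G.mul_mem h h', L.mul hg hg'⟩
  inv := fun ⟨h, hg⟩ => ⟨G.inv_mem h, L.inv hg⟩
  mono := fun hmn ⟨h, hg⟩ => ⟨h, L.mono hmn hg⟩

theorem lemmaZ' {T : Subgroup Γ} {S : Set Γ} (hS : Subgroup.closure S = T) (h1 : (1 : Γ) ∈ S)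
    {z : Γ} (hz : ∀ g, Commute z g) (hzc : z ∈ ⁅T, T⁆)
    (hS2 : ∀ s ∈ S, ∀ t ∈ S, ∃ c ∈ ({1, z, z⁻¹} : Set Γ), ∃ r ∈ S, t = s * (r * c)) :
    ∃ K : ℝ, 0 ≤ K ∧ ∀ (G : Subgroup Γ) (hG : T ≤ G) (H : Type) [NormedAddCommGroup H]
      [InnerProductSpace ℂ H] [CompleteSpace H]
      (π : G →* (H ≃ₗᵢ[ℂ] H)) (ξ : H) (δ : ℝ), 0 ≤ δ →
      (∀ s : G, (s : Γ) ∈ S → ‖π s ξ - ξ‖ ≤ δ) →
      ∃ ζ : H, ‖ζ - ξ‖ ≤ K * δ ∧ ∀ g : G, (g : Γ) ∈ T → π g ζ = ζ := by
  subst hS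
  rw [← Subgroup.map_subtype_commutator] at hzc
  obtain ⟨z', hz', rfl⟩ := hzc
  obtain ⟨K, hK, h⟩ := lemmaZ (Subgroup.closure_closure_coe_preimage (k := S)) h1 (z := z')
    (fun g => Subtype.ext (hz g).eq) hz' (by
      intro s hs t ht
      obtain ⟨c, hc, r, hr, e⟩ := hS2 s hs t ht
      rcases hc with rfl | rfl | rfl
      · exact ⟨1, by simp, ⟨r, Subgroup.subset_closure hr⟩, hr, Subtype.ext e⟩
      · exact ⟨z', by simp, ⟨r, Subgroup.subset_closure hr⟩, hr, Subtype.ext e⟩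
      · exact ⟨z'⁻¹, by simp, ⟨r, Subgroup.subset_closure hr⟩, hr, Subtype.ext e⟩)
  refine ⟨K, hK, fun G hG H _ _ _ π ξ δ hδ hξ => ?_⟩
  obtain ⟨ζ, h1, h2⟩ := h H (π.comp (Subgroup.inclusion hG)) ξ δ hδ fun s hs => hξ _ hs
  exact ⟨ζ, h1, fun g hg => h2 ⟨g, hg⟩⟩

theorem Data.kazhdan (D : Data Γ) : ∃ ε : ℝ, 0 < ε ∧
    ∀ (H : Type) [NormedAddCommGroup H] [InnerProductSpace ℂ H] [CompleteSpace H]
      (π : Subgroup.closure D.Q →* (H ≃ₗᵢ[ℂ] H)) (ξ : H), ‖ξ‖ = 1 →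
      (∀ g : Subgroup.closure D.Q, (g : Γ) ∈ D.Q → ‖π g ξ - ξ‖ ≤ ε) →
      ∃ w : H, w ≠ 0 ∧ ∀ g, π g w = w := by
  set G := Subgroup.closure D.Q with hG
  have hQ : ∀ g ∈ D.Q, g ∈ G := fun g hg => Subgroup.subset_closure hg
  have hX : Subgroup.closure {D.u, D.v} ≤ G := by
    rw [Subgroup.closure_le]
    rintro _ (rfl | rfl)
    · exact hQ _ D.uQ
    · exact hQ _ D.vQ
  have hTG : D.T ≤ G := by
    rw [← D.hST, Subgroup.closure_le]
    exact D.stepB (memSys G) hQ hX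
  have hAG : Subgroup.closure (Set.range D.α) ≤ G := D.stepC (memSys G) hTG hX
  obtain ⟨K₁, hK₁, h₁⟩ := lemmaZ' D.hST D.one_mem D.hz D.hzc D.hS2
  obtain ⟨K₂, hK₂, h₂⟩ := lemmaZ' (T := Subgroup.closure (Set.range D.α))
    (S := Subgroup.closure (Set.range D.α)) (Subgroup.closure_eq _) (Subgroup.one_mem _) (z := 1)
    Commute.one_left (Subgroup.one_mem _) (fun s hs t ht => ⟨1, by simp, s⁻¹ * t,
      Subgroup.mul_mem _ (Subgroup.inv_mem _ hs) ht, by group⟩)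
  set M : ℝ := K₁ * D.C₁ + K₂ * (D.C₂ * (1 + 2 * (K₁ * D.C₁))) + 1 with hM
  have hM1 : 1 ≤ M := by
    have : 0 ≤ K₁ * D.C₁ + K₂ * (D.C₂ * (1 + 2 * (K₁ * D.C₁))) := by positivity
    linarith only [this]
  set η : ℝ := M⁻¹ with hη
  have hη0 : 0 < η := by positivity
  have hη1 : η ≤ 1 := inv_le_one_of_one_le₀ hM1
  refine ⟨η ^ 2 / 20000, by positivity, fun H _ _ _ π ξ hξ hQξ => ?_⟩
  have hεη : η ^ 2 / 20000 ≤ η := by linarith only [hη0, hη1, mul_nonneg_of_nonpos_of_nonpos (le_of_lt (Mathlib.Tactic.Linarith.sub_neg_of_lt hη0)) (Mathlib.Tactic.Linarith.sub_nonpos_of_le hη1)]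
  have hXξ : ∀ g : G, (g : Γ) ∈ Subgroup.closure {D.u, D.v} → ‖π g ξ - ξ‖ ≤ η := by
    intro g hg
    have hmem : π g ∈ Subgroup.closure {π ⟨D.u, hQ _ D.uQ⟩, π ⟨D.v, hQ _ D.vQ⟩} := by
      obtain ⟨g, hg'⟩ := g
      change g ∈ _ at hg
      induction hg using Subgroup.closure_induction'' with
      | one => exact (map_one π).symm ▸ Subgroup.one_mem _
      | mem x hx =>
        rcases hx with rfl | rfl
        · exact Subgroup.subset_closure (by simp)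
        · exact Subgroup.subset_closure (by simp)
      | inv_mem x hx =>
        rcases hx with rfl | rfl
        · exact (map_inv π ⟨D.u, hQ _ D.uQ⟩).symm ▸
            Subgroup.inv_mem _ (Subgroup.subset_closure (by simp))
        · exact (map_inv π ⟨D.v, hQ _ D.vQ⟩).symm ▸
            Subgroup.inv_mem _ (Subgroup.subset_closure (by simp))
      | mul x y hx hy ihx ihy =>
        exact (map_mul π ⟨x, hX hx⟩ ⟨y, hX hy⟩).symm ▸ Subgroup.mul_mem _ (ihx _) (ihy _)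
    have := relT (U := π ⟨D.u, hQ _ D.uQ⟩) (V := π ⟨D.v, hQ _ D.vQ⟩) (A := π ⟨D.p, hQ _ D.pQ⟩)
      (B := π ⟨D.q, hQ _ D.qQ⟩) (Commute.map (Subtype.ext D.huv.eq) π)
      (by rw [← map_inv, ← map_mul, ← map_mul]; exact congrArg π (Subtype.ext D.hpu))
      (by rw [← map_inv, ← map_mul, ← map_mul, ← map_mul]; exact congrArg π (Subtype.ext D.hpv))
      (by rw [← map_inv, ← map_mul, ← map_mul, ← map_mul]; exact congrArg π (Subtype.ext D.hqu))
      (by rw [← map_inv, ← map_mul, ← map_mul]; exact congrArg π (Subtype.ext D.hqv))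
      hξ (hεη.trans hη1) (hQξ _ D.uQ) (hQξ _ D.vQ) (hQξ _ D.pQ) (hQξ _ D.qQ) hmem
    exact (pow_le_pow_iff_left₀ (norm_nonneg _) hη0.le two_ne_zero).1 (by linarith only [this])
  obtain ⟨ξ', e1, f1⟩ := h₁ G hTG H π ξ (D.C₁ * η) (by positivity) (by
    intro s hs
    obtain ⟨_, h⟩ := D.stepB (dispSys π ξ η hη0.le).push
      (fun g hg => ⟨hQ g hg, by
        change ‖π ⟨g, _⟩ ξ - ξ‖ ≤ (1 : ℕ) * η
        rw [Nat.cast_one, one_mul]
        exact (hQξ _ hg).trans hεη⟩)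
      (fun g hg => ⟨hX hg, by
        change ‖π ⟨g, _⟩ ξ - ξ‖ ≤ (1 : ℕ) * η
        rw [Nat.cast_one, one_mul]
        exact hXξ _ hg⟩) s hs
    exact h)
  obtain ⟨ζ₀, e2, f2⟩ := h₂ G hAG H π ξ' (D.C₂ * ((1 + 2 * (K₁ * D.C₁)) * η)) (by positivity) (by
    intro s hs
    obtain ⟨_, h⟩ := D.stepC (dispSys π ξ' ((1 + 2 * (K₁ * D.C₁)) * η) (by positivity)).push
      (fun g hg => ⟨hTG hg, by
        change ‖π ⟨g, _⟩ ξ' - ξ'‖ ≤ (0 : ℕ) * _
        rw [f1 _ hg]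
        simp⟩)
      (fun g hg => ⟨hX hg, by
        change ‖π ⟨g, _⟩ ξ' - ξ'‖ ≤ (1 : ℕ) * _
        rw [Nat.cast_one, one_mul]
        have e : π ⟨g, hX hg⟩ ξ' - ξ' =
            π ⟨g, hX hg⟩ (ξ' - ξ) + (π ⟨g, hX hg⟩ ξ - ξ) - (ξ' - ξ) := by
          rw [map_sub]; abel
        rw [e]
        refine (norm_sub_le _ _).trans ((add_le_add_left (norm_add_le _ _) _).trans ?_)
        rw [LinearIsometryEquiv.norm_map]
        have := hXξ ⟨g, hX hg⟩ hg
        linarith only [hX, hg, e1, this]⟩) s hs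
    exact h)
  have hαG : ∀ j, D.α j ∈ G := fun j => hAG (Subgroup.subset_closure ⟨j, rfl⟩)
  obtain ⟨ζ, hζ⟩ := exists_isProj (Set.range fun j => π ⟨D.α j, hαG j⟩) ξ'
  have e3 := hζ.norm_le (w := ζ₀) (by
    rintro _ ⟨j, rfl⟩
    exact f2 _ (Subgroup.subset_closure ⟨j, rfl⟩))
  have hfix : ∀ (A : Set Γ), (∀ g ∈ A, ∃ h : g ∈ G, π ⟨g, h⟩ ζ = ζ) →
      ∀ g ∈ Subgroup.closure A, ∃ h : g ∈ G, π ⟨g, h⟩ ζ = ζ := by
    intro A hA g hg
    obtain ⟨n, hn⟩ := exists_len hg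
    obtain ⟨h, h'⟩ := hn (dispSys π ζ 0 le_rfl).push fun s hs => by
      obtain ⟨h, h'⟩ := hA s hs
      refine ⟨h, ?_⟩
      change ‖π ⟨s, _⟩ ζ - ζ‖ ≤ (1 : ℕ) * 0
      rw [h']
      simp
    refine ⟨h, ?_⟩
    change ‖π ⟨g, _⟩ ζ - ζ‖ ≤ n * 0 at h'
    rw [mul_zero] at h'
    exact sub_eq_zero.1 (norm_le_zero_iff.1 h')
  have hTζ : ∀ g ∈ D.T, ∃ h : g ∈ G, π ⟨g, h⟩ ζ = ζ := by
    intro g hg
    refine hfix _ ?_ g (D.gen hg)
    rintro t ⟨ht, hc⟩
    refine ⟨hTG ht, isProj_fixed (a := π ⟨D.a, hTG D.aT⟩) (fun j => ?_) (f1 _ D.aT) hζ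
      (f1 _ ht) ?_⟩
    · rw [← map_inv, ← map_mul, ← map_mul]
      exact congrArg π (Subtype.ext (D.hα j))
    · rcases hc with hc | hc
      · exact Or.inl fun j hj => Commute.map (Subtype.ext (hc j hj).eq) π
      · exact Or.inr fun j hj => Commute.map (Subtype.ext (hc j hj).eq) π
  refine ⟨ζ, ?_, fun g => ?_⟩
  · rintro rfl
    have a1 := norm_add_le (ξ - ξ') ξ'
    rw [sub_add_cancel, hξ, norm_sub_rev] at a1
    rw [zero_sub, norm_neg] at e3
    have a2 : M * η = 1 := mul_inv_cancel₀ (by positivity)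
    rw [hM] at a2
    linarith only [hη0, e1, e2, e3, a1, a2]
  · have h1 := hfix _ (by
      rintro t (ht | rfl)
      · exact hTζ t ht
      · exact ⟨hαG 0, hζ.1 _ ⟨0, rfl⟩⟩ : ∀ g ∈ (D.T : Set Γ) ∪ {D.α 0}, _)
    obtain ⟨_, h⟩ := hfix _ (fun g hg => h1 g (D.fin hg)) g g.2
    exact h

end Pool.Agent.Work.MP_913c95_al
end

-- merged part: Pool.Agent.Work.MP_913c95_al.Main
section
/-!
A finitely generated Kazhdan group of order automorphisms of the line.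
-/

namespace Pool.Agent.Work.MP_913c95_al

open scoped Pointwise commutatorElement

theorem exists_data {N : Set Hh} (hN : N.Countable) :
    ∃ D : Data Hh, D.Q.Finite ∧ N ⊆ D.T := by
  obtain ⟨B⟩ := nonempty_base
  choose! h₁ hh₁ using fun u (hu : u ∈ PosW) => B.transp1 hu
  choose! h₂ hh₂ using fun u (hu : u ∈ PosW) => B.transp2 hu
  obtain ⟨T, hTc, hTN, hTz, hTg⟩ := exists_T
    (N := N ∪ {B.a, B.b, B.c, B.v, B.g₀, B.cp, B.cm, tr (6 / 40), tr (1 / 2)} ∪ Set.range h₁ ∪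
      Set.range h₂)
    (((hN.union (Set.toFinite _).countable).union (Set.countable_range _)).union
      (Set.countable_range _)) (B.perfect _)
  have m : ∀ g ∈ ({B.a, B.b, B.c, B.v, B.g₀, B.cp, B.cm, tr (6 / 40), tr (1 / 2)} : Set Hh),
      g ∈ T := fun g hg => hTN (Or.inl (Or.inl (Or.inr hg)))
  have ma := m B.a (by simp)
  have mb := m B.b (by simp)
  have mh := m (tr (1 / 2)) (by simp)
  have mρ : ∀ f, B.ρ f ∈ T := by
    intro f
    induction f using FreeGroup.induction_on with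
    | C1 => rw [map_one]; exact T.one_mem
    | of x => cases x; exacts [B.ρ_false ▸ mb, B.ρ_true ▸ ma]
    | inv_of x h => rw [map_inv]; exact T.inv_mem h
    | mul x y hx hy => rw [map_mul]; exact T.mul_mem hx hy
  obtain ⟨β, hβ, hB⟩ := B.stepB hTc
  obtain ⟨X⟩ := B.nonempty_xsys hβ
  have hx : ∀ y, X.x y ∈ Subgroup.closure {X.x (1, 0), X.x (0, 1)} := by
    intro y
    have e : y = y.1 • ((1, 0) : ℤ × ℤ) + y.2 • ((0, 1) : ℤ × ℤ) := by ext <;> simp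
    rw [e, X.add, X.zsmul, X.zsmul]
    exact Subgroup.mul_mem _ (Subgroup.zpow_mem _ (Subgroup.subset_closure (by simp)) _)
      (Subgroup.zpow_mem _ (Subgroup.subset_closure (by simp)) _)
  have cp : ∀ y, B.a⁻¹ * B.b * X.x y * (B.a⁻¹ * B.b)⁻¹ = X.x (y.1 + y.2, y.2) := by
    intro y
    have := X.conj ((FreeGroup.of true)⁻¹ * FreeGroup.of false) y
    rw [map_mul, map_inv, B.ρ_true, B.ρ_false, map_mul, map_inv, bar_true, bar_false,
      LinearEquiv.mul_apply, mU_apply, mS_inv_apply, neg_neg] at this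
    exact this
  have cq : ∀ y, B.a * B.b⁻¹ * X.x y * (B.a * B.b⁻¹)⁻¹ = X.x (y.1, y.1 + y.2) := by
    intro y
    have := X.conj (FreeGroup.of true * (FreeGroup.of false)⁻¹) y
    rw [map_mul, map_inv, B.ρ_true, B.ρ_false, map_mul, map_inv, bar_true, bar_false,
      LinearEquiv.mul_apply, mU_inv_apply, mS_apply, neg_neg] at this
    exact this
  have ca : B.a * X.x (1, 0) * B.a⁻¹ = X.x (0, 1) := by
    have := X.conj (FreeGroup.of true) (1, 0)
    rw [B.ρ_true, bar_true] at this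
    exact this
  refine ⟨{
    Q := {X.x (1, 0), X.x (0, 1), B.a⁻¹ * B.b, B.a * B.b⁻¹, tr (6 / 40), B.g₀, B.cp, B.cm}
    T := T
    S := {s | s ∈ T ∧ Win s}
    u := X.x (1, 0)
    v := X.x (0, 1)
    p := B.a⁻¹ * B.b
    q := B.a * B.b⁻¹
    z := tr 1
    a := B.a
    α := X.α
    C₁ := 48
    C₂ := 8
    huv := by rw [commute_iff_eq, ← X.add, ← X.add, add_comm]
    hpu := by rw [cp]; rfl
    hpv := by rw [cp, ← X.add]; rfl
    hqu := by rw [cq, ← X.add]; rfl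
    hqv := by rw [cq]; rfl
    uQ := by simp
    vQ := by simp
    pQ := by simp
    qQ := by simp
    hST := closure_win mh
    one_mem := ⟨T.one_mem, by unfold Win; rw [one_smul]; norm_num⟩
    hz := tr_one_comm
    hzc := hTz
    hS2 := win_step (tr_one_eq ▸ T.mul_mem mh mh)
    stepB := fun L h1 h2 s hs => hB X L (h1 _ (by simp)) (h1 _ (by simp)) (h1 _ (by simp))
      (h1 _ (by simp)) (fun y => h2 _ (hx y)) s hs.1 hs.2
    aT := ma
    hα := fun j => by simp only [Base.XSys.α]; group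
    stepC := fun L h1 h2 => X.stepC ma mρ (m B.v (by simp))
      (fun u hu => ⟨h₁ u, hTN (Or.inl (Or.inr ⟨u, rfl⟩)), hh₁ u hu⟩)
      (fun u hu => ⟨h₂ u, hTN (Or.inr ⟨u, rfl⟩), hh₂ u hu⟩) L h1 fun y => h2 _ (hx y)
    gen := hTg.trans (Subgroup.closure_mono fun t ht => ⟨ht.1, ht.2.imp
      (fun h j hj => ((X.supp_α j).mono (B.D_pos hj)).commute h
        (arc_disjoint le_rfl (by norm_num)))
      (fun h j hj => ((X.supp_α j).mono (B.D_neg hj)).commute h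
        (arc_disjoint le_rfl (by norm_num)))⟩)
    fin := ?_ }, Set.toFinite _, fun g hg => hTN (Or.inl (Or.inl (Or.inl hg)))⟩
  have k : ∀ g ∈ T, g ∈ Subgroup.closure ((T : Set Hh) ∪ {X.α 0}) :=
    fun g hg => Subgroup.subset_closure (Or.inl hg)
  have hcj : ∀ {g y : Hh}, g ∈ T → y ∈ Subgroup.closure ((T : Set Hh) ∪ {X.α 0}) →
      g * y * g⁻¹ ∈ Subgroup.closure ((T : Set Hh) ∪ {X.α 0}) := fun hg hy =>
    Subgroup.mul_mem _ (Subgroup.mul_mem _ (k _ hg) hy) (k _ (T.inv_mem hg))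
  have k0 := hcj (T.inv_mem (m B.c (by simp))) (Subgroup.subset_closure (Or.inr rfl))
  have e0 : B.c⁻¹ * X.α 0 * B.c⁻¹⁻¹ = X.x (1, -1) := by simp only [Base.XSys.α]; group
  rw [e0] at k0
  have k1 := hcj (T.mul_mem ma (T.inv_mem mb)) k0
  rw [cq] at k1
  have k2 := hcj ma k1
  rintro g (rfl | rfl | rfl | rfl | hg)
  · exact k1
  · exact ca ▸ k2
  · exact k _ (T.mul_mem (T.inv_mem ma) mb)
  · exact k _ (T.mul_mem ma (T.inv_mem mb))
  · refine k _ (m g ?_)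
    rcases hg with rfl | rfl | rfl | rfl <;> simp

/-- Every countable set of lifts lies in a finitely generated Kazhdan group of lifts. -/
theorem exists_kazhdan {N : Set Hh} (hN : N.Countable) :
    ∃ G : Subgroup Hh, N ⊆ G ∧ Group.FG G ∧ ∃ Q : Finset G, ∃ ε : ℝ, 0 < ε ∧
      ∀ (H : Type) [NormedAddCommGroup H] [InnerProductSpace ℂ H] [CompleteSpace H]
        (π : G →* (H ≃ₗᵢ[ℂ] H)), (∃ v : H, ‖v‖ = 1 ∧ ∀ g ∈ Q, ‖π g v - v‖ < ε) →
        ∃ w : H, w ≠ 0 ∧ ∀ g : G, π g w = w := by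
  obtain ⟨D, hQ, hT⟩ := exists_data hN
  obtain ⟨ε, hε, h⟩ := D.kazhdan
  have hQ' : ((↑) ⁻¹' D.Q : Set (Subgroup.closure D.Q)).Finite :=
    hQ.preimage Subtype.val_injective.injOn
  refine ⟨Subgroup.closure D.Q, hT.trans ?_, ?_, hQ'.toFinset, ε, hε, ?_⟩
  · change D.T ≤ _
    rw [← D.hST, Subgroup.closure_le]
    refine D.stepB (memSys _) (fun g hg => Subgroup.subset_closure hg) (Subgroup.closure_mono ?_)
    rintro _ (rfl | rfl)
    exacts [D.uQ, D.vQ]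
  · rw [Group.fg_iff_subgroup_fg, Subgroup.fg_iff]
    exact ⟨D.Q, rfl, hQ⟩
  · rintro H _ _ _ π ⟨v, hv, hv'⟩
    exact h H π v hv fun g hg => (hv' g (hQ'.mem_toFinset.2 hg)).le

theorem infinite_of_mem {G : Subgroup Hh} (h : tr 1 ∈ G) : Infinite G := by
  refine Infinite.of_injective (fun n : ℤ => (⟨tr 1 ^ n, G.zpow_mem h n⟩ : G)) fun m n e => ?_
  have := congrArg (fun g : G => (g : Hh) • (0 : ℝ)) e
  simp only [tr_one_zpow, zero_add] at this
  exact_mod_cast this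

theorem exists_embed_interval : ∃ φ : (ℝ ≃o ℝ) →* (Set.Icc (0 : ℝ) 1 ≃ₜ Set.Icc (0 : ℝ) 1),
    Function.Injective φ ∧ ∀ g, Monotone (φ g) := by
  let e : WithBot (WithTop ℝ) ≃o Set.Icc (0 : ℝ) 1 :=
    EReal.expOrderIso.trans ENNReal.orderIsoUnitIntervalBirational
  let F : (ℝ ≃o ℝ) → (Set.Icc (0 : ℝ) 1 ≃o Set.Icc (0 : ℝ) 1) := fun g =>
    (e.symm.trans g.withTopCongr.withBotCongr).trans e
  refine ⟨MonoidHom.mk' (fun g => (F g).toHomeomorph) fun g h => ?_, fun g h hgh => ?_,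
    fun g => (F g).monotone⟩
  · refine Homeomorph.ext fun x => ?_
    change e ((h.trans g).withTopCongr.withBotCongr (e.symm x)) =
      e (g.withTopCongr.withBotCongr (e.symm (e (h.withTopCongr.withBotCongr (e.symm x)))))
    rw [e.symm_apply_apply, OrderIso.withTopCongr_trans, OrderIso.withBotCongr_trans]
    rfl
  · refine RelIso.ext fun x => ?_
    have := congrArg (fun f : Set.Icc (0 : ℝ) 1 ≃ₜ Set.Icc (0 : ℝ) 1 =>
      f (e ((x : WithTop ℝ) : WithBot (WithTop ℝ)))) hgh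
    change e (g.withTopCongr.withBotCongr (e.symm (e _))) =
      e (h.withTopCongr.withBotCongr (e.symm (e _))) at this
    rw [e.symm_apply_apply, e.apply_eq_iff_eq] at this
    exact WithTop.coe_injective (WithBot.coe_injective this)

theorem exists_embed_circle :
    ∃ φ : (ℝ ≃o ℝ) →* (Circle ≃ₜ Circle), Function.Injective φ := by
  let e₁ : OnePoint ℝ ≃ₜ Metric.sphere (0 : EuclideanSpace ℝ (Fin 2)) 1 :=
    onePointEquivSphereOfFinrankEq (by simp)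
  let e₂ : Metric.sphere (0 : EuclideanSpace ℝ (Fin 2)) 1 ≃ₜ Circle :=
    Complex.orthonormalBasisOneI.repr.symm.toHomeomorph.subtype fun x => by
      change _ ↔ Complex.orthonormalBasisOneI.repr.symm x ∈ Metric.sphere (0 : ℂ) 1
      simp only [mem_sphere_iff_norm, sub_zero, LinearIsometryEquiv.norm_map]
  let e := e₁.trans e₂
  refine ⟨MonoidHom.mk' (fun g => (e.symm.trans g.toHomeomorph.onePointCongr).trans e)
    fun g h => ?_, fun g h hgh => ?_⟩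
  · refine Homeomorph.ext fun x => ?_
    obtain ⟨y, rfl⟩ := e.surjective x
    change e (OnePoint.map (g * h) (e.symm (e y))) =
      e (OnePoint.map g (e.symm (e (OnePoint.map h (e.symm (e y))))))
    rw [e.symm_apply_apply, e.symm_apply_apply]
    cases y <;> rfl
  · refine RelIso.ext fun x => ?_
    have := congrArg (fun f : Circle ≃ₜ Circle => f (e (x : OnePoint ℝ))) hgh
    change e (OnePoint.map g (e.symm (e _))) = e (OnePoint.map h (e.symm (e _))) at this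
    rw [e.symm_apply_apply] at this
    exact OnePoint.coe_injective (e.injective this)

/-- The inclusion of the lifts in the order automorphisms. -/
noncomputable def Hh.incl : Hh →* (ℝ ≃o ℝ) := HZ.subtype

theorem Hh.incl_injective : Function.Injective Hh.incl := HZ.subtype_injective

end Pool.Agent.Work.MP_913c95_al
end
end
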