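import Mathlib

/-!
Definitions for the statement on circle homeomorphisms.
-/

namespace Pool.Agent.Work.MP_913c95_al

/-- A circle homeomorphism preserves orientation if it has a lift to the line which is an
increasing bijection commuting with the unit translation. -/
def OrientPres (φ : Circle ≃ₜ Circle) : Prop :=
  ∃ F : ℝ ≃o ℝ, (∀ x, F (x + 1) = F x + 1) ∧
    ∀ x : ℝ, φ (Circle.exp (2 * Real.pi * x)) = Circle.exp (2 * Real.pi * F x)

/-- Kazhdan's property (T) for a discrete group: a finite Kazhdan set and a Kazhdan constant. -/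
def Kazhdan (G : Type) [Group G] : Prop :=
  ∃ Q : Finset G, ∃ ε : ℝ, 0 < ε ∧
    ∀ (H : Type) [NormedAddCommGroup H] [InnerProductSpace ℂ H] [CompleteSpace H]
      (π : G →* (H ≃ₗᵢ[ℂ] H)), (∃ v : H, ‖v‖ = 1 ∧ ∀ g ∈ Q, ‖π g v - v‖ < ε) →
      ∃ w : H, w ≠ 0 ∧ ∀ g : G, π g w = w

end Pool.Agent.Work.MP_913c95_al
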