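import Pool.Agent.Work.MP_913c95_al.Main
import Pool.Agent.Work.MP_913c95_al.CircDefs

/-!
Descending lifts to the circle.
-/

namespace Pool.Agent.Work.MP_913c95_al

/-- The map of the additive circle induced by a lift. -/
noncomputable def down (g : Hh) : AddCircle (1 : ℝ) → AddCircle (1 : ℝ) :=
  Quotient.lift (fun x : ℝ => ((g • x : ℝ) : AddCircle (1 : ℝ))) fun x y h => by
    obtain ⟨n, hn⟩ := QuotientAddGroup.leftRel_apply.1 h
    have e : y = x + n := by
      simp only [zsmul_eq_mul, mul_one] at hn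
      linarith
    rw [e, g.add_int]
    refine QuotientAddGroup.eq.2 ⟨n, ?_⟩
    simp

theorem down_mk (g : Hh) (x : ℝ) :
    down g (x : AddCircle (1 : ℝ)) = ((g • x : ℝ) : AddCircle (1 : ℝ)) := rfl

theorem continuous_down (g : Hh) : Continuous (down g) :=
  Continuous.quotient_lift ((AddCircle.continuous_mk' 1).comp g.1.continuous) _

theorem down_mul (g h : Hh) (y : AddCircle (1 : ℝ)) : down (g * h) y = down g (down h y) := by
  induction y using QuotientAddGroup.induction_on with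
  | H x => rfl

theorem down_one (y : AddCircle (1 : ℝ)) : down 1 y = y := by
  induction y using QuotientAddGroup.induction_on with
  | H x => rfl

theorem exists_descend : ∃ p : Hh →* (Circle ≃ₜ Circle), ∀ (g : Hh) (x : ℝ),
    p g (Circle.exp (2 * Real.pi * x)) = Circle.exp (2 * Real.pi * (g • x)) := by
  let e : AddCircle (1 : ℝ) ≃ₜ Circle := AddCircle.homeomorphCircle one_ne_zero
  have he : ∀ x : ℝ, e (x : AddCircle (1 : ℝ)) = Circle.exp (2 * Real.pi * x) := fun x => by
    rw [AddCircle.homeomorphCircle_apply, AddCircle.toCircle_apply_mk, div_one]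
  let D : Hh → (AddCircle (1 : ℝ) ≃ₜ AddCircle (1 : ℝ)) := fun g =>
    { toFun := down g
      invFun := down g⁻¹
      left_inv := fun y => by rw [← down_mul, inv_mul_cancel, down_one]
      right_inv := fun y => by rw [← down_mul, mul_inv_cancel, down_one]
      continuous_toFun := continuous_down g
      continuous_invFun := continuous_down g⁻¹ }
  refine ⟨MonoidHom.mk' (fun g => (e.symm.trans (D g)).trans e) fun g h => ?_, fun g x => ?_⟩
  · refine Homeomorph.ext fun x => ?_
    change e (down (g * h) (e.symm x)) = e (down g (e.symm (e (down h (e.symm x)))))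
    rw [e.symm_apply_apply, down_mul]
  · change e (down g (e.symm _)) = _
    rw [← he, e.symm_apply_apply, down_mk, he]

theorem exp_surj (c : Circle) : ∃ x : ℝ, Circle.exp (2 * Real.pi * x) = c := by
  obtain ⟨t, ht⟩ := Circle.exp_surjective c
  exact ⟨t / (2 * Real.pi), by rw [mul_div_cancel₀ _ (by positivity), ht]⟩

theorem kazhdan_overgroup (Λ : Set (Circle ≃ₜ Circle)) (hΛ : Λ.Countable)
    (ho : ∀ φ ∈ Λ, OrientPres φ) :
    ∃ G : Subgroup (Circle ≃ₜ Circle), Λ ⊆ G ∧ (∀ φ ∈ G, OrientPres φ) ∧ Group.FG G ∧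
      Infinite G ∧ Kazhdan G := by
  classical
  obtain ⟨p, hp⟩ := exists_descend
  have hl : ∀ φ ∈ Λ, ∃ g : Hh, p g = φ := by
    intro φ hφ
    obtain ⟨F, h1, h2⟩ := ho φ hφ
    refine ⟨⟨F, h1⟩, Homeomorph.ext fun c => ?_⟩
    obtain ⟨x, rfl⟩ := exp_surj c
    rw [hp, h2]
    rfl
  choose! l hl using hl
  obtain ⟨G, hN, hfg, Q, ε, hε, hT⟩ := exists_kazhdan
    ((hΛ.image l).union (Set.countable_range fun n : ℕ => tr (1 / (n + 2))))
  let q : G →* G.map p := p.subgroupMap G
  have hq : Function.Surjective q := p.subgroupMap_surjective G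
  refine ⟨G.map p, fun φ hφ => ⟨l φ, hN (Or.inl ⟨φ, hφ, rfl⟩), hl φ hφ⟩, ?_,
    Group.fg_of_surjective hq, ?_, Q.image q, ε, hε, ?_⟩
  · rintro _ ⟨g, -, rfl⟩
    exact ⟨g.1, g.2, hp g⟩
  · refine Infinite.of_injective (fun n : ℕ => q ⟨tr (1 / (n + 2)), hN (Or.inr ⟨n, rfl⟩)⟩)
      fun m n e => ?_
    have e1 := congrArg
      (fun g : G.map p => (g : Circle ≃ₜ Circle) (Circle.exp (2 * Real.pi * (0 : ℝ)))) e
    change p _ _ = p _ _ at e1
    rw [hp, hp, tr_smul, tr_smul, zero_add, zero_add] at e1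
    have b : ∀ k : ℕ, 2 * Real.pi * (1 / (k + 2)) ∈ Set.Ioc (-Real.pi) Real.pi := by
      intro k
      have h1 : (0 : ℝ) < 1 / (k + 2) := by positivity
      have h2 : (1 : ℝ) / (k + 2) ≤ 1 / 2 :=
        one_div_le_one_div_of_le two_pos (by linarith [Nat.cast_nonneg (α := ℝ) k])
      constructor <;> nlinarith [Real.pi_pos]
    have e2 := Circle.exp_injOn_Ioc (a := -Real.pi) (b := Real.pi) (by linarith) (b m) (b n) e1
    have e3 := mul_left_cancel₀ (by positivity) e2
    rw [one_div, one_div, inv_inj, add_left_inj] at e3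
    exact_mod_cast e3
  · rintro H _ _ _ π ⟨v, hv, hv'⟩
    obtain ⟨w, hw, h⟩ := hT H (π.comp q) ⟨v, hv, fun g hg => hv' _ (Finset.mem_image_of_mem q hg)⟩
    refine ⟨w, hw, fun g => ?_⟩
    obtain ⟨g, rfl⟩ := hq g
    exact h g

end Pool.Agent.Work.MP_913c95_al
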